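import Pool.Agent.Work.MP_8dbde4_lc.Tree.Main

/-!
# Examples: rooted triples, and linear equations for the first split
-/

set_option autoImplicit false
open Classical

namespace Pool.Agent.Work.MP_8dbde4_lc.Tree

open Pool.Agent.Work.MP_8dbde4_lc.TS

/-- Two symbols: `true` of arity 3 and `false` of arity 4. -/
def sX : Sig where
  S := Bool
  fin := inferInstance
  ar b := if b then 3 else 4

/-- The signature with the symbol of arity 3 only. -/
def sT : Sig where
  S := Unit
  fin := inferInstance
  ar _ := 3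

/-- Rooted triples: only the split relation. -/
def RT (K : Type) : Lang sT K where
  P _ p := p (1 : Fin 3) = p (2 : Fin 3)
  strict _ := True
  const _ _ := rfl

/-- The split relation, and the relation `the letters of x, y, z, u at the first split of the tuple
satisfy x + y = z + u, or x = y = z = u`. -/
def LA (K : Type) [AddCommGroup K] : Lang sX K where
  P
    | true => fun p => p (1 : Fin 3) = p (2 : Fin 3)
    | false => fun p => p (0 : Fin 4) + p (1 : Fin 4) = p (2 : Fin 4) + p (3 : Fin 4)
  strict b := b = true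
  const
    | true => fun _ => rfl
    | false => fun _ => rfl

theorem isSplit_RT (K : Type) : IsSplit (RT K) () := by
  refine ⟨rfl, trivial, fun p => ⟨fun h i j hi hj => ?_, fun h => h _ _ rfl rfl⟩⟩
  have h1 : i = (1 : Fin 3) := Fin.ext hi
  have h2 : j = (2 : Fin 3) := Fin.ext hj
  rw [h1, h2]
  exact h

theorem isSplit_LA (K : Type) [AddCommGroup K] : IsSplit (LA K) true := by
  refine ⟨rfl, rfl, fun p => ⟨fun h i j hi hj => ?_, fun h => h _ _ rfl rfl⟩⟩
  have h1 : i = (1 : Fin 3) := Fin.ext hi
  have h2 : j = (2 : Fin 3) := Fin.ext hj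
  rw [h1, h2]
  exact h

theorem gs_RT (K : Type) : GS (RT K) := by
  intro A _ 𝔄 hR hS
  obtain ⟨h, hs, x, _, y, _, hxy⟩ := hR Set.univ hS
  refine ⟨h x, h y, ⟨hxy, ?_⟩, fun z => if h z = h x then h x else h y, ?_, ?_, x, y, ?_⟩
  · intro R _ p p' _ _ hp hp'
    show meet _ _ _ _ = meet _ _ _ _
    have h1 : p (1 : Fin 3) = p (2 : Fin 3) := hp
    have h2 : p' (1 : Fin 3) = p' (2 : Fin 3) := hp'
    rw [h1, h2]
  · intro R t hR' ht
    have h1 : h (t (1 : Fin 3)) = h (t (2 : Fin 3)) := hs R t hR' ht
    show (if h (t (1 : Fin 3)) = h x then h x else h y) =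
      if h (t (2 : Fin 3)) = h x then h x else h y
    rw [h1]
  · intro z
    by_cases hz : h z = h x
    · left
      simp only [hz, if_true]
    · right
      simp only [hz, if_false]
  · simp only [if_true]
    rw [if_neg (fun h1 => hxy h1.symm)]
    exact hxy

theorem not_gs_LA (K : Type) [AddCommGroup K] [Nontrivial K] : ¬ GS (LA K) := by
  intro hG
  obtain ⟨k, k', hk⟩ := exists_pair_ne K
  let 𝔄 : Str sX (Fin 3) := ⟨fun R t => R = true ∧ ∀ i, (t i).val = i.val⟩
  have hstr : ∀ W : Set (Fin 3), HasStrict (LA K) 𝔄 W → ∀ x, x ∈ W := by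
    rintro W ⟨R, t, hR, ht, hW⟩ x
    have hR' : R = true := hR
    subst hR'
    have h1 := hW (show Fin 3 from x)
    have h2 := ht.2 (show Fin 3 from x)
    have h3 : t (show Fin 3 from x) = x := Fin.ext h2
    rw [h3] at h1
    exact h1
  have hres : Res (LA K) 𝔄 := by
    intro W hW
    refine ⟨fun x => if x = 0 then k else k', ?_, 0, hstr W hW 0, 1, hstr W hW 1, ?_⟩
    · intro R t ht _
      obtain ⟨hR, h1⟩ := ht
      subst hR
      have e1 : t (1 : Fin 3) = (1 : Fin 3) := Fin.ext (h1 (1 : Fin 3))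
      have e2 : t (2 : Fin 3) = (2 : Fin 3) := Fin.ext (h1 (2 : Fin 3))
      show (if t (1 : Fin 3) = 0 then k else k') = if t (2 : Fin 3) = 0 then k else k'
      rw [e1, e2]
      simp
    · simp [hk]
  obtain ⟨a, b, ⟨hab, hg⟩, _⟩ := hG (Fin 3) 𝔄 hres
    ⟨true, fun i : Fin 3 => i, rfl, ⟨rfl, fun _ => rfl⟩, fun _ => trivial⟩
  have i1 : ∀ j : Fin 4, (![a, b, a, b] : Fin 4 → K) j ∈ ({a, b} : Set K) := by
    intro j
    fin_cases j <;> simp
  have i2 : ∀ j : Fin 4, (![a, b, b, a] : Fin 4 → K) j ∈ ({a, b} : Set K) := by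
    intro j
    fin_cases j <;> simp
  have key := hg false (fun h => absurd h (by simp [LA])) (![a, b, a, b] : Fin 4 → K)
    (![a, b, b, a] : Fin 4 → K) i1 i2 (show a + b = a + b from rfl)
    (show a + b = b + a from add_comm a b)
  have k2 : meet a b a a + meet a b b b = meet a b a b + meet a b b a := key
  have m1 : meet a b a a = a := by simp [meet, hab]
  have m2 : meet a b b b = b := by simp [meet]
  have m3 : meet a b a b = a := by simp [meet, hab]
  have m4 : meet a b b a = a := by simp [meet, hab]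
  rw [m1, m2, m3, m4] at k2
  exact hab (add_left_cancel k2).symm

end Pool.Agent.Work.MP_8dbde4_lc.Tree
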