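import Pool.Agent.Work.MP_8dbde4_lc.Tree.StmtsH

/-!
One-point extension of finite partial isomorphisms for the splits (S_OPE).
-/

set_option autoImplicit false
open Classical

namespace Pool.Agent.Work.MP_8dbde4_lc.Tree

namespace XOPE

variable {K : Type} {c : ℚ → K}

/-- `q` is the first split of `x` and `y`. -/
def FS (x y : Word c) (q : ℚ) : Prop := Agr x y q ∧ x.1 q ≠ y.1 q

lemma FS.symm {x y : Word c} {q : ℚ} (h : FS x y q) : FS y x q :=
  ⟨fun q' hq => (h.1 q' hq).symm, fun e => h.2 e.symm⟩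

lemma FS.ne {x y : Word c} {q : ℚ} (h : FS x y q) : x ≠ y := by
  rintro rfl
  exact h.2 rfl

lemma FS.unique {x y : Word c} {q q' : ℚ} (h : FS x y q) (h' : FS x y q') : q = q' := by
  rcases lt_trichotomy q q' with h1 | h1 | h1
  · exact absurd (h'.1 q h1) h.2
  · exact h1
  · exact absurd (h.1 q' h1) h'.2

lemma exists_FS {x y : Word c} (h : x ≠ y) : ∃ q, FS x y q := by
  have hfin : {q | x.1 q ≠ y.1 q}.Finite := by
    refine (x.2.union y.2).subset ?_
    intro q hq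
    by_contra hc
    simp only [Set.mem_union, Set.mem_ofPred_eq, not_or, not_not] at hc
    exact hq (hc.1.trans hc.2.symm)
  have hne : {q | x.1 q ≠ y.1 q}.Nonempty := by
    by_contra hc
    rw [Set.not_nonempty_iff_eq_empty] at hc
    apply h
    apply Subtype.ext
    funext q
    by_contra hq
    have : q ∈ {q | x.1 q ≠ y.1 q} := hq
    rw [hc] at this
    exact this
  obtain ⟨q, hq, hmin⟩ := Set.exists_min_image _ id hfin hne
  refine ⟨q, ?_, hq⟩
  intro q' hq'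
  by_contra hc
  exact absurd (hmin q' hc) (not_le.2 hq')

lemma sp_iff {a b : K} {x y : Word c} :
    Sp a b x y ↔ ∃ q, FS x y q ∧ x.1 q = a ∧ y.1 q = b := by
  constructor
  · rintro ⟨q, h1, h2, h3, h4⟩
    exact ⟨q, ⟨h1, by rw [h2, h3]; exact h4⟩, h2, h3⟩
  · rintro ⟨q, h1, h2, h3⟩
    exact ⟨q, h1.1, h2, h3, by rw [← h2, ← h3]; exact h1.2⟩

lemma sp_of_FS {x y : Word c} {q : ℚ} (h : FS x y q) : Sp (x.1 q) (y.1 q) x y :=
  sp_iff.2 ⟨q, h, rfl, rfl⟩

lemma sp_iff_of_FS {a b : K} {x y : Word c} {q : ℚ} (h : FS x y q) :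
    Sp a b x y ↔ x.1 q = a ∧ y.1 q = b := by
  rw [sp_iff]
  constructor
  · rintro ⟨q', h1, h2, h3⟩
    obtain rfl := h.unique h1
    exact ⟨h2, h3⟩
  · rintro ⟨h2, h3⟩
    exact ⟨q, h, h2, h3⟩

lemma cc_lt {z x y : Word c} {p p' : ℚ} (h : FS z x p) (h' : FS x y p') :
    Cc z x y ↔ p < p' := by
  constructor
  · rintro ⟨q, h1, h2, h3, h4⟩
    have hq : p = q := h.unique ⟨h1, h4⟩
    subst hq
    by_contra hc
    rcases lt_or_eq_of_le (not_lt.1 hc) with h5 | h5
    · exact h'.2 ((h1 p' h5).symm.trans (h2 p' h5))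
    · subst h5
      exact h'.2 h3
  · intro hlt
    refine ⟨p, h.1, ?_, h'.1 p hlt, h.2⟩
    intro q hq
    exact (h.1 q hq).trans (h'.1 q (hq.trans hlt))

lemma cc_eq {x s t : Word c} {p p' : ℚ} (h : FS x s p) (h' : FS x t p') :
    Cc x s t ↔ p = p' ∧ s.1 p = t.1 p := by
  constructor
  · rintro ⟨q, h1, h2, h3, h4⟩
    have hq : p = q := h.unique ⟨h1, h4⟩
    have hq' : p' = q := h'.unique ⟨h2, by rw [← h3]; exact h4⟩
    subst hq
    exact ⟨hq'.symm, h3⟩
  · rintro ⟨rfl, h3⟩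
    exact ⟨p, h.1, h'.1, h3, h.2⟩

lemma cc_self_left {x t : Word c} : ¬ Cc x x t := by
  rintro ⟨q, h1, h2, h3, h4⟩
  exact h4 rfl

lemma cc_self_right {x t : Word c} : ¬ Cc x t x := by
  rintro ⟨q, h1, h2, h3, h4⟩
  exact h4 h3.symm

lemma cc_comm {z x y : Word c} : Cc z x y ↔ Cc z y x := by
  constructor
  · rintro ⟨q, h1, h2, h3, h4⟩
    exact ⟨q, h2, h1, h3.symm, by rw [← h3]; exact h4⟩
  · rintro ⟨q, h1, h2, h3, h4⟩
    exact ⟨q, h2, h1, h3.symm, by rw [← h3]; exact h4⟩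

lemma cc_same {z x : Word c} : Cc z x x ↔ z ≠ x := by
  constructor
  · rintro ⟨q, h1, h2, h3, h4⟩ rfl
    exact h4 rfl
  · intro h
    obtain ⟨q, hq⟩ := exists_FS h
    exact ⟨q, hq.1, hq.1, rfl, hq.2⟩

lemma sp_irrefl {a b : K} {x : Word c} : ¬ Sp a b x x := by
  rintro ⟨q, h1, h2, h3, h4⟩
  exact h4 (h2.symm.trans h3)

lemma sp_comm {a b : K} {x y : Word c} : Sp a b x y ↔ Sp b a y x := by
  constructor
  · rintro ⟨q, h1, h2, h3, h4⟩
    exact ⟨q, fun q' h => (h1 q' h).symm, h3, h2, fun e => h4 e.symm⟩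
  · rintro ⟨q, h1, h2, h3, h4⟩
    exact ⟨q, fun q' h => (h1 q' h).symm, h3, h2, fun e => h4 e.symm⟩

/-- Extension by a new pair whose splits correspond. -/
lemma pi_insert {F : Finset (Word c × Word c)} (hF : PI c F) {x y : Word c}
    (hG : ∀ s ∈ F, ∃ p r, FS x s.1 p ∧ FS y s.2 r ∧ x.1 p = y.1 r ∧ s.1.1 p = s.2.1 r)
    (hO : ∀ s ∈ F, ∀ t ∈ F, ∀ p p' r r', FS x s.1 p → FS x t.1 p' → FS y s.2 r → FS y t.2 r' →
      (p < p' ↔ r < r')) : PI c (insert (x, y) F) := by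
  have hsp : ∀ s ∈ F, ∀ a b, Sp a b x s.1 ↔ Sp a b y s.2 := by
    intro s hs a b
    obtain ⟨p, r, h1, h2, h3, h4⟩ := hG s hs
    rw [sp_iff_of_FS h1, sp_iff_of_FS h2, h3, h4]
  have hne1 : ∀ s ∈ F, x ≠ s.1 := by
    intro s hs
    obtain ⟨p, r, h1, h2, h3, h4⟩ := hG s hs
    exact h1.ne
  have hne2 : ∀ s ∈ F, y ≠ s.2 := by
    intro s hs
    obtain ⟨p, r, h1, h2, h3, h4⟩ := hG s hs
    exact h2.ne
  have hA : ∀ s ∈ F, ∀ t ∈ F, (Cc x s.1 t.1 ↔ Cc y s.2 t.2) := by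
    intro s hs t ht
    obtain ⟨p, r, h1, h2, h3, h4⟩ := hG s hs
    obtain ⟨p', r', h1', h2', h3', h4'⟩ := hG t ht
    rw [cc_eq h1 h1', cc_eq h2 h2']
    have o1 := hO s hs t ht p p' r r' h1 h1' h2 h2'
    have o2 := hO t ht s hs p' p r' r h1' h1 h2' h2
    constructor
    · rintro ⟨rfl, h6⟩
      have hr : r = r' := by
        rcases lt_trichotomy r r' with h7 | h7 | h7
        · exact absurd (o1.2 h7) (lt_irrefl _)
        · exact h7
        · exact absurd (o2.2 h7) (lt_irrefl _)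
      subst hr
      exact ⟨rfl, by rw [← h4, ← h4']; exact h6⟩
    · rintro ⟨rfl, h6⟩
      have hr : p = p' := by
        rcases lt_trichotomy p p' with h7 | h7 | h7
        · exact absurd (o1.1 h7) (lt_irrefl _)
        · exact h7
        · exact absurd (o2.1 h7) (lt_irrefl _)
      subst hr
      exact ⟨rfl, by rw [h4, h4']; exact h6⟩
  have hB : ∀ s ∈ F, ∀ t ∈ F, (Cc s.1 x t.1 ↔ Cc s.2 y t.2) := by
    intro s hs t ht
    obtain ⟨p, r, h1, h2, h3, h4⟩ := hG s hs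
    obtain ⟨p', r', h1', h2', h3', h4'⟩ := hG t ht
    rw [cc_lt h1.symm h1', cc_lt h2.symm h2']
    exact hO s hs t ht p p' r r' h1 h1' h2 h2'
  refine ⟨?_, ?_, ?_⟩
  · intro p hp q hq
    rw [Finset.mem_insert] at hp hq
    rcases hp with rfl | hp <;> rcases hq with rfl | hq
    · exact iff_of_true rfl rfl
    · exact iff_of_false (hne1 q hq) (hne2 q hq)
    · exact iff_of_false (fun h => hne1 p hp h.symm) (fun h => hne2 p hp h.symm)
    · exact hF.1 p hp q hq
  · intro p hp q hq a b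
    rw [Finset.mem_insert] at hp hq
    rcases hp with rfl | hp <;> rcases hq with rfl | hq
    · exact iff_of_false sp_irrefl sp_irrefl
    · exact hsp q hq a b
    · rw [sp_comm, sp_comm (x := p.2)]
      exact hsp p hp b a
    · exact hF.2.1 p hp q hq a b
  · intro p hp q hq r hr
    rw [Finset.mem_insert] at hp hq hr
    rcases hp with rfl | hp <;> rcases hq with rfl | hq <;> rcases hr with rfl | hr
    · exact iff_of_false cc_self_left cc_self_left
    · exact iff_of_false cc_self_left cc_self_left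
    · exact iff_of_false cc_self_right cc_self_right
    · exact hA q hq r hr
    · exact iff_of_true (cc_same.2 (fun h => hne1 p hp h.symm))
        (cc_same.2 (fun h => hne2 p hp h.symm))
    · exact hB p hp r hr
    · rw [cc_comm, cc_comm (x := q.2)]
      exact hB p hp q hq
    · exact hF.2.2 p hp q hq r hr

/-- The final construction. -/
lemma fin_step {F : Finset (Word c × Word c)} (hF : PI c F) {x : Word c}
    {d : Word c × Word c → ℚ} (hd : ∀ s ∈ F, FS x s.1 (d s))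
    {s₀ : Word c × Word c} (h0 : s₀ ∈ F) (hmax : ∀ s ∈ F, d s ≤ d s₀) (q' : ℚ)
    (H1 : ∀ s ∈ F, d s = d s₀ → Agr s.2 s₀.2 q' ∧ s.2.1 q' = s.1.1 (d s₀))
    (H2 : ∀ s ∈ F, d s < d s₀ → ∀ r, FS s.2 s₀.2 r → r < q') :
    ∃ y : Word c, PI c (insert (x, y) F) := by
  set y : Word c := ⟨fun p => if p < q' then s₀.2.1 p else if p = q' then x.1 (d s₀) else c p, by
    refine (s₀.2.2.union (Set.finite_singleton q')).subset ?_
    intro p hp
    simp only [Set.mem_ofPred_eq] at hp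
    simp only [Set.mem_union, Set.mem_ofPred_eq, Set.mem_singleton_iff]
    by_cases h1 : p < q'
    · rw [if_pos h1] at hp
      exact Or.inl hp
    · rw [if_neg h1] at hp
      by_cases h2 : p = q'
      · exact Or.inr h2
      · rw [if_neg h2] at hp
        exact absurd rfl hp⟩ with hy
  have hylt : ∀ p < q', y.1 p = s₀.2.1 p := by
    intro p hp
    simp only [hy]
    rw [if_pos hp]
  have hyq : y.1 q' = x.1 (d s₀) := by
    simp only [hy]
    rw [if_neg (lt_irrefl _)]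
    simp
  have key : ∀ s ∈ F, ∃ r, FS y s.2 r ∧ x.1 (d s) = y.1 r ∧ s.1.1 (d s) = s.2.1 r ∧
      (d s = d s₀ → r = q') ∧
      (d s < d s₀ → r < q' ∧ FS s₀.1 s.1 (d s) ∧ FS s₀.2 s.2 r) := by
    intro s hs
    rcases lt_or_eq_of_le (hmax s hs) with hlt | heq
    · have e0 : ∀ p < d s₀, x.1 p = s₀.1.1 p := (hd s₀ h0).1
      have f1 : FS s₀.1 s.1 (d s) := by
        refine ⟨fun p hp => ?_, ?_⟩
        · rw [← e0 p (hp.trans hlt)]
          exact (hd s hs).1 p hp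
        · rw [← e0 _ hlt]
          exact (hd s hs).2
      obtain ⟨r, f2, f3, f4⟩ := sp_iff.1 ((hF.2.1 s₀ h0 s hs _ _).1 (sp_of_FS f1))
      have hr : r < q' := H2 s hs hlt r f2.symm
      refine ⟨r, ⟨fun p hp => ?_, ?_⟩, ?_, f4.symm, fun h => absurd h hlt.ne, fun _ => ⟨hr, f1, f2⟩⟩
      · rw [hylt p (hp.trans hr)]
        exact f2.1 p hp
      · rw [hylt r hr]
        exact f2.2
      · rw [hylt r hr, f3, e0 _ hlt]
    · obtain ⟨g1, g2⟩ := H1 s hs heq
      refine ⟨q', ⟨fun p hp => ?_, ?_⟩, ?_, ?_, fun _ => rfl, fun h => absurd heq h.ne⟩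
      · rw [hylt p hp]
        exact (g1 p hp).symm
      · rw [hyq, g2, ← heq]
        exact (hd s hs).2
      · rw [hyq, heq]
      · rw [g2, heq]
  refine ⟨y, pi_insert hF ?_ ?_⟩
  · intro s hs
    obtain ⟨r, h1, h2, h3, -, -⟩ := key s hs
    exact ⟨d s, r, hd s hs, h1, h2, h3⟩
  · intro s hs t ht p p' r r' k1 k2 k3 k4
    obtain rfl := (hd s hs).unique k1
    obtain rfl := (hd t ht).unique k2
    obtain ⟨r1, h1, -, -, h2, h3⟩ := key s hs
    obtain ⟨r2, h1', -, -, h2', h3'⟩ := key t ht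
    obtain rfl := h1.unique k3
    obtain rfl := h1'.unique k4
    rcases lt_or_eq_of_le (hmax s hs) with hs1 | hs1 <;>
      rcases lt_or_eq_of_le (hmax t ht) with ht1 | ht1
    · obtain ⟨a1, a2, a3⟩ := h3 hs1
      obtain ⟨b1, b2, b3⟩ := h3' ht1
      rw [← cc_lt a2.symm b2, ← cc_lt a3.symm b3]
      exact hF.2.2 s hs s₀ h0 t ht
    · obtain ⟨a1, a2, a3⟩ := h3 hs1
      have := h2' ht1
      exact iff_of_true (by rw [ht1]; exact hs1) (by rw [this]; exact a1)
    · obtain ⟨b1, b2, b3⟩ := h3' ht1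
      have := h2 hs1
      exact iff_of_false (by rw [hs1]; exact not_lt.2 ht1.le) (by rw [this]; exact not_lt.2 b1.le)
    · have e1 := h2 hs1
      have e2 := h2' ht1
      exact iff_of_false (by rw [hs1, ht1]; exact lt_irrefl _) (by rw [e1, e2]; exact lt_irrefl _)

lemma case1 {F : Finset (Word c × Word c)} (hF : PI c F) {x : Word c}
    {d : Word c × Word c → ℚ} (hd : ∀ s ∈ F, FS x s.1 (d s))
    {s₀ : Word c × Word c} (h0 : s₀ ∈ F) (hmax : ∀ s ∈ F, d s ≤ d s₀)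
    {s₁ : Word c × Word c} (hs1 : s₁ ∈ F) (h1 : d s₁ = d s₀)
    (hne : s₁.1.1 (d s₀) ≠ s₀.1.1 (d s₀)) :
    ∃ y : Word c, PI c (insert (x, y) F) := by
  have ag : ∀ s ∈ F, d s = d s₀ → ∀ p < d s₀, x.1 p = s.1.1 p := by
    intro s hs h p hp
    exact (hd s hs).1 p (by rw [h]; exact hp)
  have f1 : FS s₀.1 s₁.1 (d s₀) := by
    refine ⟨fun p hp => ?_, fun e => hne e.symm⟩
    rw [← ag s₀ h0 rfl p hp]
    exact ag s₁ hs1 h1 p hp
  obtain ⟨q', f2, f3, f4⟩ := sp_iff.1 ((hF.2.1 s₀ h0 s₁ hs1 _ _).1 (sp_of_FS f1))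
  refine fin_step hF hd h0 hmax q' ?_ ?_
  · intro s hs heq
    have a0 : ∀ p < d s₀, s₀.1.1 p = s.1.1 p := fun p hp =>
      (ag s₀ h0 rfl p hp).symm.trans (ag s hs heq p hp)
    have a1 : ∀ p < d s₀, s₁.1.1 p = s.1.1 p := fun p hp =>
      (ag s₁ hs1 h1 p hp).symm.trans (ag s hs heq p hp)
    by_cases c1 : s.1.1 (d s₀) = s₀.1.1 (d s₀)
    · have hc : Cc s₁.1 s₀.1 s.1 := ⟨d s₀, f1.symm.1, a1, c1.symm, hne⟩
      obtain ⟨r, g1, g2, g3, g4⟩ := (hF.2.2 s₁ hs1 s₀ h0 s hs).1 hc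
      have hr : r = q' := FS.unique (x := s₁.2) (y := s₀.2) ⟨g1, g4⟩ f2.symm
      subst hr
      refine ⟨fun p hp => (g2 p hp).symm.trans (g1 p hp), ?_⟩
      rw [← g3, f3, c1]
    · by_cases c2 : s.1.1 (d s₀) = s₁.1.1 (d s₀)
      · have hc : Cc s₀.1 s₁.1 s.1 := ⟨d s₀, f1.1, a0, c2.symm, fun e => hne e.symm⟩
        obtain ⟨r, g1, g2, g3, g4⟩ := (hF.2.2 s₀ h0 s₁ hs1 s hs).1 hc
        have hr : r = q' := FS.unique (x := s₀.2) (y := s₁.2) ⟨g1, g4⟩ f2
        subst hr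
        refine ⟨fun p hp => (g2 p hp).symm, ?_⟩
        rw [← g3, f4, c2]
      · have k1 : FS s.1 s₀.1 (d s₀) := ⟨fun p hp => (a0 p hp).symm, c1⟩
        have k2 : FS s.1 s₁.1 (d s₀) := ⟨fun p hp => (a1 p hp).symm, c2⟩
        obtain ⟨r, m1, m2, m3⟩ := sp_iff.1 ((hF.2.1 s hs s₀ h0 _ _).1 (sp_of_FS k1))
        obtain ⟨r', n1, n2, n3⟩ := sp_iff.1 ((hF.2.1 s hs s₁ hs1 _ _).1 (sp_of_FS k2))
        have hr : r = q' := by
          rcases lt_trichotomy r q' with h | h | h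
          · exfalso
            have e1 : s₁.2.1 r = s₀.2.1 r := (f2.1 r h).symm
            have e2 : FS s.2 s₁.2 r := by
              refine ⟨fun p hp => (m1.1 p hp).trans (f2.1 p (hp.trans h)), ?_⟩
              rw [e1]
              exact m1.2
            obtain rfl := e2.unique n1
            apply hne
            rw [← n3, ← m3, e1]
          · exact h
          · exfalso
            have e1 : s.2.1 q' = s₀.2.1 q' := m1.1 q' h
            have e2 : FS s.2 s₁.2 q' := by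
              refine ⟨fun p hp => (m1.1 p (hp.trans h)).trans (f2.1 p hp), ?_⟩
              rw [e1]
              exact f2.2
            obtain rfl := e2.unique n1
            apply c1
            rw [← n2, e1, f3]
        subst hr
        exact ⟨m1.1, m2⟩
  · intro s hs hlt r hr
    have f5 : FS s.1 s₀.1 (d s) := by
      refine ⟨fun p hp => ?_, ?_⟩
      · rw [← ag s₀ h0 rfl p (hp.trans hlt)]
        exact ((hd s hs).1 p hp).symm
      · rw [← ag s₀ h0 rfl _ hlt]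
        exact fun e => (hd s hs).2 e.symm
    have hc : Cc s.1 s₀.1 s₁.1 := (cc_lt f5 f1).2 hlt
    exact (cc_lt hr f2).1 ((hF.2.2 s hs s₀ h0 s₁ hs1).1 hc)

lemma case2 {F : Finset (Word c × Word c)} (hcd : DenseW c) (hF : PI c F) {x : Word c}
    {d : Word c × Word c → ℚ} (hd : ∀ s ∈ F, FS x s.1 (d s))
    {s₀ : Word c × Word c} (h0 : s₀ ∈ F) (hmax : ∀ s ∈ F, d s ≤ d s₀)
    (hall : ∀ s ∈ F, d s = d s₀ → s.1.1 (d s₀) = s₀.1.1 (d s₀)) :
    ∃ y : Word c, PI c (insert (x, y) F) := by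
  have ag : ∀ s ∈ F, d s = d s₀ → ∀ p < d s₀, x.1 p = s.1.1 p := by
    intro s hs h p hp
    exact (hd s hs).1 p (by rw [h]; exact hp)
  have he : ∀ s : Word c × Word c, ∃ r, s.2 ≠ s₀.2 → FS s.2 s₀.2 r := by
    intro s
    by_cases h : s.2 = s₀.2
    · exact ⟨0, fun h' => absurd h h'⟩
    · obtain ⟨r, hr⟩ := exists_FS h
      exact ⟨r, fun _ => hr⟩
  choose e he using he
  have f5 : ∀ s ∈ F, d s < d s₀ → FS s.1 s₀.1 (d s) := by
    intro s hs hlt
    refine ⟨fun p hp => ?_, ?_⟩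
    · rw [← ag s₀ h0 rfl p (hp.trans hlt)]
      exact ((hd s hs).1 p hp).symm
    · rw [← ag s₀ h0 rfl _ hlt]
      exact fun e => (hd s hs).2 e.symm
  have f6 : ∀ s ∈ F, d s < d s₀ → s.2 ≠ s₀.2 := by
    intro s hs hlt h
    exact (f5 s hs hlt).ne ((hF.1 s hs s₀ h0).2 h)
  set L : Finset ℚ := (F.filter (fun s => d s < d s₀)).image e with hL
  set U : Finset ℚ := (F.filter (fun s => d s = d s₀ ∧ s.2 ≠ s₀.2)).image e with hU
  have hLU : ∀ r ∈ L, ∀ r' ∈ U, r < r' := by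
    intro r hr r' hr'
    rw [hL, Finset.mem_image] at hr
    rw [hU, Finset.mem_image] at hr'
    obtain ⟨t, ht, rfl⟩ := hr
    obtain ⟨s, hs, rfl⟩ := hr'
    rw [Finset.mem_filter] at ht hs
    obtain ⟨ht, ht1⟩ := ht
    obtain ⟨hs, hs1, hs2⟩ := hs
    have hne : s₀.1 ≠ s.1 := fun h => hs2 (((hF.1 s₀ h0 s hs).1 h).symm)
    obtain ⟨p, hp⟩ := exists_FS hne
    have hqp : d s₀ < p := by
      by_contra hc
      rcases lt_or_eq_of_le (not_lt.1 hc) with h | h
      · exact hp.2 ((ag s₀ h0 rfl p h).symm.trans (ag s hs hs1 p h))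
      · subst h
        exact hp.2 (hall s hs hs1).symm
    have hc : Cc t.1 s₀.1 s.1 := (cc_lt (f5 t ht ht1) hp).2 (ht1.trans hqp)
    exact (cc_lt (he t (f6 t ht ht1)) (he s hs2).symm).1 ((hF.2.2 t ht s₀ h0 s hs).1 hc)
  obtain ⟨m1, hm1, hm1'⟩ := Order.exists_between_finsets L U hLU
  set E : Finset ℚ := s₀.2.2.toFinset with hE
  obtain ⟨m3, hm3, hm3'⟩ := Order.exists_between_finsets {m1} (U ∪ E.filter (fun r => m1 < r)) (by
    intro r hr r' hr'
    rw [Finset.mem_singleton] at hr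
    subst hr
    rw [Finset.mem_union, Finset.mem_filter] at hr'
    rcases hr' with h | h
    · exact hm1' r' h
    · exact h.2)
  obtain ⟨q', hq1, hq2, hq3⟩ := hcd (s₀.1.1 (d s₀)) m1 m3 (hm3 m1 (Finset.mem_singleton_self _))
  have hs0 : s₀.2.1 q' = s₀.1.1 (d s₀) := by
    rw [← hq3]
    by_contra hc
    have hmem : q' ∈ E := by
      rw [hE, Set.Finite.mem_toFinset]
      exact hc
    have := hm3' q' (Finset.mem_union_right _ (Finset.mem_filter.2 ⟨hmem, hq1⟩))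
    exact absurd this (not_lt.2 hq2.le)
  refine fin_step hF hd h0 hmax q' ?_ ?_
  · intro s hs heq
    by_cases h : s.2 = s₀.2
    · refine ⟨fun p _ => by rw [h], ?_⟩
      rw [h, hs0, hall s hs heq]
    · have h1 := he s h
      have hmem : e s ∈ U := by
        rw [hU]
        exact Finset.mem_image_of_mem _ (Finset.mem_filter.2 ⟨hs, heq, h⟩)
      have hlt : q' < e s := hq2.trans (hm3' _ (Finset.mem_union_left _ hmem))
      refine ⟨fun p hp => h1.1 p (hp.trans hlt), ?_⟩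
      rw [h1.1 q' hlt, hs0, hall s hs heq]
  · intro s hs hlt r hr
    obtain rfl := (he s (f6 s hs hlt)).unique hr
    have hmem : e s ∈ L := by
      rw [hL]
      exact Finset.mem_image_of_mem _ (Finset.mem_filter.2 ⟨hs, hlt⟩)
    exact (hm1 _ hmem).trans hq1

end XOPE

open XOPE

theorem OPE_pf : S_OPE := by
  intro K c hcd F hF x
  by_cases hx : ∃ s ∈ F, s.1 = x
  · obtain ⟨s, hs, rfl⟩ := hx
    refine ⟨s.2, ?_⟩
    rw [Finset.insert_eq_of_mem (by simpa using hs)]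
    exact hF
  · push Not at hx
    rcases F.eq_empty_or_nonempty with rfl | hne
    · refine ⟨x, pi_insert hF ?_ ?_⟩
      · intro s hs
        exact absurd hs (Finset.notMem_empty s)
      · intro s hs
        exact absurd hs (Finset.notMem_empty s)
    · have hd : ∀ s : Word c × Word c, ∃ r, s ∈ F → FS x s.1 r := by
        intro s
        by_cases h : s ∈ F
        · obtain ⟨r, hr⟩ := exists_FS (fun e => hx s h e.symm)
          exact ⟨r, fun _ => hr⟩
        · exact ⟨0, fun h' => absurd h' h⟩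
      choose d hd using hd
      obtain ⟨s₀, h0, hmax⟩ := Finset.exists_max_image F d hne
      by_cases hc : ∃ s₁ ∈ F, d s₁ = d s₀ ∧ s₁.1.1 (d s₀) ≠ s₀.1.1 (d s₀)
      · obtain ⟨s₁, hs1, h1, h2⟩ := hc
        exact case1 hF hd h0 hmax hs1 h1 h2
      · push Not at hc
        exact case2 hcd hF hd h0 hmax hc

end Pool.Agent.Work.MP_8dbde4_lc.Tree
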