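import Pool.Agent.Work.MP_8dbde4_lc.Tree.StmtsH

/-!
Block Tree of MP_8dbde4_lc, item FB: the expanded templates are finitely bounded.
-/

set_option autoImplicit false
open Classical

namespace Pool.Agent.Work.MP_8dbde4_lc.Tree

open Pool.Agent.Work.MP_8dbde4_lc.TS

namespace XFB

variable {K : Type} {c : ℚ → K}

/-! ### words -/

theorem exists_split {u v : Word c} (h : u ≠ v) : ∃ q, Agr u v q ∧ u.1 q ≠ v.1 q := by
  have hfin : {q | u.1 q ≠ v.1 q}.Finite := by
    refine (u.2.union v.2).subset ?_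
    intro q hq
    by_contra hcon
    simp only [Set.mem_union, Set.mem_ofPred_eq, not_or, not_not] at hcon
    exact hq (hcon.1.trans hcon.2.symm)
  have hne : {q | u.1 q ≠ v.1 q}.Nonempty := by
    by_contra hcon
    rw [Set.not_nonempty_iff_eq_empty] at hcon
    apply h
    refine Subtype.ext (funext fun q => ?_)
    by_contra hq
    have : q ∈ {q | u.1 q ≠ v.1 q} := hq
    rw [hcon] at this
    exact this
  obtain ⟨q, hq, hmin⟩ := Set.exists_min_image _ id hfin hne
  exact ⟨q, fun q' hq' => by_contra fun hc => absurd (hmin q' hc) (not_le.2 hq'), hq⟩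

theorem agr_symm {u v : Word c} {q : ℚ} (h : Agr u v q) : Agr v u q := fun q' hq' => (h q' hq').symm

theorem sp_at {u v : Word c} {p : ℚ} (h : Agr u v p) (hp : u.1 p ≠ v.1 p) (a b : K) :
    Sp a b u v ↔ u.1 p = a ∧ v.1 p = b := by
  constructor
  · rintro ⟨q, h1, h2, h3, h4⟩
    rcases lt_trichotomy q p with hq | hq | hq
    · exact absurd (h2.symm.trans ((h q hq).trans h3)) h4
    · subst hq
      exact ⟨h2, h3⟩
    · exact absurd (h1 p hq) hp
  · rintro ⟨h1, h2⟩
    exact ⟨p, h, h1, h2, fun e => hp (by rw [h1, h2, e])⟩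

theorem cc_at {z w u : Word c} {p : ℚ} (h1 : Agr z w p) (h2 : Agr z u p)
    (hp : ¬ (z.1 p = w.1 p ∧ z.1 p = u.1 p)) : Cc z w u ↔ w.1 p = u.1 p ∧ z.1 p ≠ w.1 p := by
  constructor
  · rintro ⟨q, e1, e2, e3, e4⟩
    rcases lt_trichotomy q p with hq | hq | hq
    · exact absurd (h1 q hq) e4
    · subst hq
      exact ⟨e3, e4⟩
    · exact absurd ⟨e1 p hq, e2 p hq⟩ hp
  · rintro ⟨e1, e2⟩
    exact ⟨p, h1, h2, e1, e2⟩

theorem not_sp_self (a b : K) (u : Word c) : ¬ Sp a b u u := by
  rintro ⟨q, -, h1, h2, h3⟩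
  exact h3 (h1.symm.trans h2)

theorem not_cc_self (z u : Word c) : ¬ Cc z u z := by
  rintro ⟨q, -, -, h1, h2⟩
  exact h2 h1.symm

/-- Change the letter at one place. -/
noncomputable def up (u : Word c) (q : ℚ) (a : K) : Word c :=
  ⟨Function.update u.1 q a, by
    refine (u.2.insert q).subset ?_
    intro q' hq'
    by_cases h : q' = q
    · exact Or.inl h
    · refine Or.inr ?_
      simp only [Set.mem_ofPred_eq, Function.update_of_ne h] at hq'
      exact hq'⟩

theorem up_same (u : Word c) (q : ℚ) (a : K) : (up u q a).1 q = a := Function.update_self _ _ _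

theorem up_ne (u : Word c) {q q' : ℚ} (a : K) (h : q' ≠ q) : (up u q a).1 q' = u.1 q' :=
  Function.update_of_ne h _ _

theorem up_eq_iff {u v : Word c} {p : ℚ} (hp : u.1 p = v.1 p) (a : K) (q : ℚ) :
    (up u p a).1 q = (up v p a).1 q ↔ u.1 q = v.1 q := by
  by_cases h : q = p
  · subst h
    rw [up_same, up_same]
    simp [hp]
  · rw [up_ne u a h, up_ne v a h]

theorem agr_up {u v : Word c} {p : ℚ} (hp : u.1 p = v.1 p) (a : K) (q : ℚ) :
    Agr (up u p a) (up v p a) q ↔ Agr u v q :=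
  forall_congr' fun q' => imp_congr_right fun _ => up_eq_iff hp a q'

theorem sp_up {u v : Word c} {p : ℚ} (hp : u.1 p = v.1 p) (a α β : K) :
    Sp α β (up u p a) (up v p a) ↔ Sp α β u v := by
  refine exists_congr fun q => ?_
  rw [agr_up hp]
  by_cases h : q = p
  · subst h
    constructor
    · rintro ⟨_, h1, h2, h3⟩
      rw [up_same] at h1 h2
      exact absurd (h1.symm.trans h2) h3
    · rintro ⟨_, h1, h2, h3⟩
      exact absurd (h1.symm.trans (hp.trans h2)) h3
  · rw [up_ne u a h, up_ne v a h]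

theorem cc_up {z w u : Word c} {p : ℚ} (h1 : z.1 p = w.1 p) (h2 : z.1 p = u.1 p) (a : K) :
    Cc (up z p a) (up w p a) (up u p a) ↔ Cc z w u := by
  refine exists_congr fun q => ?_
  rw [agr_up h1, agr_up h2, up_eq_iff (h1.symm.trans h2), Ne, up_eq_iff h1]

/-- The letter of a third word at the split is determined. -/
theorem letter_eq {u v w u' v' w' : Word c} {p p' : ℚ} (h1 : Agr u v p) (h2 : u.1 p ≠ v.1 p)
    (h3 : Agr u w p) (h1' : Agr u' v' p') (h2' : u'.1 p' ≠ v'.1 p') (h3' : Agr u' w' p')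
    (hS1 : ∀ a b, Sp a b u v ↔ Sp a b u' v') (hS2 : ∀ a b, Sp a b u w ↔ Sp a b u' w')
    (hC : Cc v u w ↔ Cc v' u' w') : w.1 p = w'.1 p' := by
  have e1 : u'.1 p' = u.1 p :=
    ((sp_at h1' h2' _ _).1 ((hS1 _ _).1 ((sp_at h1 h2 _ _).2 ⟨rfl, rfl⟩))).1
  have h4 : Agr v w p := fun q hq => ((h1 q hq).symm).trans (h3 q hq)
  have h4' : Agr v' w' p' := fun q hq => ((h1' q hq).symm).trans (h3' q hq)
  have c1 : Cc v u w ↔ u.1 p = w.1 p ∧ v.1 p ≠ u.1 p :=
    cc_at (agr_symm h1) h4 (fun h => h2 h.1.symm)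
  have c2 : Cc v' u' w' ↔ u'.1 p' = w'.1 p' ∧ v'.1 p' ≠ u'.1 p' :=
    cc_at (agr_symm h1') h4' (fun h => h2' h.1.symm)
  by_cases hw : u.1 p = w.1 p
  · have := (c2.1 (hC.1 (c1.2 ⟨hw, fun h => h2 h.symm⟩))).1
    rw [← hw, ← e1, this]
  · by_cases hw' : u'.1 p' = w'.1 p'
    · exact absurd (c1.1 (hC.2 (c2.2 ⟨hw', fun h => h2' h.symm⟩))).1 hw
    · exact (((sp_at h3' hw' _ _).1 ((hS2 _ _).1 ((sp_at h3 hw _ _).2 ⟨rfl, rfl⟩))).2).symm

/-- The order of the splits from `x` is transitive. -/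
theorem cc_trans {x v v' v'' : Word c} (h1 : Cc v'' x v') (h2 : Cc v' x v) : Cc v'' x v := by
  obtain ⟨q1, a1, a2, a3, a4⟩ := h1
  obtain ⟨q2, b1, b2, b3, b4⟩ := h2
  have hlt : q1 < q2 := by
    rcases lt_trichotomy q1 q2 with h | h | h
    · exact h
    · subst h
      exact absurd a3.symm b4
    · exact absurd ((a2 q2 h).symm.trans (a1 q2 h)) b4
  refine ⟨q1, a1, fun q hq => ?_, ?_, a4⟩
  · rw [a1 q hq, ← b1 q (hq.trans hlt), b2 q (hq.trans hlt)]
  · rw [← b1 q1 hlt, b2 q1 hlt]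

/-! ### the construction -/

variable {B : Type}

/-- `g` is an embedding on `S` for the splits. -/
def GE (rS : K → K → B → B → Prop) (rC : B → B → B → Prop) (S : Finset B) (g : B → Word c) :
    Prop :=
  (∀ x ∈ S, ∀ y ∈ S, g x = g y → x = y) ∧
  (∀ x ∈ S, ∀ y ∈ S, ∀ a b, rS a b x y ↔ Sp a b (g x) (g y)) ∧
  ∀ x ∈ S, ∀ y ∈ S, ∀ z ∈ S, rC x y z ↔ Cc (g x) (g y) (g z)

/-- If nothing splits off from `x` before `y`, all words agree with `x` below the split. -/
theorem agr_of {rS : K → K → B → B → Prop} {rC : B → B → B → Prop} {S : Finset B}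
    {g : B → Word c} (hg : GE rS rC S g) {x y z : B} (hx : x ∈ S) (hy : y ∈ S) (hz : z ∈ S)
    (hmin : z ≠ x → ¬ rC z x y) {q : ℚ} (hq : Agr (g x) (g y) q) : Agr (g x) (g z) q := by
  by_cases hzx : z = x
  · subst hzx
    exact fun _ _ => rfl
  · have h1 := hmin hzx
    rw [hg.2.2 z hz x hx y hy] at h1
    obtain ⟨s, hs, hs'⟩ := exists_split (u := g z) (v := g x) (fun h => hzx (hg.1 z hz x hx h))
    intro q' hq'
    by_contra hne
    have hlt : s ≤ q' := by
      by_contra hc
      exact hne ((hs q' (not_le.1 hc)).symm)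
    exact h1 ⟨s, hs, fun r hr => (hs r hr).trans (hq r ((hr.trans_le hlt).trans hq')),
      hq s (hlt.trans_lt hq'), hs'⟩

theorem main (c : ℚ → K) (rS : K → K → B → B → Prop) (rC : B → B → B → Prop)
    (H : ∀ S : Finset B, S.card ≤ 5 → ∃ g : B → Word c, GE rS rC S g) :
    ∀ (n : ℕ) (W : Finset B), W.card = n → ∀ q₀ : ℚ, ∃ e : B → Word c, GE rS rC W e ∧
      ∀ x ∈ W, ∀ q < q₀, (e x).1 q = c q := by
  intro n
  induction n using Nat.strong_induction_on with
  | _ n ih =>
  intro W hWn q₀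
  by_cases hW : ∃ x ∈ W, ∃ y ∈ W, x ≠ y
  · obtain ⟨x, hx, y₀, hy₀, hxy₀⟩ := hW
    -- the choice of `y`
    obtain ⟨y, hy, hyx, hmin⟩ : ∃ y ∈ W, y ≠ x ∧ ∀ z ∈ W, z ≠ x → ¬ rC z x y := by
      let V := {v : B // v ∈ W ∧ v ≠ x}
      let r : V → V → Prop := fun v' v => rC v'.1 x v.1
      have : Finite V := Finite.of_injective (fun v : V => (⟨v.1, v.2.1⟩ : {v // v ∈ W}))
        (fun a b h => Subtype.ext (congrArg (fun t : {v // v ∈ W} => t.1) h))
      have : Std.Irrefl r := ⟨fun v hv => by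
        obtain ⟨g, hg⟩ := H {x, v.1} ((Finset.card_le_two).trans (by norm_num))
        have h1 := (hg.2.2 v.1 (by simp) x (by simp) v.1 (by simp)).1 hv
        exact not_cc_self _ _ h1⟩
      have : IsTrans V r := ⟨fun a b d hab hbd => by
        obtain ⟨g, hg⟩ := H {x, a.1, b.1, d.1} ((Finset.card_le_four).trans (by norm_num))
        have h1 := (hg.2.2 a.1 (by simp) x (by simp) b.1 (by simp)).1 hab
        have h2 := (hg.2.2 b.1 (by simp) x (by simp) d.1 (by simp)).1 hbd
        exact (hg.2.2 a.1 (by simp) x (by simp) d.1 (by simp)).2 (cc_trans h1 h2)⟩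
      have hwf : WellFounded r := Finite.wellFounded_of_trans_of_irrefl r
      obtain ⟨m, -, hm⟩ := hwf.has_min Set.univ ⟨⟨y₀, hy₀, fun h => hxy₀ h.symm⟩, trivial⟩
      exact ⟨m.1, m.2.1, m.2.2, fun z hz hzx h => hm ⟨z, hz, hzx⟩ trivial h⟩
    -- the letters
    have hletter : ∀ z ∈ W, ∃ a : K, ∀ (S : Finset B) (g : B → Word c), GE rS rC S g → x ∈ S →
        y ∈ S → z ∈ S → ∀ q, Agr (g x) (g y) q → (g x).1 q ≠ (g y).1 q → (g z).1 q = a := by
      intro z hz
      obtain ⟨g₀, hg₀⟩ := H {x, y, z} ((Finset.card_le_three).trans (by norm_num))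
      obtain ⟨p, hp, hp'⟩ := exists_split (u := g₀ x) (v := g₀ y)
        (fun h => hyx (hg₀.1 x (by simp) y (by simp) h).symm)
      refine ⟨(g₀ z).1 p, fun S g hg hxS hyS hzS q hq hq' => ?_⟩
      refine (letter_eq (u := g₀ x) (v := g₀ y) (w := g₀ z) (u' := g x) (v' := g y) (w' := g z)
        hp hp' (agr_of hg₀ (by simp) (by simp) (by simp) (hmin z hz) hp) hq hq'
        (agr_of hg hxS hyS hzS (hmin z hz) hq) ?_ ?_ ?_).symm
      · intro a b
        rw [← hg₀.2.1 x (by simp) y (by simp), ← hg.2.1 x hxS y hyS]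
      · intro a b
        rw [← hg₀.2.1 x (by simp) z (by simp), ← hg.2.1 x hxS z hzS]
      · rw [← hg₀.2.2 y (by simp) x (by simp) z (by simp), ← hg.2.2 y hyS x hxS z hzS]
    have : Nonempty K := ⟨c 0⟩
    choose! h hh using hletter
    have hhxy : h x ≠ h y := by
      obtain ⟨g, hg⟩ := H {x, y} ((Finset.card_le_two).trans (by norm_num))
      obtain ⟨p, hp, hp'⟩ := exists_split (u := g x) (v := g y)
        (fun h => hyx (hg.1 x (by simp) y (by simp) h).symm)
      rw [← hh x hx {x, y} g hg (by simp) (by simp) (by simp) p hp hp',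
        ← hh y hy {x, y} g hg (by simp) (by simp) (by simp) p hp hp']
      exact hp'
    have hlt : ∀ a : K, (W.filter (fun z => h z = a)).card < n := by
      intro a
      rw [← hWn]
      refine Finset.card_lt_card (Finset.filter_ssubset.2 ?_)
      by_cases hxa : h x = a
      · exact ⟨y, hy, fun hya => hhxy (hxa.trans hya.symm)⟩
      · exact ⟨x, hx, hxa⟩
    choose ea hea hea0 using fun a : K => ih _ (hlt a) (W.filter (fun z => h z = a)) rfl (q₀ + 1)
    have hmem : ∀ z ∈ W, z ∈ W.filter (fun z' => h z' = h z) := fun z hz =>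
      Finset.mem_filter.2 ⟨hz, rfl⟩
    let e : B → Word c := fun z => up (ea (h z) z) q₀ (h z)
    have he0 : ∀ z, (e z).1 q₀ = h z := fun z => up_same _ _ _
    have hec : ∀ z ∈ W, ∀ q < q₀, (e z).1 q = c q := by
      intro z hz q hq
      show (up (ea (h z) z) q₀ (h z)).1 q = c q
      rw [up_ne _ _ hq.ne]
      exact hea0 (h z) z (hmem z hz) q (hq.trans (lt_add_one q₀))
    have hea1 : ∀ (a : K), ∀ z ∈ W.filter (fun z' => h z' = a), (ea a z).1 q₀ = c q₀ :=
      fun a z hz => hea0 a z hz q₀ (lt_add_one q₀)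
    have hagr : ∀ z ∈ W, ∀ w ∈ W, Agr (e z) (e w) q₀ := fun z hz w hw q hq =>
      (hec z hz q hq).trans (hec w hw q hq).symm
    -- the embedding of five elements
    have hfive : ∀ z ∈ W, ∀ w ∈ W, ∀ u ∈ W, ∃ (S : Finset B) (g : B → Word c) (p : ℚ),
        GE rS rC S g ∧ z ∈ S ∧ w ∈ S ∧ u ∈ S ∧ Agr (g z) (g w) p ∧ Agr (g z) (g u) p ∧
        (g z).1 p = h z ∧ (g w).1 p = h w ∧ (g u).1 p = h u := by
      intro z hz w hw u hu
      obtain ⟨g, hg⟩ := H {x, y, z, w, u} Finset.card_le_five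
      obtain ⟨p, hp, hp'⟩ := exists_split (u := g x) (v := g y)
        (fun h => hyx (hg.1 x (by simp) y (by simp) h).symm)
      have az := agr_of hg (x := x) (y := y) (z := z) (by simp) (by simp) (by simp) (hmin z hz) hp
      have aw := agr_of hg (x := x) (y := y) (z := w) (by simp) (by simp) (by simp) (hmin w hw) hp
      have au := agr_of hg (x := x) (y := y) (z := u) (by simp) (by simp) (by simp) (hmin u hu) hp
      exact ⟨{x, y, z, w, u}, g, p, hg, by simp, by simp, by simp,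
        fun q hq => ((az q hq).symm).trans (aw q hq), fun q hq => ((az q hq).symm).trans (au q hq),
        hh z hz _ g hg (by simp) (by simp) (by simp) p hp hp',
        hh w hw _ g hg (by simp) (by simp) (by simp) p hp hp',
        hh u hu _ g hg (by simp) (by simp) (by simp) p hp hp'⟩
    refine ⟨e, ⟨?_, ?_, ?_⟩, hec⟩
    · intro z hz w hw hzw
      have h1 : h z = h w := by rw [← he0 z, ← he0 w, hzw]
      have h2 : ea (h z) z = ea (h z) w := by
        refine Subtype.ext (funext fun q => ?_)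
        by_cases hq : q = q₀
        · rw [hq, hea1 _ z (hmem z hz), hea1 _ w (Finset.mem_filter.2 ⟨hw, h1.symm⟩)]
        · have h3 : (e z).1 q = (e w).1 q := by rw [hzw]
          have h4 : (e z).1 q = (ea (h z) z).1 q := up_ne _ _ hq
          have h5 : (e w).1 q = (ea (h w) w).1 q := up_ne _ _ hq
          rw [h4, h5, ← h1] at h3
          exact h3
      exact (hea (h z)).1 z (hmem z hz) w (Finset.mem_filter.2 ⟨hw, h1.symm⟩) h2
    · intro z hz w hw α β
      by_cases h1 : h z = h w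
      · have hw' : w ∈ W.filter (fun z' => h z' = h z) := Finset.mem_filter.2 ⟨hw, h1.symm⟩
        rw [(hea (h z)).2.1 z (hmem z hz) w hw' α β]
        have h2 : e w = up (ea (h z) w) q₀ (h z) := by
          show up (ea (h w) w) q₀ (h w) = _
          rw [h1]
        rw [h2]
        exact (sp_up (by rw [hea1 _ z (hmem z hz), hea1 _ w hw']) _ _ _).symm
      · obtain ⟨S, g, p, hg, zS, wS, -, a1, -, l1, l2, -⟩ := hfive z hz w hw w hw
        rw [hg.2.1 z zS w wS, sp_at a1 (by rw [l1, l2]; exact h1),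
          sp_at (hagr z hz w hw) (by rw [he0, he0]; exact h1), l1, l2, he0, he0]
    · intro z hz w hw u hu
      by_cases h1 : h z = h w ∧ h z = h u
      · have hw' : w ∈ W.filter (fun z' => h z' = h z) := Finset.mem_filter.2 ⟨hw, h1.1.symm⟩
        have hu' : u ∈ W.filter (fun z' => h z' = h z) := Finset.mem_filter.2 ⟨hu, h1.2.symm⟩
        rw [(hea (h z)).2.2 z (hmem z hz) w hw' u hu']
        have h2 : e w = up (ea (h z) w) q₀ (h z) := by
          show up (ea (h w) w) q₀ (h w) = _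
          rw [h1.1]
        have h3 : e u = up (ea (h z) u) q₀ (h z) := by
          show up (ea (h u) u) q₀ (h u) = _
          rw [h1.2]
        rw [h2, h3]
        exact (cc_up (by rw [hea1 _ z (hmem z hz), hea1 _ w hw'])
          (by rw [hea1 _ z (hmem z hz), hea1 _ u hu']) _).symm
      · obtain ⟨S, g, p, hg, zS, wS, uS, a1, a2, l1, l2, l3⟩ := hfive z hz w hw u hu
        rw [hg.2.2 z zS w wS u uS, cc_at a1 a2 (by rw [l1, l2, l3]; exact h1),
          cc_at (hagr z hz w hw) (hagr z hz u hu) (by rw [he0, he0, he0]; exact h1),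
          l1, l2, l3, he0, he0, he0]
  · push Not at hW
    refine ⟨fun _ => ⟨c, by simp⟩, ⟨fun x hx y hy _ => hW x hx y hy, ?_, ?_⟩, fun _ _ _ _ => rfl⟩
    · intro z hz w hw a b
      have := hW z hz w hw
      subst this
      obtain ⟨g, hg⟩ := H {z} (by simp)
      rw [hg.2.1 z (by simp) z (by simp)]
      exact iff_of_false (not_sp_self _ _ _) (not_sp_self _ _ _)
    · intro z hz w hw u hu
      have h1 := hW z hz w hw
      have h2 := hW z hz u hu
      subst h1
      subst h2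
      obtain ⟨g, hg⟩ := H {z} (by simp)
      rw [hg.2.2 z (by simp) z (by simp) z (by simp)]
      exact iff_of_false (not_cc_self _ _) (not_cc_self _ _)

/-! ### finiteness of the set of the obstructions -/

theorem finite_str (σ : Sig) (m : ℕ) : Finite (Str σ (Fin m)) := by
  have : Finite ((R : σ.S) → (Fin (σ.ar R) → Fin m) → Prop) := Pi.finite
  exact Finite.of_injective (fun 𝔄 : Str σ (Fin m) => 𝔄.rel) (by
    rintro ⟨r⟩ ⟨r'⟩ h
    simp only at h
    rw [h])

theorem finite_set (σ : Sig) (n : ℕ) (P : (Σ m : ℕ, Str σ (Fin m)) → Prop) :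
    {X : Σ m : ℕ, Str σ (Fin m) | X.1 ≤ n ∧ P X}.Finite := by
  have h1 : {X : Σ m : ℕ, Str σ (Fin m) | X.1 ≤ n ∧ P X} ⊆
      ⋃ m ∈ Set.Iic n, Set.range
        (fun X : Str σ (Fin m) => (⟨m, X⟩ : Σ m : ℕ, Str σ (Fin m))) := by
    rintro ⟨m, X⟩ ⟨hm, -⟩
    simp only [Set.mem_iUnion]
    exact ⟨m, hm, X, rfl⟩
  refine Set.Finite.subset ?_ h1
  refine Set.Finite.biUnion (Set.finite_Iic n) fun m _ => ?_
  have := finite_str σ m
  exact Set.finite_range _

end XFB

open XFB

theorem FB_pf (hT : S_TYP) : S_FB := by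
  intro σ K _ L c
  let τ := Sig.plus σ K
  let 𝔄 : Str τ (Word c) := L.plus c
  let n : ℕ := 5 + ∑ R : σ.S, σ.ar R
  refine ⟨{X | X.1 ≤ n ∧ ¬ ∃ e, Emb X.2 𝔄 e}, finite_set τ n _, ?_⟩
  intro B _ 𝔅
  constructor
  · rintro ⟨e, he⟩ X ⟨_, hX⟩ ⟨f, hf⟩
    exact hX ⟨fun x => e (f x), he.1.comp hf.1, fun R t => (hf.2 R t).trans (he.2 R _)⟩
  · intro hX
    -- local embeddings
    have hloc : ∀ S : Finset B, S.card ≤ n → ∃ g : B → Word c, (∀ x ∈ S, ∀ y ∈ S, g x = g y → x = y) ∧
        ∀ (R : τ.S) (t : Fin (τ.ar R) → B), (∀ j, t j ∈ S) →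
          (𝔅.rel R t ↔ 𝔄.rel R (fun j => g (t j))) := by
      intro S hS
      let X : Σ m : ℕ, Str τ (Fin m) := ⟨S.card, ⟨fun R t => 𝔅.rel R
        (fun j => ((S.equivFin.symm (t j) : S) : B))⟩⟩
      have h1 : ∃ e, Emb X.2 𝔄 e := by
        by_contra hcon
        refine hX X ⟨hS, hcon⟩ ⟨fun i => ((S.equivFin.symm i : S) : B), ?_, fun R t => Iff.rfl⟩
        intro i j hij
        exact S.equivFin.symm.injective (Subtype.ext hij)
      obtain ⟨e, he⟩ := h1
      refine ⟨fun b => if hb : b ∈ S then e (S.equivFin ⟨b, hb⟩) else ⟨c, by simp⟩, ?_, ?_⟩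
      · intro x hx y hy hxy
        simp only [dif_pos hx, dif_pos hy] at hxy
        have h2 := S.equivFin.injective (he.1 hxy)
        exact congrArg Subtype.val h2
      · intro R t ht
        have h2 := he.2 R (fun j => S.equivFin ⟨t j, ht j⟩)
        have h3 : (fun j => if hb : t j ∈ S then e (S.equivFin ⟨t j, hb⟩) else ⟨c, by simp⟩) =
            fun j => e (S.equivFin ⟨t j, ht j⟩) := by
          funext j
          rw [dif_pos (ht j)]
        rw [h3, ← h2]
        show 𝔅.rel R t ↔ 𝔅.rel R (fun j => ((S.equivFin.symm (S.equivFin ⟨t j, ht j⟩) : S) : B))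
        simp only [Equiv.symm_apply_apply]
    let rS : K → K → B → B → Prop := fun a b x y =>
      𝔅.rel (Sum.inr (Sum.inl (a, b))) (![x, y] : Fin 2 → B)
    let rC : B → B → B → Prop := fun x y z =>
      𝔅.rel (Sum.inr (Sum.inr ())) (![x, y, z] : Fin 3 → B)
    have hGE : ∀ (S : Finset B) (g : B → Word c), (∀ x ∈ S, ∀ y ∈ S, g x = g y → x = y) →
        (∀ (R : τ.S) (t : Fin (τ.ar R) → B), (∀ j, t j ∈ S) →
          (𝔅.rel R t ↔ 𝔄.rel R (fun j => g (t j)))) → GE rS rC S g := by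
      intro S g h1 h2
      refine ⟨h1, ?_, ?_⟩
      · intro x hx y hy a b
        have h3 := h2 (Sum.inr (Sum.inl (a, b))) (![x, y] : Fin 2 → B) (by
          intro j
          change Fin 2 at j
          fin_cases j
          · exact hx
          · exact hy)
        exact h3
      · intro x hx y hy z hz
        have h3 := h2 (Sum.inr (Sum.inr ())) (![x, y, z] : Fin 3 → B) (by
          intro j
          change Fin 3 at j
          fin_cases j
          · exact hx
          · exact hy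
          · exact hz)
        exact h3
    have H : ∀ S : Finset B, S.card ≤ 5 → ∃ g : B → Word c, GE rS rC S g := by
      intro S hS
      obtain ⟨g, h1, h2⟩ := hloc S (hS.trans (Nat.le_add_right _ _))
      exact ⟨g, hGE S g h1 h2⟩
    have := Fintype.ofFinite B
    obtain ⟨e, he, -⟩ := main c rS rC H _ Finset.univ rfl 0
    have hmu : ∀ x : B, x ∈ (Finset.univ : Finset B) := Finset.mem_univ
    refine ⟨e, fun x y hxy => he.1 x (hmu x) y (hmu y) hxy, ?_⟩
    intro R t
    match R, t with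
    | Sum.inr (Sum.inl (a, b)), t =>
      have h1 := he.2.1 (t (0 : Fin 2)) (hmu _) (t (1 : Fin 2)) (hmu _) a b
      have h2 : (![t (0 : Fin 2), t (1 : Fin 2)] : Fin 2 → B) = t := by
        funext j
        fin_cases j <;> rfl
      have h3 : rS a b (t (0 : Fin 2)) (t (1 : Fin 2)) ↔ 𝔅.rel (Sum.inr (Sum.inl (a, b))) t := by
        show 𝔅.rel (Sum.inr (Sum.inl (a, b))) (![t (0 : Fin 2), t (1 : Fin 2)] : Fin 2 → B) ↔ _
        rw [h2]
      exact h3.symm.trans h1
    | Sum.inr (Sum.inr ()), t =>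
      have h1 := he.2.2 (t (0 : Fin 3)) (hmu _) (t (1 : Fin 3)) (hmu _) (t (2 : Fin 3)) (hmu _)
      have h2 : (![t (0 : Fin 3), t (1 : Fin 3), t (2 : Fin 3)] : Fin 3 → B) = t := by
        funext j
        fin_cases j <;> rfl
      have h3 : rC (t (0 : Fin 3)) (t (1 : Fin 3)) (t (2 : Fin 3)) ↔
          𝔅.rel (Sum.inr (Sum.inr ())) t := by
        show 𝔅.rel (Sum.inr (Sum.inr ()))
          (![t (0 : Fin 3), t (1 : Fin 3), t (2 : Fin 3)] : Fin 3 → B) ↔ _
        rw [h2]
      exact h3.symm.trans h1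
    | Sum.inl R, t =>
      let S : Finset B := Finset.univ.image t
      have hS : S.card ≤ n := by
        refine Finset.card_image_le.trans ?_
        rw [Finset.card_univ]
        have h1 : Fintype.card (Fin (τ.ar (Sum.inl R))) = σ.ar R := Fintype.card_fin _
        rw [h1]
        exact (Finset.single_le_sum (f := fun R : σ.S => σ.ar R) (fun _ _ => Nat.zero_le _)
          (Finset.mem_univ R)).trans (Nat.le_add_left _ _)
      obtain ⟨g, h1, h2⟩ := hloc S hS
      have hg := hGE S g h1 h2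
      have htS : ∀ j, t j ∈ S := fun j => Finset.mem_image_of_mem t (Finset.mem_univ j)
      have hsame : SameT (c := c) (r := σ.ar R) (fun j => g (t j)) (fun j => e (t j)) := by
        refine ⟨fun i j => ?_, fun i j a b => ?_, fun i j k => ?_⟩
        · constructor
          · intro h
            exact congrArg e (h1 _ (htS i) _ (htS j) h)
          · intro h
            exact congrArg g (he.1 _ (hmu _) _ (hmu _) h)
        · rw [← hg.2.1 _ (htS i) _ (htS j), ← he.2.1 _ (hmu _) _ (hmu _)]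
        · rw [← hg.2.2 _ (htS i) _ (htS j) _ (htS k), ← he.2.2 _ (hmu _) _ (hmu _) _ (hmu _)]
      have hsame' : SameT (c := c) (r := σ.ar R) (fun j => e (t j)) (fun j => g (t j)) :=
        ⟨fun i j => (hsame.1 i j).symm, fun i j a b => (hsame.2.1 i j a b).symm,
          fun i j k => (hsame.2.2 i j k).symm⟩
      rw [h2 (Sum.inl R) t htS]
      exact ⟨hT σ K L c R _ _ hsame, hT σ K L c R _ _ hsame'⟩

end Pool.Agent.Work.MP_8dbde4_lc.Tree
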