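import Pool.Agent.Work.MP_8dbde4_lc.Tree.StmtsH

/-!
Block Tree of MP_8dbde4_lc, item HOM: homogeneity by back and forth.
-/

set_option autoImplicit false
open Classical

namespace Pool.Agent.Work.MP_8dbde4_lc.Tree

open Pool.Agent.Work.MP_8dbde4_lc.TS

namespace XHOM

variable {K : Type} {c : ℚ → K}

theorem PI_swap {F : Finset (Word c × Word c)} (h : PI c F) : PI c (F.image Prod.swap) := by
  obtain ⟨h1, h2, h3⟩ := h
  refine ⟨?_, ?_, ?_⟩
  · intro p hp q hq
    rw [Finset.mem_image] at hp hq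
    obtain ⟨p', hp', rfl⟩ := hp
    obtain ⟨q', hq', rfl⟩ := hq
    exact (h1 p' hp' q' hq').symm
  · intro p hp q hq a b
    rw [Finset.mem_image] at hp hq
    obtain ⟨p', hp', rfl⟩ := hp
    obtain ⟨q', hq', rfl⟩ := hq
    exact (h2 p' hp' q' hq' a b).symm
  · intro p hp q hq r hr
    rw [Finset.mem_image] at hp hq hr
    obtain ⟨p', hp', rfl⟩ := hp
    obtain ⟨q', hq', rfl⟩ := hq
    obtain ⟨r', hr', rfl⟩ := hr
    exact (h3 p' hp' q' hq' r' hr').symm

theorem swap_swap (F : Finset (Word c × Word c)) : (F.image Prod.swap).image Prod.swap = F := by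
  rw [Finset.image_image]
  ext p
  simp

/-- The finite partial isomorphisms. -/
abbrev PIs (c : ℚ → K) : Type := {F : Finset (Word c × Word c) // PI c F}

theorem ext_left (hO : S_OPE) (hc : DenseW c) (F : PIs c) (x : Word c) :
    ∃ F' : PIs c, F ≤ F' ∧ ∃ y, (x, y) ∈ F'.1 := by
  obtain ⟨y, hy⟩ := hO K c hc F.1 F.2 x
  refine ⟨⟨insert (x, y) F.1, hy⟩, ?_, y, Finset.mem_insert_self _ _⟩
  intro p hp
  exact Finset.mem_insert_of_mem hp

theorem ext_right (hO : S_OPE) (hc : DenseW c) (F : PIs c) (y : Word c) :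
    ∃ F' : PIs c, F ≤ F' ∧ ∃ x, (x, y) ∈ F'.1 := by
  obtain ⟨F', hF, x, hx⟩ := ext_left hO hc ⟨F.1.image Prod.swap, PI_swap F.2⟩ y
  refine ⟨⟨F'.1.image Prod.swap, PI_swap F'.2⟩, ?_, x, ?_⟩
  · intro p hp
    have h1 : p.swap ∈ F'.1 := hF (Finset.mem_image_of_mem _ hp)
    have h2 := Finset.mem_image_of_mem Prod.swap h1
    rwa [Prod.swap_swap] at h2
  · exact Finset.mem_image_of_mem Prod.swap hx

/-- Back and forth. -/
theorem bf (hO : S_OPE) (hc : DenseW c) (hK : Countable (Word c)) (F₀ : PIs c) :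
    ∃ g : Word c ≃ Word c, (∀ p ∈ F₀.1, g p.1 = p.2) ∧
      ∀ T : Finset (Word c), PI c (T.image (fun x => (x, g x))) := by
  have := Encodable.ofCountable (Word c ⊕ Word c)
  let 𝒟 : (Word c ⊕ Word c) → Order.Cofinal (PIs c) := fun z =>
    match z with
    | .inl x => ⟨{F | ∃ y, (x, y) ∈ F.1}, fun F => by
        obtain ⟨F', h1, h2⟩ := ext_left hO hc F x
        exact ⟨F', h2, h1⟩⟩
    | .inr y => ⟨{F | ∃ x, (x, y) ∈ F.1}, fun F => by
        obtain ⟨F', h1, h2⟩ := ext_right hO hc F y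
        exact ⟨F', h2, h1⟩⟩
  let I := Order.idealOfCofinals F₀ 𝒟
  have hI0 : F₀ ∈ I := Order.mem_idealOfCofinals F₀ 𝒟
  have hdir : ∀ F ∈ I, ∀ F' ∈ I, ∃ F'' ∈ I, F ≤ F'' ∧ F' ≤ F'' := fun F hF F' hF' =>
    I.directed F hF F' hF'
  have hl : ∀ x : Word c, ∃ y, ∃ F ∈ I, (x, y) ∈ F.1 := by
    intro x
    obtain ⟨F, h1, h2⟩ := Order.cofinal_meets_idealOfCofinals F₀ 𝒟 (Sum.inl x)
    obtain ⟨y, hy⟩ := h1
    exact ⟨y, F, h2, hy⟩
  have hr : ∀ y : Word c, ∃ x, ∃ F ∈ I, (x, y) ∈ F.1 := by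
    intro y
    obtain ⟨F, h1, h2⟩ := Order.cofinal_meets_idealOfCofinals F₀ 𝒟 (Sum.inr y)
    obtain ⟨x, hx⟩ := h1
    exact ⟨x, F, h2, hx⟩
  have huniq : ∀ p q : Word c × Word c, (∃ F ∈ I, p ∈ F.1) → (∃ F ∈ I, q ∈ F.1) →
      (p.1 = q.1 ↔ p.2 = q.2) := by
    rintro p q ⟨F, hF, hp⟩ ⟨F', hF', hq⟩
    obtain ⟨F'', _, h1, h2⟩ := hdir F hF F' hF'
    exact F''.2.1 p (h1 hp) q (h2 hq)
  choose g hg using hl
  choose g' hg' using hr
  refine ⟨⟨g, g', ?_, ?_⟩, ?_, ?_⟩
  · intro x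
    exact ((huniq (g' (g x), g x) (x, g x) (hg' (g x)) (hg x)).2 rfl)
  · intro y
    exact ((huniq (g' y, g (g' y)) (g' y, y) (hg (g' y)) (hg' y)).1 rfl)
  · intro p hp
    exact ((huniq (p.1, g p.1) p (hg p.1) ⟨F₀, hI0, hp⟩).1 rfl)
  · intro T
    have hT : ∃ F ∈ I, T.image (fun x => (x, g x)) ⊆ F.1 := by
      induction T using Finset.induction_on with
      | empty => exact ⟨F₀, hI0, by simp⟩
      | insert x T _ ih =>
        obtain ⟨F, hF, hT⟩ := ih
        obtain ⟨F', hF', hx⟩ := hg x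
        obtain ⟨F'', hF'', h1, h2⟩ := hdir F hF F' hF'
        refine ⟨F'', hF'', ?_⟩
        rw [Finset.image_insert]
        intro p hp
        rw [Finset.mem_insert] at hp
        rcases hp with rfl | hp
        · exact h2 hx
        · exact h1 (hT hp)
    obtain ⟨F, _, hT⟩ := hT
    refine ⟨fun p hp q hq => F.2.1 p (hT hp) q (hT hq),
      fun p hp q hq a b => F.2.2.1 p (hT hp) q (hT hq) a b,
      fun p hp q hq r hr => F.2.2.2 p (hT hp) q (hT hq) r (hT hr)⟩

end XHOM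

open XHOM in
/-- Homogeneity by back and forth. -/
theorem HOM_pf (h1 : S_TYP) (h2 : S_OPE) (h3 : S_CTB) : S_HOM := by
  intro σ K _ L c hc S f hf hR
  have hF : PI c (S.image (fun x => (x, f x))) := by
    refine ⟨?_, ?_, ?_⟩
    · intro p hp q hq
      rw [Finset.mem_image] at hp hq
      obtain ⟨x, hx, rfl⟩ := hp
      obtain ⟨y, hy, rfl⟩ := hq
      exact ⟨fun h => congrArg f h, fun h => hf hx hy h⟩
    · intro p hp q hq a b
      rw [Finset.mem_image] at hp hq
      obtain ⟨x, hx, rfl⟩ := hp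
      obtain ⟨y, hy, rfl⟩ := hq
      have h := hR (Sum.inr (Sum.inl (a, b))) (![x, y] : Fin 2 → Word c) (by
        intro j
        change Fin 2 at j
        fin_cases j
        · exact hx
        · exact hy)
      exact h
    · intro p hp q hq r hr
      rw [Finset.mem_image] at hp hq hr
      obtain ⟨x, hx, rfl⟩ := hp
      obtain ⟨y, hy, rfl⟩ := hq
      obtain ⟨z, hz, rfl⟩ := hr
      have h := hR (Sum.inr (Sum.inr ())) (![x, y, z] : Fin 3 → Word c) (by
        intro j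
        change Fin 3 at j
        fin_cases j
        · exact hx
        · exact hy
        · exact hz)
      exact h
  obtain ⟨g, hg1, hg2⟩ := bf h2 hc (h3 K c) ⟨_, hF⟩
  have hSp : ∀ (a b : K) (x y : Word c), Sp a b x y ↔ Sp a b (g x) (g y) := by
    intro a b x y
    have h := (hg2 {x, y}).2.1 (x, g x) (Finset.mem_image_of_mem _ (by simp)) (y, g y)
      (Finset.mem_image_of_mem _ (by simp)) a b
    exact h
  have hCc : ∀ (x y z : Word c), Cc x y z ↔ Cc (g x) (g y) (g z) := by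
    intro x y z
    have h := (hg2 {x, y, z}).2.2 (x, g x) (Finset.mem_image_of_mem _ (by simp)) (y, g y)
      (Finset.mem_image_of_mem _ (by simp)) (z, g z) (Finset.mem_image_of_mem _ (by simp))
    exact h
  refine ⟨g, ?_, ?_⟩
  · intro R t
    match R, t with
    | .inl R, t =>
      constructor
      · intro h
        exact h1 σ K L c R t (fun j => g (t j))
          ⟨fun i j => g.injective.eq_iff.symm, fun i j a b => hSp a b _ _,
            fun i j k => hCc _ _ _⟩ h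
      · intro h
        exact h1 σ K L c R (fun j => g (t j)) t
          ⟨fun i j => g.injective.eq_iff, fun i j a b => (hSp a b _ _).symm,
            fun i j k => (hCc _ _ _).symm⟩ h
    | .inr (.inl p), t => exact hSp p.1 p.2 _ _
    | .inr (.inr _), t => exact hCc _ _ _
  · intro x hx
    exact hg1 (x, f x) (Finset.mem_image_of_mem _ hx)

end Pool.Agent.Work.MP_8dbde4_lc.Tree
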