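import Pool.Agent.Work.MP_8dbde4_lc.Tree.Stmts

/-!
Item J1 of the block Tree of MP_8dbde4_lc: all steps of `J_1` are constant.
-/

set_option autoImplicit false
open Classical

namespace Pool.Agent.Work.MP_8dbde4_lc.Tree

open Pool.Agent.Work.MP_8dbde4_lc.TS

namespace XJ1

variable {σ : Sig} {K : Type}

/-- A step is constant on the ties. -/
theorem tie (L : Lang σ K) (C : σ.S) (U : Set K) {G : Type} [Group G] (g h : G) {p : ℕ}
    {I : Type} (D : Gad U p I) (b : ZMod p) (hC : IsSplit L C) (F : El σ U G p I → K)
    (hF : IsStep L (JJ L C U g h D b) Set.univ F) (a w : El σ U G p I) (hT : Tie D g h b a w) :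
    F a = F w := by
  have h1 := hF C (trip (anch w) a w) (Or.inr ⟨rfl, a, w, hT, rfl⟩) (fun _ => Set.mem_univ _)
  obtain ⟨har, -, hP⟩ := hC
  rw [hP] at h1
  have h2 := h1 ⟨1, by omega⟩ ⟨2, by omega⟩ rfl rfl
  simpa [trip] using h2

/-- A step is a polymorphism on each copy of the power. -/
theorem pol (L : Lang σ K) (C : σ.S) (U : Set K) {G : Type} [Group G] (g h : G) {p : ℕ}
    {I : Type} (D : Gad U p I) (b : ZMod p) (hC : IsSplit L C) (F : El σ U G p I → K)
    (hF : IsStep L (JJ L C U g h D b) Set.univ F) (v : G) (α β : ZMod p) (R : σ.S)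
    (hR : Live L R) (t : Fin (σ.ar R) → I → U) (ht : ∀ i, L.P R (fun j => (t j i : K))) :
    L.P R (fun j => F (.site v α β (t j))) := by
  have h1 := hF R (fun j => El.fresh v α β R t j) (Or.inl ⟨hR, v, α, β, t, ht, rfl⟩)
    (fun _ => Set.mem_univ _)
  have h2 : (fun j => F (.site v α β (t j))) = fun j => F (El.fresh v α β R t j) := by
    funext j
    exact (tie L C U g h D b hC F hF _ _ (Tie.f v α β R t j)).symm
  rw [h2]
  exact h1

/-- A function on a finite power which does not depend on any coordinate is constant. -/
theorem const_of_update {I A B : Type} [Finite I] (f : (I → A) → B)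
    (h : ∀ (x : I → A) (i : I) (a b : A), f (Function.update x i a) = f (Function.update x i b))
    (x y : I → A) : f x = f y := by
  have := Fintype.ofFinite I
  have key : ∀ S : Finset I, f (fun i => if i ∈ S then y i else x i) = f x := by
    intro S
    induction S using Finset.induction_on with
    | empty => simp
    | insert i S hi ih =>
      rw [← ih]
      have e1 : (fun j => if j ∈ insert i S then y j else x j) =
          Function.update (fun j => if j ∈ S then y j else x j) i (y i) := by
        funext j
        by_cases hj : j = i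
        · subst hj
          simp
        · simp [hj]
      have e2 : (fun j => if j ∈ S then y j else x j) =
          Function.update (fun j => if j ∈ S then y j else x j) i (x i) := by
        funext j
        by_cases hj : j = i
        · subst hj
          simp [hi]
        · simp [hj]
      rw [e1]
      conv_rhs => rw [e2]
      exact h _ _ _ _
  have h1 := key Finset.univ
  simp only [Finset.mem_univ, if_true] at h1
  exact h1.symm

end XJ1

open XJ1

theorem J1_pf : S_J1 := by
  intro σ K L C U V G _ _ g h p I _ D hC hCl hG hD F hF hV hUV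
  have hfresh : ∀ (v : G) (α β : ZMod p) (R : σ.S) (t : Fin (σ.ar R) → I → U) (j : Fin (σ.ar R)),
      F (.fresh v α β R t j) = F (.site v α β (t j)) := fun v α β R t j =>
    tie L C U g h D 1 hC F hF _ _ (Tie.f v α β R t j)
  have hu : ∀ (v : G) (α β s : ZMod p), F (.site v α β (D.u s)) = F (.main 1 s) := fun v α β s =>
    tie L C U g h D 1 hC F hF _ _ (Tie.u v α β s)
  have hx : ∀ (v : G) (α β s : ZMod p), F (.site v α β (D.x s)) = F (.main v (s + α)) :=
    fun v α β s => tie L C U g h D 1 hC F hF _ _ (Tie.x v α β s)
  have hy : ∀ (v : G) (α β s : ZMod p), F (.site v α β (D.y s)) = F (.main (v * g) (s + β)) :=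
    fun v α β s => tie L C U g h D 1 hC F hF _ _ (Tie.y v α β s)
  have hz : ∀ (v : G) (α β s : ZMod p),
      F (.site v α β (D.z s)) = F (.main (v * h) (s + α + β - 1)) :=
    fun v α β s => tie L C U g h D 1 hC F hF _ _ (Tie.z v α β s)
  rcases hUV with rfl | hk
  · obtain ⟨c, hc1, hc2⟩ := hD.uns G g h hG (fun v s => ⟨F (.main v s), hV _⟩)
      (fun v α β t => ⟨F (.site v α β t), hV _⟩)
      (fun v α β R t ht hR => pol L C V g h D 1 hC F hF v α β R hR t (fun i => ht i hR))
      (fun v α β s => ⟨Subtype.ext (hu v α β s), Subtype.ext (hx v α β s),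
        Subtype.ext (hy v α β s), Subtype.ext (hz v α β s)⟩)
    refine ⟨(c : K), fun e => ?_⟩
    cases e with
    | main v s => exact congrArg Subtype.val (hc1 v s)
    | site v α β t => exact congrArg Subtype.val (hc2 v α β t)
    | fresh v α β R t j =>
      rw [hfresh]
      exact congrArg Subtype.val (hc2 v α β (t j))
  · have hsite : ∀ (v : G) (α β : ZMod p) (x y : I → U),
        F (.site v α β x) = F (.site v α β y) := by
      intro v α β x y
      refine const_of_update (fun t => F (.site v α β t)) ?_ x y
      intro x i a b
      obtain ⟨c, hc⟩ := hk (fun a => ⟨F (.site v α β (Function.update x i a)), hV _⟩) (by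
        intro R q hq hR
        refine pol L C U g h D 1 hC F hF v α β R hR (fun j => Function.update x i (q j)) ?_
        intro i'
        by_cases hi : i' = i
        · subst hi
          simpa using hq hR
        · simp only [Function.update_of_ne hi]
          exact L.const R _)
      exact (congrArg Subtype.val (hc a)).trans (congrArg Subtype.val (hc b)).symm
    have hs : ∀ (v : G) (α β : ZMod p) (t : I → U), F (.site v α β t) = F (.main 1 0) := by
      intro v α β t
      rw [hsite v α β t (D.u 0), hu]
    refine ⟨F (.main 1 0), fun e => ?_⟩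
    cases e with
    | main v s =>
      have h1 := hx v s 0 0
      rw [zero_add, hs] at h1
      exact h1.symm
    | site v α β t => exact hs v α β t
    | fresh v α β R t j => rw [hfresh, hs]

end Pool.Agent.Work.MP_8dbde4_lc.Tree
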