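import Pool.Agent.Work.MP_8dbde4_lc.Tree.Stmts

set_option autoImplicit false

open Classical

namespace Pool.Agent.Work.MP_8dbde4_lc.Tree

open Pool.Agent.Work.MP_8dbde4_lc.TS

namespace XRES1

variable {K : Type} {c : ℚ → K}

/-- two words differ in finitely many places -/
lemma diff_finite (x y : Word c) : {q | x.1 q ≠ y.1 q}.Finite := by
  refine (x.2.union y.2).subset ?_
  intro q hq
  by_contra h
  simp only [Set.mem_union, Set.mem_setOf_eq, not_or, not_not] at h
  exact hq (by rw [h.1, h.2])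

/-- the first place where a finite family of words, not all equal, splits -/
lemma first_place {A : Type} [Finite A] (f : A → Word c) (W : Set A)
    (h : ∃ x ∈ W, ∃ y ∈ W, f x ≠ f y) :
    ∃ q : ℚ, (∀ q' < q, ∀ x ∈ W, ∀ y ∈ W, (f x).1 q' = (f y).1 q') ∧
      ∃ x ∈ W, ∃ y ∈ W, (f x).1 q ≠ (f y).1 q := by
  set D : Set ℚ := {q | ∃ x ∈ W, ∃ y ∈ W, (f x).1 q ≠ (f y).1 q} with hD
  have hfin : D.Finite := by
    have h1 : (⋃ p : A × A, {q | (f p.1).1 q ≠ (f p.2).1 q}).Finite :=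
      Set.finite_iUnion fun p => diff_finite _ _
    refine h1.subset ?_
    rintro q ⟨x, _, y, _, hxy⟩
    exact Set.mem_iUnion.2 ⟨(x, y), hxy⟩
  have hne : D.Nonempty := by
    obtain ⟨x, hx, y, hy, hxy⟩ := h
    by_contra hcon
    apply hxy
    apply Subtype.ext
    funext q
    by_contra hq
    exact hcon ⟨q, x, hx, y, hy, hq⟩
  obtain ⟨q, hq, hmin⟩ := Set.exists_min_image D id hfin hne
  refine ⟨q, ?_, hq⟩
  intro q' hq' x hx y hy
  by_contra hcon
  exact absurd (hmin q' ⟨x, hx, y, hy, hcon⟩) (not_le.2 hq')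

end XRES1

open XRES1 in
/-- a solution gives the combinatorial form -/
theorem RES1_pf : S_RES1 := by
  intro σ K L c A _ 𝔄 hC W hW
  obtain ⟨f, hf⟩ := hC
  obtain ⟨R, t, hR, ht, htW⟩ := hW
  have hne : ∃ x ∈ W, ∃ y ∈ W, f x ≠ f y := by
    obtain ⟨i, j, hij⟩ := (hf R t ht).2 hR
    exact ⟨t i, htW i, t j, htW j, hij⟩
  obtain ⟨q, hq, x, hx, y, hy, hxy⟩ := first_place f W hne
  refine ⟨fun a => (f a).1 q, ?_, x, hx, y, hy, hxy⟩
  intro R' t' ht' htW'
  by_cases hs : ∃ i j, (f (t' i)).1 q ≠ (f (t' j)).1 q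
  · refine (hf R' t' ht').1 q ⟨?_, hs⟩
    intro q' hq' i j
    exact hq q' hq' _ (htW' i) _ (htW' j)
  · push_neg at hs
    by_cases hn : Nonempty (Fin (σ.ar R'))
    · obtain ⟨i0⟩ := hn
      have : (fun j => (f (t' j)).1 q) = fun _ => (f (t' i0)).1 q := by
        funext j
        exact hs j i0
      rw [this]
      exact L.const R' _
    · have : (fun j => (f (t' j)).1 q) = fun _ => (f x).1 q := by
        funext j
        exact (hn ⟨j⟩).elim
      rw [this]
      exact L.const R' _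

end Pool.Agent.Work.MP_8dbde4_lc.Tree
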