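import Pool.Agent.Work.MP_8dbde4_lc.Tree.StmtsH

/-!
Block Tree of MP_8dbde4_lc, item TYP: first-split relations depend only on the splits.
-/

set_option autoImplicit false
open Classical

namespace Pool.Agent.Work.MP_8dbde4_lc.Tree

open Pool.Agent.Work.MP_8dbde4_lc.TS

namespace XTYP

variable {K : Type} {c : ℚ → K}

theorem uniq {x y : Word c} {q₁ q₂ : ℚ} (h₁ : Agr x y q₁) (h₁' : x.1 q₁ ≠ y.1 q₁)
    (h₂ : Agr x y q₂) (h₂' : x.1 q₂ ≠ y.1 q₂) : q₁ = q₂ := by
  rcases lt_trichotomy q₁ q₂ with h | h | h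
  · exact absurd (h₂ _ h) h₁'
  · exact h
  · exact absurd (h₁ _ h) h₂'

theorem symm {r : ℕ} {v w : Fin r → Word c} (h : SameT v w) : SameT w v :=
  ⟨fun i j => (h.1 i j).symm, fun i j a b => (h.2.1 i j a b).symm,
    fun i j k => (h.2.2 i j k).symm⟩

/-- The first split of `v` is transported to the first split of `w`. -/
theorem first {r : ℕ} {v w : Fin r → Word c} (h : SameT v w) {q : ℚ} (hq : FirstSplit v q) :
    ∃ q', FirstSplit w q' ∧ ∀ k, (w k).1 q' = (v k).1 q := by
  obtain ⟨ha, i, j, hij⟩ := hq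
  have hA : ∀ a b, Agr (v a) (v b) q := fun a b q' hq' => ha q' hq' a b
  obtain ⟨q', hq', hi, hj, _⟩ := (h.2.1 i j ((v i).1 q) ((v j).1 q)).1
    ⟨q, hA i j, rfl, rfl, hij⟩
  have hne : (w i).1 q' ≠ (w j).1 q' := by rw [hi, hj]; exact hij
  have key : ∀ k, Agr (w i) (w k) q' ∧ (w k).1 q' = (v k).1 q := by
    intro k
    by_cases h1 : (v k).1 q = (v i).1 q
    · obtain ⟨s, s1, s2, s3, s4⟩ := (h.2.2 j i k).1
        ⟨q, hA j i, hA j k, h1.symm, fun e => hij e.symm⟩
      have e : s = q' := uniq s1 s4 (fun p hp => (hq' p hp).symm) (fun e => hne e.symm)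
      subst e
      exact ⟨fun p hp => (hq' p hp).trans (s2 p hp), by rw [← s3, hi, h1]⟩
    · by_cases h2 : (v k).1 q = (v j).1 q
      · obtain ⟨s, s1, s2, s3, s4⟩ := (h.2.2 i j k).1
          ⟨q, hA i j, hA i k, h2.symm, hij⟩
        have e : s = q' := uniq s1 s4 hq' hne
        subst e
        exact ⟨s2, by rw [← s3, hj, h2]⟩
      · obtain ⟨s, s1, s2, s3, s4⟩ := (h.2.1 i k ((v i).1 q) ((v k).1 q)).1
          ⟨q, hA i k, rfl, rfl, fun e => h1 e.symm⟩
        obtain ⟨t, t1, t2, t3, t4⟩ := (h.2.1 j k ((v j).1 q) ((v k).1 q)).1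
          ⟨q, hA j k, rfl, rfl, fun e => h2 e.symm⟩
        have e : s = q' := by
          rcases lt_trichotomy s q' with hs | hs | hs
          · have hjs : (w j).1 s = (v i).1 q := by rw [← hq' s hs, s2]
            have e : s = t := uniq (fun p hp => ((hq' p (hp.trans hs)).symm).trans (s1 p hp))
              (by rw [hjs, s3]; exact fun e => h1 e.symm) t1
              (by rw [t2, t3]; exact fun e => h2 e.symm)
            subst e
            exact absurd (hjs.symm.trans t2) hij
          · exact hs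
          · have hks : (w k).1 q' = (v i).1 q := by rw [← s1 q' hs, hi]
            have e : q' = t := uniq (fun p hp => ((hq' p hp).symm).trans (s1 p (hp.trans hs)))
              (by rw [hj, hks]; exact fun e => hij e.symm) t1
              (by rw [t2, t3]; exact fun e => h2 e.symm)
            subst e
            exact absurd (t3.symm.trans hks) h1
        subst e
        exact ⟨s1, s3⟩
  exact ⟨q', ⟨fun p hp a b => ((key a).1 p hp).symm.trans ((key b).1 p hp), i, j, hne⟩,
    fun k => (key k).2⟩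

end XTYP

theorem TYP_pf : S_TYP := by
  intro σ K L c R v w h hv
  refine ⟨fun q hq => ?_, fun hs => ?_⟩
  · obtain ⟨q', hq', h'⟩ := XTYP.first (XTYP.symm h) hq
    have := hv.1 q' hq'
    simpa only [h'] using this
  · obtain ⟨i, j, hij⟩ := hv.2 hs
    exact ⟨i, j, fun e => hij ((h.1 i j).2 e)⟩

end Pool.Agent.Work.MP_8dbde4_lc.Tree
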