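import Pool.Agent.Work.MP_8dbde4_lc.Tree.Stmts

/-! Item AFF of the block Tree: the affine case. -/

set_option autoImplicit false
open Classical

namespace Pool.Agent.Work.MP_8dbde4_lc.Tree

open Pool.Agent.Work.MP_8dbde4_lc.TS

namespace XAFF

variable {M : Type}

/-- The abelian group of a commuting Maltsev operation. -/
theorem group_of (m : M → M → M → M) (o : M) (h1 : ∀ x z, m x x z = z) (h2 : ∀ x z, m x z z = x)
    (hc : ∀ x0 y0 z0 x1 y1 z1 x2 y2 z2 : M, m (m x0 y0 z0) (m x1 y1 z1) (m x2 y2 z2) =
      m (m x0 x1 x2) (m y0 y1 y2) (m z0 z1 z2)) :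
    ∃ (_ : AddCommGroup M), (0 : M) = o ∧ ∀ x y z : M, m x y z = x - y + z := by
  have hassoc : ∀ x y z : M, m (m x o y) o z = m x o (m y o z) := by
    intro x y z
    have := hc x o y o o o o o z
    simpa [h1, h2] using this
  have hcomm : ∀ x y : M, m x o y = m y o x := by
    intro x y
    have := hc o o x o o o y o o
    simpa [h1, h2] using this
  have hneg : ∀ x : M, m (m o x o) o x = o := by
    intro x
    have := hc o x o o o o o o x
    simpa [h1, h2] using this
  have hnz : ∀ y z : M, m (m o y o) o z = m o y z := by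
    intro y z
    have := hc o y o o o o o o z
    simpa [h1, h2] using this
  have hm : ∀ x y z : M, m x o (m o y z) = m x y z := by
    intro x y z
    have := hc x o o o o o o y z
    simpa [h1, h2] using this
  let _ : Zero M := ⟨o⟩
  let _ : Add M := ⟨fun x y => m x o y⟩
  let _ : Neg M := ⟨fun x => m o x o⟩
  let G : AddCommGroup M :=
    { add := fun x y => m x o y
      add_assoc := fun x y z => hassoc x y z
      zero := o
      zero_add := fun x => h1 o x
      add_zero := fun x => h2 x o
      nsmul := nsmulRec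
      neg := fun x => m o x o
      zsmul := zsmulRec
      neg_add_cancel := fun x => hneg x
      add_comm := fun x y => hcomm x y }
  refine ⟨G, rfl, fun x y z => ?_⟩
  have e1 : x - y + z = m (m x o (m o y o)) o z := rfl
  rw [e1, hassoc, hnz, hm]

end XAFF

open XAFF

/-- **Item AFF.** -/
theorem AFF_pf (hMALT : S_MALT) (hCOMM : S_COMM) : S_AFF := by
  intro σ M _ F hmin hTP hdep
  obtain ⟨m, hm, h1, h2⟩ := hMALT σ M F hTP hdep
  have hcomm := hCOMM σ M F m hTP hm h1 h2
  have hmPol : F.Pol (I := Fin 3) (fun t => m (t 0) (t 1) (t 2)) := by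
    intro R t ht
    exact hm R _ _ _ (ht 0) (ht 1) (ht 2)
  have hc : ∀ x0 y0 z0 x1 y1 z1 x2 y2 z2 : M, m (m x0 y0 z0) (m x1 y1 z1) (m x2 y2 z2) =
      m (m x0 x1 x2) (m y0 y1 y2) (m z0 z1 z2) := by
    intro x0 y0 z0 x1 y1 z1 x2 y2 z2
    have := hcomm (Fin 3) _ hmPol ![x0, x1, x2] ![y0, y1, y2] ![z0, z1, z2]
    simpa using this
  obtain ⟨⟨a, b, hab⟩, hend⟩ := hmin
  obtain ⟨G, hG0, hG⟩ := group_of m a h1 h2 hc
  have hPol3 : Pol3 F (fun x y z => x - y + z) := by
    intro R p q r hp hq hr
    have := hm R p q r hp hq hr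
    have e : (fun j => m (p j) (q j) (r j)) = fun j => p j - q j + r j := by
      funext j
      exact hG _ _ _
    rw [e] at this
    exact this
  have hnsmul : ∀ (n : ℕ) (R : σ.S) (q : Fin (σ.ar R) → M), F.P R q →
      F.P R (fun j => n • q j) := by
    intro n R q hq
    induction n with
    | zero =>
      have e : (fun j => (0 : ℕ) • q j) = fun _ => (0 : M) := by
        funext j
        exact zero_smul ℕ _
      rw [e]
      exact F.const R 0
    | succ n ih =>
      have := hPol3 R _ _ _ ih (F.const R 0) hq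
      have e : (fun j => (n + 1) • q j) = fun j => n • q j - 0 + q j := by
        funext j
        rw [succ_nsmul, sub_zero]
      rw [e]
      exact this
  -- the prime
  have : Nontrivial M := ⟨a, b, hab⟩
  have hcard : Nat.card M ≠ 1 := by
    have := Finite.one_lt_card (α := M)
    omega
  obtain ⟨p, hp, hpd⟩ := Nat.exists_prime_and_dvd hcard
  have : Fact p.Prime := ⟨hp⟩
  obtain ⟨y, hy⟩ := exists_prime_addOrderOf_dvd_card' p hpd
  have hpy : p • y = 0 := by
    rw [← hy]
    exact addOrderOf_nsmul_eq_zero y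
  have hy0 : y ≠ 0 := by
    rintro rfl
    rw [addOrderOf_zero] at hy
    exact hp.one_lt.ne hy
  have hexp : ∀ x : M, p • x = 0 := by
    rcases hend (fun x => p • x) (fun R q hq => hnsmul p R q hq) with hinj | ⟨c, hconst⟩
    · exfalso
      apply hy0
      apply hinj
      show p • y = p • (0 : M)
      rw [hpy, smul_zero]
    · intro x
      have e1 := hconst x
      have e2 := hconst 0
      simp only [smul_zero] at e2
      rw [e2]
      exact e1
  refine ⟨G, p, hp, hexp, hPol3, ?_⟩
  intro I _ f hf x y z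
  have := hcomm I f hf x y z
  have e : (fun i => m (x i) (y i) (z i)) = x - y + z := by
    funext i
    exact hG _ _ _
  rw [e, hG] at this
  exact this

end Pool.Agent.Work.MP_8dbde4_lc.Tree
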