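import Pool.Agent.Work.MP_8dbde4_lc.Tree.Stmts

/-!
Item CLO of the block Tree: closures of small sets are small.
-/

set_option autoImplicit false
open Classical

namespace Pool.Agent.Work.MP_8dbde4_lc.Tree

namespace XCLO

variable {V : Type} [Fintype V]

lemma mem_cl (E : V → Finset V) (P : Finset V) (x : V) :
    x ∈ cl E P ↔ ∀ T, P ⊆ T → Closed E T → x ∈ T := by
  simp [cl]

lemma subset_cl (E : V → Finset V) (P : Finset V) : P ⊆ cl E P := by
  intro x hx
  rw [mem_cl]
  intro T hT _
  exact hT hx

lemma cl_subset (E : V → Finset V) (P T : Finset V) (h1 : P ⊆ T) (h2 : Closed E T) :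
    cl E P ⊆ T := by
  intro x hx
  rw [mem_cl] at hx
  exact hx T h1 h2

lemma closed_cl (E : V → Finset V) (P : Finset V) : Closed E (cl E P) := by
  intro v hv x hx
  rw [mem_cl]
  intro T h1 h2
  have h3 : 2 ≤ (E v ∩ T).card :=
    hv.trans (Finset.card_le_card (Finset.inter_subset_inter (Finset.Subset.refl _)
      (cl_subset E P T h1 h2)))
  exact h2 v h3 hx

/-- The rows inside a set. -/
noncomputable def rws (E : V → Finset V) (T : Finset V) : Finset V :=
  Finset.univ.filter (fun v => E v ⊆ T)

lemma mem_rws (E : V → Finset V) (T : Finset V) (v : V) : v ∈ rws E T ↔ E v ⊆ T := by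
  simp [rws]

/-- Density bounds the rows inside a set. -/
lemma rws_lt (E : V → Finset V) (N m : ℕ) (T : Finset V) (hD : Den E N) (hm : m + 1 ≤ N)
    (hT : T.card ≤ 2 * m + 2) : (rws E T).card ≤ m := by
  by_contra hc
  have h1 : m + 1 ≤ (rws E T).card := by omega
  obtain ⟨Y, hY, hYc⟩ := Finset.exists_subset_card_eq h1
  have h2 : Y.Nonempty := by
    rw [← Finset.card_pos]
    omega
  have h3 := hD Y h2 (by omega)
  have h4 : Y.biUnion E ⊆ T := by
    intro x hx
    rw [Finset.mem_biUnion] at hx
    obtain ⟨v, hv, hxv⟩ := hx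
    exact (mem_rws E T v).mp (hY hv) hxv
  have h5 := Finset.card_le_card h4
  omega

lemma card_cl (E : V → Finset V) (N : ℕ) (P : Finset V) (h3 : ∀ v, (E v).card = 3)
    (hD : Den E N) (hP : P.card + 1 ≤ N) : (cl E P).card ≤ 2 * P.card := by
  let S : Finset (Finset V) := Finset.univ.filter (fun T => P ⊆ T ∧
    T.card ≤ P.card + (rws E T).card ∧ T.card ≤ 2 * P.card)
  have hS : ∀ T, T ∈ S ↔ P ⊆ T ∧ T.card ≤ P.card + (rws E T).card ∧ T.card ≤ 2 * P.card := by
    intro T
    simp [S]
  have hne : S.Nonempty := ⟨P, (hS P).mpr ⟨Finset.Subset.refl _, by omega, by omega⟩⟩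
  obtain ⟨T, hT, hmax⟩ := Finset.exists_max_image S Finset.card hne
  obtain ⟨hPT, hT1, hT2⟩ := (hS T).mp hT
  have hcl : Closed E T := by
    intro v hv
    by_contra hn
    have h4 : (E v ∩ T).card < 3 := by
      rw [← h3 v]
      apply Finset.card_lt_card
      rw [Finset.ssubset_iff_subset_ne]
      refine ⟨Finset.inter_subset_left, ?_⟩
      intro he
      exact hn (Finset.inter_eq_left.mp he)
    have h5 : (E v ∩ T).card = 2 := by omega
    have h6 : (E v ∪ T).card + (E v ∩ T).card = (E v).card + T.card :=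
      Finset.card_union_add_card_inter _ _
    have h7 : (E v ∪ T).card = T.card + 1 := by
      have := h3 v
      omega
    have h8 : (rws E T).card + 1 ≤ (rws E (E v ∪ T)).card := by
      have h9 : v ∉ rws E T := fun h => hn ((mem_rws E T v).mp h)
      rw [← Finset.card_insert_of_notMem h9]
      apply Finset.card_le_card
      intro x hx
      rw [Finset.mem_insert] at hx
      rw [mem_rws]
      rcases hx with hx | hx
      · rw [hx]
        exact Finset.subset_union_left
      · exact ((mem_rws E T x).mp hx).trans Finset.subset_union_right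
    by_cases h10 : (E v ∪ T).card ≤ 2 * P.card
    · have h11 := hmax (E v ∪ T) ((hS _).mpr ⟨hPT.trans Finset.subset_union_right, by omega, h10⟩)
      omega
    · have h12 := rws_lt E N P.card (E v ∪ T) hD hP (by omega)
      omega
  exact (Finset.card_le_card (cl_subset E P T hPT hcl)).trans hT2

end XCLO

open XCLO in
/-- Closures of small sets are small. -/
theorem CLO_pf : S_CLO := by
  intro V _ E N P h3 hD hP
  have h1 := card_cl E N P h3 hD hP
  exact ⟨subset_cl E P, closed_cl E P, h1, rws_lt E N P.card (cl E P) hD hP (by omega)⟩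

end Pool.Agent.Work.MP_8dbde4_lc.Tree
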