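import Pool.Agent.Work.MP_8dbde4_lc.Tree.Stmts

/-!
# All polymorphisms commute with a Maltsev polymorphism
-/

set_option autoImplicit false

open Classical

namespace Pool.Agent.Work.MP_8dbde4_lc.Tree

open Pool.Agent.Work.MP_8dbde4_lc.TS

namespace XCOMM

theorem upd_eq {J M : Type} (t : (J → M) → M) (j : J) (h : ¬ Dep t j) (v : J → M) (a : M) :
    t (Function.update v j a) = t v := by
  by_contra hne
  refine h ⟨v, a, v j, ?_⟩
  rwa [Function.update_eq_self]

theorem upd_ne {J M : Type} (v : J → M) (i k : J) (a : M) (h : k ≠ i) :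
    (Function.update v i a) k = v k := Function.update_of_ne h a v

theorem nodep {J M : Type} [Finite J] (t : (J → M) → M) (u u' : J → M)
    (h : ∀ j, u j ≠ u' j → ¬ Dep t j) : t u = t u' := by
  have := Fintype.ofFinite J
  have key : ∀ T : Finset J, t (fun j => if j ∈ T then u' j else u j) = t u := by
    intro T
    induction T using Finset.induction_on with
    | empty => simp
    | insert j T hj ih =>
      rw [← ih]
      by_cases huj : u j = u' j
      · congr 1
        funext i
        by_cases hi : i = j
        · subst hi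
          simp [hj, huj]
        · simp [hi]
      · rw [← upd_eq t j (h j huj) (fun i => if i ∈ T then u' i else u i) (u' j)]
        congr 1
        funext i
        by_cases hi : i = j
        · subst hi
          simp
        · simp [hi]
  have h1 := key Finset.univ
  simp only [Finset.mem_univ, if_true] at h1
  exact h1.symm

end XCOMM

theorem COMM_pf : S_COMM := by
  intro σ M _ F m hTP hm hm1 hm2 I _ f hf x y z
  set w : M := m (f x) (f y) (f z) with hw
  let t : ((I ⊕ I) → M) → M := fun u =>
    m (f (fun i => m (u (Sum.inl i)) (y i) (u (Sum.inr i))))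
      (m (f (fun i => u (Sum.inl i))) (f y) (f (fun i => u (Sum.inr i)))) w
  have ht : F.Pol t := by
    intro R s hs
    refine hm R _ _ _ ?_ ?_ (F.const R w)
    · refine hf R _ fun i => ?_
      exact hm R _ _ _ (hs (Sum.inl i)) (F.const R (y i)) (hs (Sum.inr i))
    · refine hm R _ _ _ ?_ (F.const R (f y)) ?_
      · exact hf R _ fun i => hs (Sum.inl i)
      · exact hf R _ fun i => hs (Sum.inr i)
  have ht1 : ∀ u : (I ⊕ I) → M, (∀ i, u (Sum.inl i) = y i) → t u = w := by
    intro u hu
    have e1 : (fun i => m (u (Sum.inl i)) (y i) (u (Sum.inr i))) = fun i => u (Sum.inr i) := by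
      funext i
      rw [hu, hm1]
    have e2 : (fun i => u (Sum.inl i)) = y := funext hu
    show m (f (fun i => m (u (Sum.inl i)) (y i) (u (Sum.inr i))))
      (m (f (fun i => u (Sum.inl i))) (f y) (f (fun i => u (Sum.inr i)))) w = w
    rw [e1, e2, hm1, hm1]
  have ht2 : ∀ u : (I ⊕ I) → M, (∀ i, u (Sum.inr i) = y i) → t u = w := by
    intro u hu
    have e1 : (fun i => m (u (Sum.inl i)) (y i) (u (Sum.inr i))) = fun i => u (Sum.inl i) := by
      funext i
      rw [hu, hm2]
    have e2 : (fun i => u (Sum.inr i)) = y := funext hu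
    show m (f (fun i => m (u (Sum.inl i)) (y i) (u (Sum.inr i))))
      (m (f (fun i => u (Sum.inl i))) (f y) (f (fun i => u (Sum.inr i)))) w = w
    rw [e1, e2, hm2, hm1]
  have hnd : ∀ i : I, ¬ Dep t (Sum.inl i) := by
    intro i hdep
    have h1 := hTP (I ⊕ I) t ht (Sum.inl i) hdep
    obtain ⟨v, a, b, hab⟩ := hdep
    apply hab
    have h2 := h1 (Sum.elim x y) a b (by
      rw [ht2, ht2]
      · intro k
        exact XCOMM.upd_ne _ _ _ _ (by simp)
      · intro k
        exact XCOMM.upd_ne _ _ _ _ (by simp))
    rw [h2]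
  have h3 : t (Sum.elim x z) = t (Sum.elim y z) := by
    refine XCOMM.nodep t _ _ fun j hj => ?_
    rcases j with i | i
    · exact hnd i
    · exact absurd rfl hj
  rw [ht1 (Sum.elim y z) (fun _ => rfl)] at h3
  have h4 : m (f (fun i => m (x i) (y i) (z i))) (m (f x) (f y) (f z)) w = w := h3
  rw [← hw, hm2] at h4
  exact h4

end Pool.Agent.Work.MP_8dbde4_lc.Tree
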