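import Pool.Agent.Work.MP_8dbde4_lc.Tree.StmtsH

/-!
Item CTB: `Word c` is countable (S_CTB) and dense default words exist (S_DNS).
-/

set_option autoImplicit false
open Classical

namespace Pool.Agent.Work.MP_8dbde4_lc.Tree

namespace XCTB

/-- The finite set of the deviations of a word. -/
noncomputable def dev {K : Type} {c : ℚ → K} (x : Word c) : Finset (ℚ × K) :=
  x.2.toFinset.image (fun q => (q, x.1 q))

theorem mem_dev {K : Type} {c : ℚ → K} (x : Word c) (q : ℚ) (a : K) :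
    (q, a) ∈ dev x ↔ x.1 q ≠ c q ∧ x.1 q = a := by
  unfold dev
  constructor
  · intro h
    obtain ⟨q', h1, h2⟩ := Finset.mem_image.1 h
    have h3 := (Prod.mk.inj h2).1
    have h4 := (Prod.mk.inj h2).2
    subst h3
    have h5 : x.1 q' ≠ c q' := by simpa using (Set.Finite.mem_toFinset _).1 h1
    exact ⟨h5, h4⟩
  · rintro ⟨h1, h2⟩
    refine Finset.mem_image.2 ⟨q, ?_, by rw [h2]⟩
    rw [Set.Finite.mem_toFinset]
    exact h1

theorem dev_inj {K : Type} {c : ℚ → K} : Function.Injective (dev (c := c)) := by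
  intro x y h
  apply Subtype.ext
  funext q
  by_cases hx : x.1 q = c q
  · by_cases hy : y.1 q = c q
    · rw [hx, hy]
    · have h1 : (q, y.1 q) ∈ dev y := (mem_dev y q _).2 ⟨hy, rfl⟩
      rw [← h] at h1
      exact ((mem_dev x q _).1 h1).2
  · have h1 : (q, x.1 q) ∈ dev x := (mem_dev x q _).2 ⟨hx, rfl⟩
    rw [h] at h1
    exact ((mem_dev y q _).1 h1).2.symm

/-- An odd multiple of `1 / 2^k` in an interval of length more than `2 / 2^k`. -/
theorem exists_odd (q q' : ℚ) (k : ℕ) (h : 2 < (q' - q) * 2 ^ k) :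
    ∃ m : ℤ, Odd m ∧ q < (m : ℚ) / 2 ^ k ∧ (m : ℚ) / 2 ^ k < q' := by
  have hp : (0 : ℚ) < 2 ^ k := by positivity
  have key : ∀ m : ℤ, q * 2 ^ k < (m : ℚ) → (m : ℚ) ≤ q * 2 ^ k + 2 →
      q < (m : ℚ) / 2 ^ k ∧ (m : ℚ) / 2 ^ k < q' := by
    intro m h1 h2
    constructor
    · rwa [lt_div_iff₀ hp]
    · rw [div_lt_iff₀ hp]
      have : (q' - q) * 2 ^ k = q' * 2 ^ k - q * 2 ^ k := by ring
      linarith
  have hf1 : ((⌊q * 2 ^ k⌋ : ℤ) : ℚ) ≤ q * 2 ^ k := Int.floor_le _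
  have hf2 : q * 2 ^ k < ((⌊q * 2 ^ k⌋ : ℤ) : ℚ) + 1 := Int.lt_floor_add_one _
  rcases Int.even_or_odd (⌊q * 2 ^ k⌋ : ℤ) with he | ho
  · refine ⟨⌊q * 2 ^ k⌋ + 1, he.add_one, key _ ?_ ?_⟩
    · push_cast; linarith
    · push_cast; linarith
  · refine ⟨⌊q * 2 ^ k⌋ + 2, ?_, key _ ?_ ?_⟩
    · exact ho.add_even (by decide)
    · push_cast; linarith
    · push_cast; linarith

theorem den_odd (m : ℤ) (hm : Odd m) (k : ℕ) : padicValNat 2 ((m : ℚ) / 2 ^ k).den = k := by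
  have h1 : (((m : ℚ) / ((2 ^ k : ℤ) : ℚ)).den : ℤ) = 2 ^ k := by
    apply Rat.den_div_eq_of_coprime (by positivity)
    rw [Int.natAbs_pow]
    apply Nat.Coprime.pow_right
    have : Odd m.natAbs := Int.natAbs_odd.2 hm
    exact (Nat.coprime_two_right).2 this
  have h2 : ((m : ℚ) / 2 ^ k).den = 2 ^ k := by
    have : (m : ℚ) / ((2 ^ k : ℤ) : ℚ) = (m : ℚ) / 2 ^ k := by push_cast; rfl
    rw [this] at h1
    exact_mod_cast h1
  rw [h2]
  exact padicValNat.prime_pow k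

end XCTB

open XCTB in
/-- Words over a finite alphabet are countably many. -/
theorem CTB_pf : S_CTB := by
  intro K _ c
  haveI : Countable K := Finite.to_countable
  exact (dev_inj (c := c)).countable

open XCTB in
/-- Dense default words exist. -/
theorem DNS_pf : S_DNS := by
  intro K _ _
  obtain ⟨n, ⟨e⟩⟩ := Finite.exists_equiv_fin K
  have hn : 0 < n := by
    have a : K := Classical.arbitrary K
    exact lt_of_le_of_lt (Nat.zero_le _) (e a).2
  refine ⟨fun q => e.symm ⟨padicValNat 2 q.den % n, Nat.mod_lt _ hn⟩, ?_⟩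
  intro a q q' hq
  -- a large exponent with the right residue
  obtain ⟨N, hN⟩ := exists_nat_gt (2 / (q' - q))
  have hd : 0 < q' - q := by linarith
  have hN2 : 2 < (q' - q) * 2 ^ ((e a).1 + n * N) := by
    have h1 : (N : ℚ) < 2 ^ ((e a).1 + n * N) := by
      have h2 : N < 2 ^ N := Nat.lt_two_pow_self
      have h3 : (2 : ℕ) ^ N ≤ 2 ^ ((e a).1 + n * N) := by
        apply Nat.pow_le_pow_right (by norm_num)
        have : N ≤ n * N := Nat.le_mul_of_pos_left _ hn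
        omega
      exact_mod_cast lt_of_lt_of_le h2 h3
    have h4 : 2 / (q' - q) < 2 ^ ((e a).1 + n * N) := hN.trans h1
    rw [div_lt_iff₀ hd] at h4
    linarith
  obtain ⟨m, hm, h1, h2⟩ := exists_odd q q' _ hN2
  refine ⟨_, h1, h2, ?_⟩
  show e.symm ⟨padicValNat 2 ((m : ℚ) / 2 ^ ((e a).1 + n * N)).den % n, _⟩ = a
  rw [Equiv.symm_apply_eq]
  apply Fin.ext
  show padicValNat 2 ((m : ℚ) / 2 ^ ((e a).1 + n * N)).den % n = (e a).1
  rw [den_odd m hm, Nat.add_mul_mod_self_left]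
  exact Nat.mod_eq_of_lt (e a).2

end Pool.Agent.Work.MP_8dbde4_lc.Tree
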