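import Pool.Agent.Work.MP_8dbde4_lc.Tree.Stmts

/-!
# Large girth gives density
-/

set_option autoImplicit false
open Classical

namespace Pool.Agent.Work.MP_8dbde4_lc.Tree

namespace XDEN

variable {G : Type} [Group G]

/-- The value of a letter. -/
def val (g h : G) : Option Bool → G
  | none => 1
  | some b => cond b g h

theorem lift_ltr (g h : G) (o : Option Bool) :
    FreeGroup.lift (fun b : Bool => cond b g h) (ltr o) = val g h o := by
  cases o with
  | none => exact map_one _
  | some b => simp [ltr, val]

theorem mem_row (g h v x : G) : x ∈ row g h v ↔ ∃ o, x = v * val g h o := by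
  constructor
  · intro hx
    rw [row, Finset.mem_insert, Finset.mem_insert, Finset.mem_singleton] at hx
    rcases hx with hx | hx | hx
    · exact ⟨none, by rw [hx]; simp [val]⟩
    · exact ⟨some true, by rw [hx]; rfl⟩
    · exact ⟨some false, by rw [hx]; rfl⟩
  · rintro ⟨o, rfl⟩
    rw [row, Finset.mem_insert, Finset.mem_insert, Finset.mem_singleton]
    rcases o with _ | b
    · left; simp [val]
    · cases b
      · right; right; rfl
      · right; left; rfl

/-- The word of a walk. -/
def wd (out inn : ℕ → Option Bool) : ℕ → ℕ → List (Option Bool × Option Bool)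
  | _, 0 => []
  | i, n + 1 => (out i, inn (i + 1)) :: wd out inn (i + 1) n

theorem wd_length (out inn : ℕ → Option Bool) (n : ℕ) : ∀ i, (wd out inn i n).length = n := by
  induction n with
  | zero => intro i; rfl
  | succ n ih => intro i; rw [wd, List.length_cons, ih]

theorem wd_ne (out inn : ℕ → Option Bool) (h1 : ∀ k, out k ≠ inn (k + 1)) (n : ℕ) :
    ∀ i, ∀ x ∈ wd out inn i n, x.1 ≠ x.2 := by
  induction n with
  | zero => intro i x hx; simp [wd] at hx
  | succ n ih =>
    intro i x hx
    rw [wd, List.mem_cons] at hx
    rcases hx with rfl | hx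
    · exact h1 i
    · exact ih (i + 1) x hx

theorem wd_chain (out inn : ℕ → Option Bool) (h2 : ∀ k, inn k ≠ out k) (n : ℕ) :
    ∀ i, (wd out inn i n).IsChain (fun x y => x.2 ≠ y.1) := by
  induction n with
  | zero => intro i; exact List.IsChain.nil
  | succ n ih =>
    intro i
    rcases n with _ | n
    · exact List.IsChain.singleton _
    · rw [wd, wd, List.isChain_cons_cons]
      refine ⟨h2 (i + 1), ?_⟩
      have := ih (i + 1)
      rwa [wd] at this

theorem wd_prod (g h : G) (out inn : ℕ → Option Bool) (c : ℕ → G)
    (hc : ∀ k, c k * val g h (out k) = c (k + 1) * val g h (inn (k + 1))) (n : ℕ) :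
    ∀ i, c i * FreeGroup.lift (fun b : Bool => cond b g h)
      ((wd out inn i n).map (fun x => ltr x.1 * (ltr x.2)⁻¹)).prod = c (i + n) := by
  induction n with
  | zero => intro i; simp [wd]
  | succ n ih =>
    intro i
    rw [wd, List.map_cons, List.prod_cons, map_mul, map_mul, map_inv, lift_ltr, lift_ltr,
      ← mul_assoc, ← mul_assoc, hc, mul_inv_cancel_right, ih (i + 1)]
    congr 1
    omega

theorem walk {Y : Finset G} (g h : G)
    (hA : ∀ v ∈ Y, ∀ o : Option Bool, ∃ o', o' ≠ o ∧ ∃ v' ∈ Y, v' ≠ v ∧
      v * val g h o' ∈ row g h v') (hY : Y.Nonempty) :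
    ∃ (c : ℕ → G) (out inn : ℕ → Option Bool), (∀ k, c k ∈ Y) ∧
      (∀ k, c k * val g h (out k) = c (k + 1) * val g h (inn (k + 1))) ∧
      (∀ k, out k ≠ inn (k + 1)) ∧ ∀ k, inn k ≠ out k := by
  have hA' : ∀ s : {v // v ∈ Y} × Option Bool, ∃ t : ({v // v ∈ Y} × Option Bool) × Option Bool,
      t.2 ≠ s.2 ∧ (s.1 : G) * val g h t.2 = (t.1.1 : G) * val g h t.1.2 ∧ t.2 ≠ t.1.2 := by
    rintro ⟨⟨v, hv⟩, o⟩
    obtain ⟨o', ho', v', hv', hne, hr⟩ := hA v hv o
    obtain ⟨o'', ho''⟩ := (mem_row g h v' _).1 hr
    refine ⟨((⟨v', hv'⟩, o''), o'), ho', ho'', ?_⟩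
    intro h
    change o' = o'' at h
    subst h
    exact hne (mul_right_cancel ho'').symm
  choose nx hn1 hn2 hn3 using hA'
  obtain ⟨v₀, hv₀⟩ := hY
  let st : ℕ → {v // v ∈ Y} × Option Bool :=
    fun n => (fun s => (nx s).1)^[n] (⟨v₀, hv₀⟩, none)
  have hst : ∀ n, st (n + 1) = (nx (st n)).1 := fun n => Function.iterate_succ_apply' _ _ _
  refine ⟨fun n => ((st n).1 : G), fun n => (nx (st n)).2, fun n => (st n).2,
    fun n => (st n).1.2, ?_, ?_, ?_⟩
  · intro k
    show ((st k).1 : G) * val g h (nx (st k)).2 = ((st (k + 1)).1 : G) * val g h (st (k + 1)).2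
    rw [hst]
    exact hn2 (st k)
  · intro k
    show (nx (st k)).2 ≠ (st (k + 1)).2
    rw [hst]
    exact hn3 (st k)
  · intro k
    exact (hn1 (st k)).symm

end XDEN

open XDEN in
/-- Large girth gives density. -/
theorem DEN_pf (h1 : S_RED) : S_DEN := by
  intro G _ g h N hw Y
  -- the values of the letters are different
  have hval : 1 ≤ N → Function.Injective (val g h) := by
    intro hN a b hab
    by_contra hne
    obtain ⟨e1, e2⟩ := h1 [(a, b)] (by simp) (by simpa using hne) (List.IsChain.singleton _)
    refine hw _ e1 (e2.trans ?_) ?_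
    · simp only [List.length_singleton]
      omega
    · simp only [List.map_cons, List.map_nil, List.prod_singleton, map_mul, map_inv, lift_ltr]
      rw [hab, mul_inv_cancel]
  induction Y using Finset.strongInduction with
  | H Y ih =>
    intro hY hYN
    have hN : 1 ≤ N := le_trans (Finset.card_pos.2 hY) hYN
    have hinj := hval hN
    by_contra hbad
    have hA : ∀ v ∈ Y, ∀ o : Option Bool, ∃ o', o' ≠ o ∧ ∃ v' ∈ Y, v' ≠ v ∧
        v * val g h o' ∈ row g h v' := by
      intro v hv o
      by_contra hcon
      push Not at hcon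
      apply hbad
      -- the two private points
      set Q : Finset G := ((Finset.univ : Finset (Option Bool)).erase o).image
        (fun o' => v * val g h o') with hQ
      have hQc : Q.card = 2 := by
        rw [hQ, Finset.card_image_of_injective _ (fun a b hab => hinj (mul_left_cancel hab)),
          Finset.card_erase_of_mem (Finset.mem_univ _)]
        rfl
      have hdis : Disjoint Q ((Y.erase v).biUnion (row g h)) := by
        rw [Finset.disjoint_left]
        intro x hx hx'
        obtain ⟨o', ho', rfl⟩ := Finset.mem_image.1 hx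
        obtain ⟨v', hv', hr⟩ := Finset.mem_biUnion.1 hx'
        exact hcon o' (Finset.mem_erase.1 ho').1 v' (Finset.mem_of_mem_erase hv')
          (Finset.mem_erase.1 hv').1 hr
      have hsub : Q ∪ (Y.erase v).biUnion (row g h) ⊆ Y.biUnion (row g h) := by
        intro x hx
        rcases Finset.mem_union.1 hx with hx | hx
        · obtain ⟨o', -, rfl⟩ := Finset.mem_image.1 hx
          exact Finset.mem_biUnion.2 ⟨v, hv, (mem_row g h v _).2 ⟨o', rfl⟩⟩
        · exact Finset.biUnion_subset_biUnion_of_subset_left _ (Finset.erase_subset _ _) hx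
      have hcard := Finset.card_le_card hsub
      rw [Finset.card_union_of_disjoint hdis, hQc] at hcard
      have hYc := Finset.card_erase_of_mem hv
      by_cases hYe : (Y.erase v).Nonempty
      · have := ih (Y.erase v) (Finset.erase_ssubset hv) hYe
          ((Finset.card_le_card (Finset.erase_subset _ _)).trans hYN)
        have := Finset.card_pos.2 hY
        omega
      · -- one row
        rw [Finset.not_nonempty_iff_eq_empty] at hYe
        have hY1 : Y.card = 1 := by
          have := Finset.card_pos.2 hY
          rw [hYe, Finset.card_empty] at hYc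
          omega
        have h3 : (row g h v).card = 3 := by
          have e : row g h v = (Finset.univ : Finset (Option Bool)).image
              (fun o' => v * val g h o') := by
            ext x
            rw [mem_row, Finset.mem_image]
            constructor
            · rintro ⟨o', ho'⟩
              exact ⟨o', Finset.mem_univ _, ho'.symm⟩
            · rintro ⟨o', -, ho'⟩
              exact ⟨o', ho'.symm⟩
          rw [e, Finset.card_image_of_injective _ (fun a b hab => hinj (mul_left_cancel hab))]
          rfl
        have h4 : row g h v ⊆ Y.biUnion (row g h) := Finset.subset_biUnion_of_mem _ hv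
        have := Finset.card_le_card h4
        omega
    obtain ⟨c, out, inn, hc, hstep, hne1, hne2⟩ := walk g h hA hY
    obtain ⟨i, hi, j, hj, hij, hcc⟩ := Finset.exists_ne_map_eq_of_card_lt_of_maps_to
      (s := Finset.range (N + 1)) (t := Y) (by rw [Finset.card_range]; omega)
      (f := c) (fun k _ => hc k)
    -- a closed walk
    have key : ∀ i j, i < j → j ≤ N → c i = c j → False := by
      intro i j hlt hjN he
      have hp := wd_prod g h out inn c hstep (j - i) i
      rw [show i + (j - i) = j by omega, ← he] at hp
      have hp' := mul_eq_left.1 hp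
      have hlen := wd_length out inn (j - i) i
      obtain ⟨e1, e2⟩ := h1 (wd out inn i (j - i))
        (by
          intro h0
          rw [h0, List.length_nil] at hlen
          omega)
        (wd_ne out inn hne1 _ i) (wd_chain out inn hne2 _ i)
      rw [hlen] at e2
      exact hw _ e1 (e2.trans (by omega)) hp'
    rw [Finset.mem_range] at hi hj
    rcases lt_or_gt_of_ne hij with hlt | hlt
    · exact key i j hlt (by omega) hcc
    · exact key j i hlt (by omega) hcc.symm

end Pool.Agent.Work.MP_8dbde4_lc.Tree
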