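import Pool.Agent.Work.MP_8dbde4_lc.Tree.Stmts

/-!
Item EXT of the block Tree: extension of partial solutions of the row system.
-/

set_option autoImplicit false
open Classical

namespace Pool.Agent.Work.MP_8dbde4_lc.Tree

open Pool.Agent.Work.MP_8dbde4_lc.TS

namespace XEXT

/-- Some row of `Y` has two points which are in no other row of `Y`. -/
lemma exists_private {V : Type} (E : V → Finset V) (N : ℕ) (h3 : ∀ v, (E v).card = 3)
    (hD : Den E N) (Y : Finset V) (hY : Y.Nonempty) (hN : Y.card ≤ N) :
    ∃ v ∈ Y, 2 ≤ (E v \ (Y.erase v).biUnion E).card := by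
  by_contra hcon
  push Not at hcon
  have h1 : ∀ x ∈ Y.biUnion E, 2 ≤ (Y.filter (fun v => x ∈ E v)).card +
      (Y.filter (fun v => x ∈ E v \ (Y.erase v).biUnion E)).card := by
    intro x hx
    obtain ⟨v, hv, hxv⟩ := Finset.mem_biUnion.mp hx
    by_cases hp : x ∈ (Y.erase v).biUnion E
    · obtain ⟨v', hv', hxv'⟩ := Finset.mem_biUnion.mp hp
      obtain ⟨hne, hv'Y⟩ := Finset.mem_erase.mp hv'
      have h2 : ({v, v'} : Finset V) ⊆ Y.filter (fun v => x ∈ E v) := by
        intro u hu
        rw [Finset.mem_insert, Finset.mem_singleton] at hu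
        rcases hu with rfl | rfl
        · exact Finset.mem_filter.mpr ⟨hv, hxv⟩
        · exact Finset.mem_filter.mpr ⟨hv'Y, hxv'⟩
      have h4 := Finset.card_le_card h2
      rw [Finset.card_pair (Ne.symm hne)] at h4
      omega
    · have h4 : 0 < (Y.filter (fun v => x ∈ E v)).card :=
        Finset.card_pos.mpr ⟨v, Finset.mem_filter.mpr ⟨hv, hxv⟩⟩
      have h5 : 0 < (Y.filter (fun v => x ∈ E v \ (Y.erase v).biUnion E)).card :=
        Finset.card_pos.mpr ⟨v, Finset.mem_filter.mpr ⟨hv, Finset.mem_sdiff.mpr ⟨hxv, hp⟩⟩⟩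
      omega
  have h2 := Finset.sum_le_sum h1
  rw [Finset.sum_const, smul_eq_mul, Finset.sum_add_distrib] at h2
  have h4 : ∑ x ∈ Y.biUnion E, (Y.filter (fun v => x ∈ E v)).card ≤ ∑ v ∈ Y, 3 := by
    have e : ∑ x ∈ Y.biUnion E, (Y.filter (fun v => x ∈ E v)).card =
        ∑ v ∈ Y, ((Y.biUnion E).filter (fun x => x ∈ E v)).card :=
      Finset.sum_card_bipartiteAbove_eq_sum_card_bipartiteBelow (fun x v => x ∈ E v)
    rw [e]
    refine Finset.sum_le_sum fun v _ => ?_
    rw [← h3 v]
    exact Finset.card_le_card fun x hx => (Finset.mem_filter.mp hx).2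
  have h5 : ∑ x ∈ Y.biUnion E, (Y.filter (fun v => x ∈ E v \ (Y.erase v).biUnion E)).card ≤
      ∑ v ∈ Y, 1 := by
    have e : ∑ x ∈ Y.biUnion E, (Y.filter (fun v => x ∈ E v \ (Y.erase v).biUnion E)).card =
        ∑ v ∈ Y, ((Y.biUnion E).filter (fun x => x ∈ E v \ (Y.erase v).biUnion E)).card :=
      Finset.sum_card_bipartiteAbove_eq_sum_card_bipartiteBelow
        (fun x v => x ∈ E v \ (Y.erase v).biUnion E)
    rw [e]
    refine Finset.sum_le_sum fun v hv => ?_
    have h6 := hcon v hv
    have h7 : ((Y.biUnion E).filter (fun x => x ∈ E v \ (Y.erase v).biUnion E)).card ≤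
        (E v \ (Y.erase v).biUnion E).card :=
      Finset.card_le_card fun x hx => (Finset.mem_filter.mp hx).2
    omega
  rw [Finset.sum_const, smul_eq_mul] at h4 h5
  have h6 := hD Y hY hN
  omega

/-- Solving one row equation by a change at one point of the row. -/
lemma solve {G : Type} [Group G] {p : ℕ} (g h : G) (y : G → ZMod p) (v x : G)
    (h3 : (row g h v).card = 3) (hx : x ∈ row g h v) :
    ∃ c : ZMod p, RowEq g h (Function.update y x c) v := by
  have hd : v ≠ v * g ∧ v ≠ v * h ∧ v * g ≠ v * h := by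
    refine ⟨?_, ?_, ?_⟩
    · intro e
      have : (row g h v).card ≤ 2 := by
        unfold row
        rw [← e]
        simp only [Finset.mem_insert, Finset.mem_singleton, true_or, Finset.insert_eq_of_mem]
        exact Finset.card_le_two
      omega
    · intro e
      have : (row g h v).card ≤ 2 := by
        unfold row
        rw [← e, Finset.insert_eq_of_mem (by simp)]
        exact Finset.card_le_two
      omega
    · intro e
      have : (row g h v).card ≤ 2 := by
        unfold row
        rw [← e, Finset.insert_eq_of_mem (a := v * g) (by simp)]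
        exact Finset.card_le_two
      omega
  obtain ⟨h1, h2, h4⟩ := hd
  unfold row at hx
  simp only [Finset.mem_insert, Finset.mem_singleton] at hx
  unfold RowEq
  rcases hx with rfl | rfl | rfl
  · refine ⟨1 - y (x * g) + y (x * h), ?_⟩
    rw [Function.update_self, Function.update_of_ne (Ne.symm h1), Function.update_of_ne (Ne.symm h2)]
    ring
  · refine ⟨1 - y v + y (v * h), ?_⟩
    rw [Function.update_self, Function.update_of_ne h1, Function.update_of_ne (Ne.symm h4)]
    ring
  · refine ⟨y v + y (v * g) - 1, ?_⟩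
    rw [Function.update_self, Function.update_of_ne h2, Function.update_of_ne h4]
    ring

/-- `RowEq` depends only on the values on the row. -/
lemma rowEq_congr {G : Type} [Group G] {p : ℕ} (g h : G) (y y' : G → ZMod p) (v : G)
    (e : ∀ x ∈ row g h v, y' x = y x) (hy : RowEq g h y v) : RowEq g h y' v := by
  unfold RowEq at *
  rw [e v (by simp [row]), e (v * g) (by simp [row]), e (v * h) (by simp [row])]
  exact hy

lemma ext_aux {G : Type} [Group G] (g h : G) (N p : ℕ) (T : Finset G) (y : G → ZMod p)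
    (h3 : ∀ v : G, (row g h v).card = 3) (hD : Den (row g h) N) (hT : Closed (row g h) T) :
    ∀ (n : ℕ) (Y : Finset G), Y.card = n → n ≤ N → (∀ v ∈ Y, ¬ row g h v ⊆ T) →
      ∃ y' : G → ZMod p, (∀ x ∈ T, y' x = y x) ∧ ∀ v ∈ Y, RowEq g h y' v := by
  intro n
  induction n with
  | zero =>
    intro Y hY _ _
    rw [Finset.card_eq_zero] at hY
    subst hY
    exact ⟨y, fun _ _ => rfl, by simp⟩
  | succ n ih =>
    intro Y hY hN hYT
    have hne : Y.Nonempty := by
      rw [← Finset.card_pos]
      omega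
    obtain ⟨v, hv, h2⟩ := exists_private (row g h) N h3 hD Y hne (by omega)
    obtain ⟨y₁, hy₁T, hy₁⟩ := ih (Y.erase v) (by rw [Finset.card_erase_of_mem hv]; omega)
      (by omega) (fun u hu => hYT u (Finset.mem_of_mem_erase hu))
    -- a free point
    have h4 : (row g h v ∩ T).card < 2 := by
      by_contra hcon
      exact hYT v hv (hT v (not_lt.mp hcon))
    have h5 : ∃ x ∈ row g h v \ (Y.erase v).biUnion (row g h), x ∉ T := by
      by_contra hcon
      push Not at hcon
      have : (row g h v \ (Y.erase v).biUnion (row g h)) ⊆ row g h v ∩ T := by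
        intro x hx
        exact Finset.mem_inter.mpr ⟨(Finset.mem_sdiff.mp hx).1, hcon x hx⟩
      have := Finset.card_le_card this
      omega
    obtain ⟨x, hx, hxT⟩ := h5
    obtain ⟨hxv, hxo⟩ := Finset.mem_sdiff.mp hx
    obtain ⟨c, hc⟩ := solve g h y₁ v x (h3 v) hxv
    refine ⟨Function.update y₁ x c, ?_, ?_⟩
    · intro z hz
      rw [Function.update_of_ne (by rintro rfl; exact hxT hz)]
      exact hy₁T z hz
    · intro u hu
      by_cases huv : u = v
      · rw [huv]
        exact hc
      · have hu' : u ∈ Y.erase v := Finset.mem_erase.mpr ⟨huv, hu⟩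
        refine rowEq_congr g h y₁ _ u ?_ (hy₁ u hu')
        intro z hz
        rw [Function.update_of_ne]
        rintro rfl
        exact hxo (Finset.mem_biUnion.mpr ⟨u, hu', hz⟩)

end XEXT

open XEXT in
/-- Extension of partial solutions. -/
theorem EXT_pf (h1 : S_CLO) : S_EXT := by
  intro G _ _ g h N p P Q y h3 hD hPQ hQ hy
  have hPc := Finset.card_le_card hPQ
  obtain ⟨-, hTc, -, -⟩ := h1 G (row g h) N P h3 hD (by omega)
  obtain ⟨-, -, -, hrows⟩ := h1 G (row g h) N Q h3 hD hQ
  set Y : Finset G := Finset.univ.filter (fun v => row g h v ⊆ cl (row g h) Q ∧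
    ¬ row g h v ⊆ cl (row g h) P) with hY
  have hYc : Y.card ≤ N := by
    have : Y ⊆ Finset.univ.filter (fun v => row g h v ⊆ cl (row g h) Q) := by
      intro v hv
      rw [hY, Finset.mem_filter] at hv
      exact Finset.mem_filter.mpr ⟨hv.1, hv.2.1⟩
    have := Finset.card_le_card this
    omega
  obtain ⟨y', hy'T, hy'⟩ := ext_aux g h N p (cl (row g h) P) y h3 hD hTc Y.card Y rfl hYc
    (fun v hv => by
      rw [hY, Finset.mem_filter] at hv
      exact hv.2.2)
  refine ⟨y', hy'T, ?_⟩
  intro v hv
  by_cases hvP : row g h v ⊆ cl (row g h) P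
  · exact rowEq_congr g h y y' v (fun x hx => hy'T x (hvP hx)) (hy v hvP)
  · refine hy' v ?_
    rw [hY, Finset.mem_filter]
    exact ⟨Finset.mem_univ _, hv, hvP⟩

end Pool.Agent.Work.MP_8dbde4_lc.Tree
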