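import Pool.Agent.Work.MP_8dbde4_lc.Tree.Stmts

/-!
# The affine gadget
-/

set_option autoImplicit false
open Classical

namespace Pool.Agent.Work.MP_8dbde4_lc.Tree

open Pool.Agent.Work.MP_8dbde4_lc.TS

namespace XGA

/-- closure of the relations under sums of multiples -/
lemma comb {σ : Sig} {M : Type} [AddCommGroup M] (F : Fam σ M)
    (h3 : Pol3 F (fun x y z => x - y + z)) (R : σ.S) (n : ℕ) (a b : Fin (σ.ar R) → M)
    (ha : F.P R a) (hb : F.P R b) : F.P R (fun j => n • a j + b j) := by
  induction n with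
  | zero =>
    simpa using hb
  | succ n ih =>
    have h := h3 R a (fun _ => 0) (fun j => n • a j + b j) ha (F.const R 0) ih
    have e : (fun j => (n + 1) • a j + b j) =
        fun j => (fun x y z : M => x - y + z) (a j) ((fun _ => (0 : M)) j) (n • a j + b j) := by
      funext j
      simp only [sub_zero, succ_nsmul]
      abel
    rw [e]
    exact h

/-- a function which is not changed by an update of one coordinate -/
lemma not_dep {M I : Type} {f : (I → M) → M} {i : I} (h : ¬ Dep f i) (x : I → M) (a b : M) :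
    f (Function.update x i a) = f (Function.update x i b) := by
  by_contra hne
  exact h ⟨x, a, b, hne⟩

end XGA

open XGA

theorem GA_pf (hINJ : S_INJ) : S_GA := by
  intro σ M _ _ F p hx hp hpM hTP h3 haff
  obtain ⟨δ, hδ⟩ := hx
  have : Fact p.Prime := ⟨hp⟩
  letI : Module (ZMod p) M := AddCommGroup.zmodModule hpM
  refine ⟨⟨fun s => s • δ, fun s => ![0, 0, s • δ], fun s => ![δ, 0, s • δ],
    fun s => ![0, δ, s • δ], fun s => ![δ, δ, s • δ]⟩, ?_, ?_, ?_⟩
  · simp only [zero_smul, one_smul]
    exact hδ.symm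
  · intro α β
    refine ⟨fun t => α.val • t 0 + (β.val • t 1 + t 2), ?_, ?_⟩
    · intro R t ht
      have h1 := comb F h3 R β.val (fun j => t j 1) (fun j => t j 2) (ht 1) (ht 2)
      exact comb F h3 R α.val (fun j => t j 0) _ (ht 0) h1
    · intro s
      have hv : ∀ (γ : ZMod p) (x : M), γ.val • x = γ • x := by
        intro γ x
        have h1 : ((γ.val : ℕ) : ZMod p) • x = γ.val • x := Nat.cast_smul_eq_nsmul (ZMod p) _ _
        rw [← h1, ZMod.natCast_zmod_val]
      simp only [hv]
      refine ⟨?_, ?_, ?_, ?_⟩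
      · simp
      · simp [add_smul, add_comm]
      · simp [add_smul, add_comm]
      · simp only [Matrix.cons_val_zero, Matrix.cons_val_one, Matrix.cons_val, add_smul]
        abel
  · intro G _ _ g h hG H f hf hval
    have hu : ∀ v α β s, f v α β ![0, 0, s • δ] = H 1 s := fun v α β s => (hval v α β s).1
    have hxx : ∀ v α β s, f v α β ![δ, 0, s • δ] = H v (s + α) := fun v α β s =>
      (hval v α β s).2.1
    have hyy : ∀ v α β s, f v α β ![0, δ, s • δ] = H (v * g) (s + β) := fun v α β s =>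
      (hval v α β s).2.2.1
    have hzz : ∀ v α β s, f v α β ![δ, δ, s • δ] = H (v * h) (s + α + β - 1) := fun v α β s =>
      (hval v α β s).2.2.2
    have aff : ∀ v α β x y z, f v α β (x - y + z) = f v α β x - f v α β y + f v α β z :=
      fun v α β x y z => haff (Fin 3) (f v α β) (hf v α β) x y z
    -- (1)
    have e1 : ∀ v s, H v s = H v 0 - H 1 0 + H 1 s := by
      intro v s
      have h1 := aff v 0 0 ![δ, 0, (0 : ZMod p) • δ] ![0, 0, (0 : ZMod p) • δ] ![0, 0, s • δ]
      have h2 : (![δ, 0, (0 : ZMod p) • δ] : Fin 3 → M) - ![0, 0, (0 : ZMod p) • δ] +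
          ![0, 0, s • δ] = ![δ, 0, s • δ] := by
        funext i
        fin_cases i <;> simp
      rw [h2, hxx, hxx, hu, hu, add_zero, add_zero] at h1
      exact h1
    have e2 : ∀ s, H 1 (s + 1) = H 1 s - H 1 0 + H 1 1 := by
      intro s
      have h1 := aff 1 0 0 ![0, 0, s • δ] ![0, 0, (0 : ZMod p) • δ] ![0, 0, (1 : ZMod p) • δ]
      have h2 : (![0, 0, s • δ] : Fin 3 → M) - ![0, 0, (0 : ZMod p) • δ] +
          ![0, 0, (1 : ZMod p) • δ] = ![0, 0, (s + 1) • δ] := by
        funext i
        fin_cases i <;> simp [add_smul]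
      rw [h2, hu, hu, hu, hu] at h1
      exact h1
    have e3 : ∀ v, H (v * h) (-1) = H v 0 - H 1 0 + H (v * g) 0 := by
      intro v
      have h1 := aff v 0 0 ![δ, 0, (0 : ZMod p) • δ] ![0, 0, (0 : ZMod p) • δ]
        ![0, δ, (0 : ZMod p) • δ]
      have h2 : (![δ, 0, (0 : ZMod p) • δ] : Fin 3 → M) - ![0, 0, (0 : ZMod p) • δ] +
          ![0, δ, (0 : ZMod p) • δ] = ![δ, δ, (0 : ZMod p) • δ] := by
        funext i
        fin_cases i <;> simp
      rw [h2, hxx, hu, hyy, hzz] at h1
      simpa using h1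
    have key : ∀ A B C : M, B = A - B + C → A = B - (C - B) := by
      intro A B C h
      rw [eq_sub_iff_add_eq]
      calc A + (C - B) = A - B + C := by abel
        _ = B := h.symm
    have e4 : H 1 (-1) = H 1 0 - (H 1 1 - H 1 0) := by
      have h1 := e2 (-1)
      rw [neg_add_cancel] at h1
      exact key _ _ _ h1
    have e5 : ∀ v, (H v 0 - H 1 0 + (H 1 1 - H 1 0)) +
        (H (v * g) 0 - H 1 0 + (H 1 1 - H 1 0)) =
        H (v * h) 0 - H 1 0 + (H 1 1 - H 1 0) := by
      intro v
      have h1 := e3 v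
      have h2 := e1 (v * h) (-1)
      rw [h1, e4] at h2
      have h3 : H (v * h) 0 = (H v 0 - H 1 0 + H (v * g) 0) - (H 1 0 - (H 1 1 - H 1 0)) +
          H 1 0 := by
        rw [h2]
        abel
      rw [h3]
      abel
    have e6 := hINJ p M G g h (fun v => H v 0 - H 1 0 + (H 1 1 - H 1 0)) hp hpM hG e5
    have e7 : H 1 1 - H 1 0 = 0 := by
      have := e6 1
      simpa using this
    have e8 : ∀ v, H v 0 = H 1 0 := by
      intro v
      have h1 := e6 v
      beta_reduce at h1
      rw [e7, add_zero, sub_eq_zero] at h1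
      exact h1
    have e9 : ∀ n : ℕ, H 1 (n : ZMod p) = H 1 0 := by
      intro n
      induction n with
      | zero => simp
      | succ n ih =>
        rw [Nat.cast_succ, e2, ih, sub_self, zero_add]
        exact sub_eq_zero.1 e7
    have e10 : ∀ s : ZMod p, H 1 s = H 1 0 := by
      intro s
      have := e9 s.val
      rwa [ZMod.natCast_zmod_val] at this
    have e11 : ∀ v s, H v s = H 1 0 := by
      intro v s
      rw [e1 v s, e8 v, e10 s, sub_self, zero_add]
    refine ⟨H 1 0, e11, fun v α β t => ?_⟩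
    have upd : ∀ (inst : DecidableEq (Fin 3)) (i : Fin 3) (w w' : Fin 3 → M) (a : M),
        (∀ j, j ≠ i → w' j = w j) → w' i = a →
        @Function.update (Fin 3) (fun _ => M) inst w i a = w' := by
      intro inst i w w' a h1 h2
      funext j
      by_cases hj : j = i
      · subst hj
        rw [Function.update_self, h2]
      · rw [Function.update_of_ne hj, h1 j hj]
    have d2 : ¬ Dep (f v α β) 2 := by
      intro hd
      have h1 := hTP (Fin 3) (f v α β) (hf v α β) 2 hd ![0, 0, 0] 0 δ (by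
        rw [upd _ 2 ![0, 0, 0] ![0, 0, (0 : ZMod p) • δ] 0
            (fun j hj => by revert hj; fin_cases j <;> simp) (by simp),
          upd _ 2 ![0, 0, 0] ![0, 0, (1 : ZMod p) • δ] δ
            (fun j hj => by revert hj; fin_cases j <;> simp) (by simp), hu, hu]; exact (e11 _ _).trans (e11 _ _).symm)
      exact hδ h1.symm
    have d0 : ¬ Dep (f v α β) 0 := by
      intro hd
      have h1 := hTP (Fin 3) (f v α β) (hf v α β) 0 hd ![0, 0, 0] 0 δ (by
        rw [upd _ 0 ![0, 0, 0] ![0, 0, (0 : ZMod p) • δ] 0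
            (fun j hj => by revert hj; fin_cases j <;> simp) (by simp),
          upd _ 0 ![0, 0, 0] ![δ, 0, (0 : ZMod p) • δ] δ
            (fun j hj => by revert hj; fin_cases j <;> simp) (by simp), hu, hxx]; exact (e11 _ _).trans (e11 _ _).symm)
      exact hδ h1.symm
    have d1 : ¬ Dep (f v α β) 1 := by
      intro hd
      have h1 := hTP (Fin 3) (f v α β) (hf v α β) 1 hd ![0, 0, 0] 0 δ (by
        rw [upd _ 1 ![0, 0, 0] ![0, 0, (0 : ZMod p) • δ] 0
            (fun j hj => by revert hj; fin_cases j <;> simp) (by simp),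
          upd _ 1 ![0, 0, 0] ![0, δ, (0 : ZMod p) • δ] δ
            (fun j hj => by revert hj; fin_cases j <;> simp) (by simp), hu, hyy]; exact (e11 _ _).trans (e11 _ _).symm)
      exact hδ h1.symm
    have k1 := not_dep d0 ![t 0, t 1, t 2] (t 0) 0
    rw [upd _ 0 ![t 0, t 1, t 2] t (t 0) (fun j hj => by fin_cases j <;> simp) rfl,
      upd _ 0 ![t 0, t 1, t 2] ![0, t 1, t 2] 0 (fun j hj => by revert hj; fin_cases j <;> simp) rfl] at k1
    have k2 := not_dep d1 ![0, t 1, t 2] (t 1) 0
    rw [upd _ 1 ![0, t 1, t 2] ![0, t 1, t 2] (t 1) (fun j hj => rfl) rfl,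
      upd _ 1 ![0, t 1, t 2] ![0, 0, t 2] 0 (fun j hj => by revert hj; fin_cases j <;> simp) rfl] at k2
    have k3 := not_dep d2 ![0, 0, t 2] (t 2) 0
    rw [upd _ 2 ![0, 0, t 2] ![0, 0, t 2] (t 2) (fun j hj => rfl) rfl,
      upd _ 2 ![0, 0, t 2] ![0, 0, (0 : ZMod p) • δ] 0
        (fun j hj => by revert hj; fin_cases j <;> simp) (by simp)] at k3
    rw [k1, k2, k3, hu]

end Pool.Agent.Work.MP_8dbde4_lc.Tree
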