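import Pool.Agent.Work.MP_8dbde4_lc.Tree.Stmts

set_option autoImplicit false
open Classical

namespace Pool.Agent.Work.MP_8dbde4_lc.Tree

open Pool.Agent.Work.MP_8dbde4_lc.TS

namespace XGAME

/-- The pairs of the list `S` lie on a pair of related tuples. -/
def Rl {A B : Type} {k : ℕ} (Z : (Fin k → A) → (Fin k → B) → Prop) (S : List (A × B)) : Prop :=
  ∃ v w, Z v w ∧ ∀ s ∈ S, ∃ i, s = (v i, w i)

theorem Rl.mono {A B : Type} {k : ℕ} {Z : (Fin k → A) → (Fin k → B) → Prop}
    {S S' : List (A × B)} (h : Rl Z S') (hs : S ⊆ S') : Rl Z S := by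
  obtain ⟨v, w, hz, hS⟩ := h
  exact ⟨v, w, hz, fun s hs' => hS s (hs hs')⟩

theorem Rl.forth {σ : Sig} {A B : Type} {𝔄 : Str σ A} {𝔅 : Str σ B} {k : ℕ}
    {Z : (Fin k → A) → (Fin k → B) → Prop} (hZ : BFSys 𝔄 𝔅 k Z)
    {S : List (A × B)} (h : Rl Z S) (hl : S.length < k) :
    ∃ f : A ≃ B, ∀ a, Rl Z ((a, f a) :: S) := by
  obtain ⟨v, w, hz, hS⟩ := h
  have h1 : ∀ j : Fin S.length, ∃ i : Fin k, S.get j = (v i, w i) :=
    fun j => hS _ (List.get_mem _ _)
  choose g hg using h1
  let ρ : Fin k → Fin k := fun x => if h : (x : ℕ) < S.length then g ⟨x, h⟩ else x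
  have hz' := hZ.subst v w hz ρ
  obtain ⟨f, hf⟩ := hZ.forth _ _ hz' ⟨S.length, hl⟩
  refine ⟨f, fun a => ⟨_, _, hf a, ?_⟩⟩
  intro s hs
  rcases List.mem_cons.1 hs with rfl | hs
  · exact ⟨⟨S.length, hl⟩, by simp⟩
  · obtain ⟨j, hj⟩ := List.get_of_mem hs
    refine ⟨⟨j, lt_trans j.2 hl⟩, ?_⟩
    have hne : (⟨(j : ℕ), lt_trans j.2 hl⟩ : Fin k) ≠ ⟨S.length, hl⟩ := by
      intro h
      have := congrArg Fin.val h
      have := j.2
      simp_all
    have hρ : ρ ⟨(j : ℕ), lt_trans j.2 hl⟩ = g j := by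
      have h2 := j.2
      simp [ρ]
    rw [Function.update_of_ne hne, Function.update_of_ne hne, hρ, ← hj, hg j]

theorem Rl.rel {σ : Sig} {A B : Type} {𝔄 : Str σ A} {𝔅 : Str σ B} {k : ℕ}
    {Z : (Fin k → A) → (Fin k → B) → Prop} (hZ : BFSys 𝔄 𝔅 k Z)
    {S : List (A × B)} (h : Rl Z S) (R : σ.S) (p : Fin (σ.ar R) → A × B) (hp : ∀ i, p i ∈ S) :
    𝔄.rel R (fun i => (p i).1) ↔ 𝔅.rel R (fun i => (p i).2) := by
  obtain ⟨v, w, hz, hS⟩ := h
  have h1 : ∀ j, ∃ i : Fin k, p j = (v i, w i) := fun j => hS _ (hp j)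
  choose g hg using h1
  simp only [hg]
  exact hZ.atomRel v w hz R g

theorem Rl.eq {σ : Sig} {A B : Type} {𝔄 : Str σ A} {𝔅 : Str σ B} {k : ℕ}
    {Z : (Fin k → A) → (Fin k → B) → Prop} (hZ : BFSys 𝔄 𝔅 k Z)
    {S : List (A × B)} (h : Rl Z S) (p q : A × B) (hp : p ∈ S) (hq : q ∈ S) :
    p.1 = q.1 ↔ p.2 = q.2 := by
  obtain ⟨v, w, hz, hS⟩ := h
  obtain ⟨i, rfl⟩ := hS _ hp
  obtain ⟨j, rfl⟩ := hS _ hq
  exact hZ.atomEq v w hz i j

/-- The relations `Q`, `Q'` agree on related lists which are related together with `P`. -/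
def Cp {A B : Type} {k : ℕ} (Z : (Fin k → A) → (Fin k → B) → Prop) (P : List (A × B))
    (Q : List Bool → List (A ⊕ ℕ) → Prop) (Q' : List Bool → List (B ⊕ ℕ) → Prop) : Prop :=
  ∀ (S : List (A × B)) (l : List ((A × B) ⊕ ℕ)), Rl Z S → P ⊆ S →
    (∀ p, Sum.inl p ∈ l → p ∈ S) →
    (Q (sorts l) (l.map (Sum.map Prod.fst id)) ↔ Q' (sorts l) (l.map (Sum.map Prod.snd id)))

theorem sorts_map {C D E F : Type} (f : C → E) (g : D → F) (l : List (C ⊕ D)) :
    sorts (l.map (Sum.map f g)) = sorts l := by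
  simp only [sorts, List.map_map]
  apply List.map_congr_left
  intro x _
  rcases x with x | x <;> rfl

theorem updE_map {C D : Type} (f : C → D) (g : ℕ → ℕ) (ys : List (ℕ ⊕ ℕ)) :
    ∀ (l : List (C ⊕ ℕ)) (u : ℕ → C),
      updE (fun x => f (u x)) ys (l.map (Sum.map f g)) = fun x => f (updE u ys l x) := by
  induction ys with
  | nil => intro l u; cases l <;> rfl
  | cons y ys ih =>
    intro l u
    rcases l with _ | ⟨a, l⟩
    · rcases y with y | y <;> rfl
    · rcases y with y | y <;> rcases a with a | a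
      · simp only [List.map_cons, Sum.map_inl, updE]
        rw [← ih]
        congr 1
        funext x
        by_cases h : x = y
        · subst h; simp
        · simp [h]
      · simpa only [List.map_cons, Sum.map_inr, updE] using ih l u
      · simpa only [List.map_cons, Sum.map_inl, updE] using ih l u
      · simpa only [List.map_cons, Sum.map_inr, updE] using ih l u

theorem updN_map {C D : Type} (f : C → D) (ys : List (ℕ ⊕ ℕ)) :
    ∀ (l : List (C ⊕ ℕ)) (ν : ℕ → ℕ),
      updN ν ys (l.map (Sum.map f id)) = updN ν ys l := by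
  induction ys with
  | nil => intro l u; cases l <;> rfl
  | cons y ys ih =>
    intro l u
    rcases l with _ | ⟨a, l⟩
    · rcases y with y | y <;> rfl
    · rcases y with y | y <;> rcases a with a | a
      · simpa only [List.map_cons, Sum.map_inl, updN] using ih l u
      · simpa only [List.map_cons, Sum.map_inr, updN] using ih l u
      · simpa only [List.map_cons, Sum.map_inl, updN] using ih l u
      · exact ih l (Function.update u y a)

theorem updE_mem {C : Type} (ys : List (ℕ ⊕ ℕ)) :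
    ∀ (l : List (C ⊕ ℕ)) (u : ℕ → C) (x : ℕ),
      updE u ys l x = u x ∨ Sum.inl (updE u ys l x) ∈ l := by
  induction ys with
  | nil => intro l u x; cases l <;> exact Or.inl rfl
  | cons y ys ih =>
    intro l u x
    rcases l with _ | ⟨a, l⟩
    · rcases y with y | y <;> exact Or.inl rfl
    · rcases y with y | y <;> rcases a with a | a
      · simp only [updE]
        rcases ih l (Function.update u y a) x with h | h
        · by_cases hxy : x = y
          · subst hxy
            right
            rw [h]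
            simp
          · left
            rw [h]
            simp [hxy]
        · exact Or.inr (List.mem_cons_of_mem _ h)
      · simp only [updE]
        exact (ih l u x).imp id (List.mem_cons_of_mem _)
      · simp only [updE]
        exact (ih l u x).imp id (List.mem_cons_of_mem _)
      · simp only [updE]
        exact (ih l u x).imp id (List.mem_cons_of_mem _)

theorem fits_map {C D : Type} (N : ℕ) (ys : List (ℕ ⊕ ℕ)) (f : C → D) (l : List (C ⊕ ℕ)) :
    Fits N ys (l.map (Sum.map f id)) ↔ Fits N ys l := by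
  unfold Fits
  rw [sorts_map]
  refine and_congr Iff.rfl (and_congr Iff.rfl ?_)
  constructor
  · intro h k hk
    exact h k (List.mem_map.2 ⟨Sum.inr k, hk, rfl⟩)
  · intro h k hk
    obtain ⟨x, hx, hxk⟩ := List.mem_map.1 hk
    rcases x with x | x
    · simp at hxk
    · simp at hxk
      subst hxk
      exact h _ hx

/-- All element variables of the arguments and quantifiers are less than `n`. -/
def Bd {σ : Sig} (n : ℕ) : FPC σ → Prop
  | .rel _ xs => ∀ i, xs i < n
  | .eq x y => x < n ∧ y < n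
  | .le _ _ => True
  | .app _ ts => ∀ x, Sum.inl x ∈ ts → x < n
  | .neg φ => Bd n φ
  | .and φ ψ => Bd n φ ∧ Bd n ψ
  | .exE _ φ => Bd n φ
  | .exN _ φ => Bd n φ
  | .cnt _ φ _ => Bd n φ
  | .ifp _ _ φ ts => (∀ x, Sum.inl x ∈ ts → x < n) ∧ Bd n φ

theorem Bd.mono {σ : Sig} {m n : ℕ} (h : m ≤ n) (φ : FPC σ) : Bd m φ → Bd n φ := by
  induction φ with
  | rel R xs => exact fun hb i => lt_of_lt_of_le (hb i) h
  | eq x y => exact fun hb => ⟨lt_of_lt_of_le hb.1 h, lt_of_lt_of_le hb.2 h⟩
  | le _ _ => exact fun _ => trivial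
  | app _ ts => exact fun hb x hx => lt_of_lt_of_le (hb x hx) h
  | neg φ ih => exact ih
  | and φ ψ ih1 ih2 => exact fun hb => ⟨ih1 hb.1, ih2 hb.2⟩
  | exE x φ ih => exact ih
  | exN m φ ih => exact ih
  | cnt x φ m ih => exact ih
  | ifp X ys φ ts ih => exact fun hb => ⟨fun x hx => lt_of_lt_of_le (hb.1 x hx) h, ih hb.2⟩

theorem list_bd (ts : List (ℕ ⊕ ℕ)) : ∃ n : ℕ, ∀ x, Sum.inl x ∈ ts → x < n := by
  induction ts with
  | nil => exact ⟨0, fun x hx => by simp at hx⟩
  | cons t ts ih =>
    obtain ⟨n, hn⟩ := ih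
    rcases t with t | t
    · refine ⟨max n (t + 1), fun x hx => ?_⟩
      rcases List.mem_cons.1 hx with h | h
      · have := Sum.inl.inj h
        omega
      · have := hn x h
        omega
    · refine ⟨n, fun x hx => ?_⟩
      rcases List.mem_cons.1 hx with h | h
      · simp at h
      · exact hn x h

theorem exists_bd {σ : Sig} (φ : FPC σ) : ∃ n : ℕ, Bd n φ := by
  induction φ with
  | rel R xs =>
    refine ⟨(Finset.univ.sup xs) + 1, fun i => ?_⟩
    have : xs i ≤ Finset.univ.sup xs := Finset.le_sup (Finset.mem_univ i)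
    omega
  | eq x y => exact ⟨max x y + 1, by show x < _ ∧ y < _; omega⟩
  | le _ _ => exact ⟨0, trivial⟩
  | app _ ts => exact list_bd ts
  | neg φ ih => exact ih
  | and φ ψ ih1 ih2 =>
    obtain ⟨m, hm⟩ := ih1
    obtain ⟨n, hn⟩ := ih2
    exact ⟨max m n, Bd.mono (le_max_left _ _) _ hm, Bd.mono (le_max_right _ _) _ hn⟩
  | exE x φ ih => exact ih
  | exN m φ ih => exact ih
  | cnt x φ m ih => exact ih
  | ifp X ys φ ts ih =>
    obtain ⟨m, hm⟩ := ih
    obtain ⟨n, hn⟩ := list_bd ts
    exact ⟨max m n, fun x hx => lt_of_lt_of_le (hn x hx) (le_max_right _ _),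
      Bd.mono (le_max_left _ _) _ hm⟩

/-- The number of pebbles needed. -/
def Nd {σ : Sig} (n : ℕ) : FPC σ → ℕ
  | .rel _ _ => 0
  | .eq _ _ => 0
  | .le _ _ => 0
  | .app _ _ => 0
  | .neg φ => Nd n φ
  | .and φ ψ => Nd n φ + Nd n ψ
  | .exE _ φ => n + 1 + Nd n φ
  | .exN _ φ => Nd n φ
  | .cnt _ φ _ => n + 1 + Nd n φ
  | .ifp _ _ φ _ => n + Nd n φ

theorem upd_pair {A B : Type} (u : ℕ → A × B) (x : ℕ) (a : A) (b : B) :
    Function.update (fun y => (u y).1) x a = (fun y => (Function.update u x (a, b) y).1) ∧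
    Function.update (fun y => (u y).2) x b = (fun y => (Function.update u x (a, b) y).2) := by
  constructor <;>
  · funext y
    by_cases h : y = x
    · subst h; simp
    · simp [h]

theorem main {σ : Sig} {A B : Type} {𝔄 : Str σ A} {𝔅 : Str σ B} {k : ℕ}
    {Z : (Fin k → A) → (Fin k → B) → Prop} (hZ : BFSys 𝔄 𝔅 k Z)
    (hc : Nat.card A = Nat.card B) (n : ℕ) (φ : FPC σ) :
    Bd n φ → ∀ (P : List (A × B)) (u : ℕ → A × B) (ν : ℕ → ℕ)
      (β : ℕ → List Bool → List (A ⊕ ℕ) → Prop) (β' : ℕ → List Bool → List (B ⊕ ℕ) → Prop),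
      P.length + Nd n φ ≤ k → Rl Z ((List.range n).map u ++ P) →
      (∀ X, Cp Z P (β X) (β' X)) →
      (φ.eval 𝔄 (fun x => (u x).1) ν β ↔ φ.eval 𝔅 (fun x => (u x).2) ν β') := by
  have hex : ∀ (P : List (A × B)) (u : ℕ → A × B) (x : ℕ), P.length + n + 1 ≤ k →
      Rl Z ((List.range n).map u ++ P) → ∃ f : A ≃ B, ∀ a,
        Rl Z ((List.range n).map (Function.update u x (a, f a)) ++ P) := by
    intro P u x hk hR
    obtain ⟨f, hf⟩ := hR.forth hZ (by simp; omega)
    refine ⟨f, fun a => (hf a).mono ?_⟩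
    intro p hp
    rcases List.mem_append.1 hp with h | h
    · obtain ⟨y, hy, rfl⟩ := List.mem_map.1 h
      by_cases hxy : y = x
      · subst hxy
        simp
      · rw [Function.update_of_ne hxy]
        exact List.mem_cons_of_mem _ (List.mem_append_left _ (List.mem_map.2 ⟨y, hy, rfl⟩))
    · exact List.mem_cons_of_mem _ (List.mem_append_right _ h)
  induction φ with
  | rel R xs =>
    intro hb P u ν β β' hk hR hβ
    exact hR.rel hZ R (fun i => u (xs i)) (fun i => List.mem_append_left _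
      (List.mem_map.2 ⟨xs i, List.mem_range.2 (hb i), rfl⟩))
  | eq x y =>
    intro hb P u ν β β' hk hR hβ
    exact hR.eq hZ (u x) (u y)
      (List.mem_append_left _ (List.mem_map.2 ⟨x, List.mem_range.2 hb.1, rfl⟩))
      (List.mem_append_left _ (List.mem_map.2 ⟨y, List.mem_range.2 hb.2, rfl⟩))
  | le m m' =>
    intro hb P u ν β β' hk hR hβ
    exact Iff.rfl
  | app X ts =>
    intro hb P u ν β β' hk hR hβ
    have h := hβ X _ (ts.map (Sum.map u ν)) hR (List.subset_append_right _ _) (by
      intro p hp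
      obtain ⟨t, ht, htp⟩ := List.mem_map.1 hp
      rcases t with t | t
      · have : u t = p := Sum.inl.inj htp
        subst this
        exact List.mem_append_left _ (List.mem_map.2 ⟨t, List.mem_range.2 (hb t ht), rfl⟩)
      · simp at htp)
    rw [sorts_map, List.map_map, List.map_map, Sum.map_comp_map, Sum.map_comp_map] at h
    exact h
  | neg φ ih =>
    intro hb P u ν β β' hk hR hβ
    exact not_congr (ih hb P u ν β β' hk hR hβ)
  | and φ ψ ih1 ih2 =>
    intro hb P u ν β β' hk hR hβ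
    simp only [Nd] at hk
    exact and_congr (ih1 hb.1 P u ν β β' (by omega) hR hβ) (ih2 hb.2 P u ν β β' (by omega) hR hβ)
  | exE x φ ih =>
    intro hb P u ν β β' hk hR hβ
    simp only [Nd] at hk
    obtain ⟨f, hf⟩ := hex P u x (by omega) hR
    have h : ∀ a, φ.eval 𝔄 (Function.update (fun y => (u y).1) x a) ν β ↔
        φ.eval 𝔅 (Function.update (fun y => (u y).2) x (f a)) ν β' := by
      intro a
      rw [(upd_pair u x a (f a)).1, (upd_pair u x a (f a)).2]
      exact ih hb P _ ν β β' (by omega) (hf a) hβ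
    constructor
    · rintro ⟨a, ha⟩
      exact ⟨f a, (h a).1 ha⟩
    · rintro ⟨b, hb'⟩
      refine ⟨f.symm b, (h _).2 ?_⟩
      rw [Equiv.apply_symm_apply]
      exact hb'
  | exN m φ ih =>
    intro hb P u ν β β' hk hR hβ
    simp only [Nd] at hk
    show (∃ j : ℕ, j ≤ Nat.card A ∧ _) ↔ (∃ j : ℕ, j ≤ Nat.card B ∧ _)
    rw [hc]
    exact exists_congr fun j => and_congr Iff.rfl (ih hb P u _ β β' (by omega) hR hβ)
  | cnt x φ m ih =>
    intro hb P u ν β β' hk hR hβ
    simp only [Nd] at hk
    obtain ⟨f, hf⟩ := hex P u x (by omega) hR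
    have h : ∀ a, φ.eval 𝔄 (Function.update (fun y => (u y).1) x a) ν β ↔
        φ.eval 𝔅 (Function.update (fun y => (u y).2) x (f a)) ν β' := by
      intro a
      rw [(upd_pair u x a (f a)).1, (upd_pair u x a (f a)).2]
      exact ih hb P _ ν β β' (by omega) (hf a) hβ
    show {a : A | φ.eval 𝔄 (Function.update (fun y => (u y).1) x a) ν β}.ncard = ν m ↔
      {b : B | φ.eval 𝔅 (Function.update (fun y => (u y).2) x b) ν β'}.ncard = ν m
    have hS : {b : B | φ.eval 𝔅 (Function.update (fun y => (u y).2) x b) ν β'} =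
        f '' {a : A | φ.eval 𝔄 (Function.update (fun y => (u y).1) x a) ν β} := by
      ext b
      simp only [Set.mem_ofPred_eq, Set.mem_image]
      constructor
      · intro hb'
        refine ⟨f.symm b, (h _).2 ?_, f.apply_symm_apply b⟩
        rw [Equiv.apply_symm_apply]
        exact hb'
      · rintro ⟨a, ha, rfl⟩
        exact (h a).1 ha
    rw [hS, Set.ncard_image_of_injective _ f.injective]
  | ifp X ys φ ts ih =>
    intro hb P u ν β β' hk hR hβ
    simp only [Nd] at hk
    set P' : List (A × B) := (List.range n).map u ++ P with hP'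
    have hP'l : P'.length = n + P.length := by simp [hP']
    set F : (List (A ⊕ ℕ) → Prop) → List (A ⊕ ℕ) → Prop := fun Q l => Fits (Nat.card A) ys l ∧
        φ.eval 𝔄 (updE (fun x => (u x).1) ys l) (updN ν ys l)
          (Function.update β X (Function.update (β X) (sorts ys) Q)) with hF
    set F' : (List (B ⊕ ℕ) → Prop) → List (B ⊕ ℕ) → Prop := fun Q l => Fits (Nat.card B) ys l ∧
        φ.eval 𝔅 (updE (fun x => (u x).2) ys l) (updN ν ys l)
          (Function.update β' X (Function.update (β' X) (sorts ys) Q)) with hF'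
    have key : ∀ j : ℕ, ∀ (S : List (A × B)) (l : List ((A × B) ⊕ ℕ)), Rl Z S → P' ⊆ S →
        (∀ p, Sum.inl p ∈ l → p ∈ S) →
        (stage F j (l.map (Sum.map Prod.fst id)) ↔ stage F' j (l.map (Sum.map Prod.snd id))) := by
      intro j
      induction j with
      | zero => intro S l _ _ _; exact Iff.rfl
      | succ j ihj =>
        intro S l hS hPS hlS
        show (stage F j _ ∨ F (stage F j) _) ↔ (stage F' j _ ∨ F' (stage F' j) _)
        refine or_congr (ihj S l hS hPS hlS) ?_
        refine and_congr (by rw [fits_map, fits_map, hc]) ?_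
        rw [updE_map Prod.fst id ys l u, updE_map Prod.snd id ys l u, updN_map, updN_map]
        apply ih hb.2 P' (updE u ys l) (updN ν ys l)
        · omega
        · refine hS.mono ?_
          intro p hp
          rcases List.mem_append.1 hp with h | h
          · obtain ⟨y, hy, rfl⟩ := List.mem_map.1 h
            rcases updE_mem ys l u y with h' | h'
            · rw [h']
              exact hPS (List.mem_append_left _ (List.mem_map.2 ⟨y, hy, rfl⟩))
            · exact hlS _ h'
          · exact hPS h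
        · intro X'
          by_cases hX : X' = X
          · rw [hX, Function.update_self, Function.update_self]
            intro S' l' hS' hPS' hlS'
            by_cases hs : sorts l' = sorts ys
            · rw [hs, Function.update_self, Function.update_self]
              exact ihj S' l' hS' hPS' hlS'
            · rw [Function.update_of_ne hs, Function.update_of_ne hs]
              exact hβ X S' l' hS' (fun p hp => hPS' (List.mem_append_right _ hp)) hlS'
          · rw [Function.update_of_ne hX, Function.update_of_ne hX]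
            intro S' l' hS' hPS' hlS'
            exact hβ X' S' l' hS' (fun p hp => hPS' (List.mem_append_right _ hp)) hlS'
    show (∃ j, stage F j (ts.map (Sum.map (fun x => (u x).1) ν))) ↔
      (∃ j, stage F' j (ts.map (Sum.map (fun x => (u x).2) ν)))
    refine exists_congr fun j => ?_
    have h := key j P' (ts.map (Sum.map u ν)) hR (fun _ h => h) (by
      intro p hp
      obtain ⟨t, ht, htp⟩ := List.mem_map.1 hp
      rcases t with t | t
      · have : u t = p := Sum.inl.inj htp
        subst this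
        exact List.mem_append_left _ (List.mem_map.2 ⟨t, List.mem_range.2 (hb.1 t ht), rfl⟩)
      · simp at htp)
    rw [List.map_map, List.map_map, Sum.map_comp_map, Sum.map_comp_map] at h
    exact h

end XGAME

theorem GAME_pf : S_GAME := by
  intro σ 𝒦 hk hF
  obtain ⟨φ, hφ⟩ := hF
  obtain ⟨n, hn⟩ := XGAME.exists_bd φ
  obtain ⟨A, B, hA, hB, 𝔄, 𝔅, Z, hZ, ⟨v, w, hz⟩, hKA, hKB⟩ := hk (XGAME.Nd n φ + 1)
  let i0 : Fin (XGAME.Nd n φ + 1) := 0
  have : Nonempty A := ⟨v i0⟩
  have : Nonempty B := ⟨w i0⟩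
  have hc : Nat.card A = Nat.card B := by
    obtain ⟨f, -⟩ := hZ.forth v w hz i0
    exact Nat.card_congr f
  have h := XGAME.main hZ hc n φ hn [] (fun _ => (v i0, w i0)) (fun _ => 0) (fun _ _ _ => False)
    (fun _ _ _ => False) (by simp) ⟨v, w, hz, by
      intro s hs
      simp at hs
      exact ⟨i0, hs.2⟩⟩ (fun X S l _ _ _ => Iff.rfl)
  have h1 := hφ A 𝔄 (fun _ => v i0) (fun _ => 0)
  have h2 := hφ B 𝔅 (fun _ => w i0) (fun _ => 0)
  exact hKB (h2.1 (h.1 (h1.2 hKA)))

end Pool.Agent.Work.MP_8dbde4_lc.Tree
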