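import Pool.Agent.Work.MP_8dbde4_lc.Tree.Stmts

/-!
The unary gadget (S_GU).
-/

set_option autoImplicit false
open Classical

namespace Pool.Agent.Work.MP_8dbde4_lc.Tree

open Pool.Agent.Work.MP_8dbde4_lc.TS

namespace XGU

variable {σ : Sig} {M : Type}

/-- A map which does not depend on the coordinates in `S` has the same value on two tuples which
agree outside `S`. -/
theorem agree {I : Type} (f : (I → M) → M) (S : Finset I) :
    (∀ i ∈ S, ¬ Dep f i) → ∀ x y : I → M, (∀ i, i ∉ S → x i = y i) → f x = f y := by
  induction S using Finset.induction_on with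
  | empty =>
    intro _ x y h
    have : x = y := funext fun i => h i (by simp)
    rw [this]
  | insert i S hi ih =>
    intro hS x y h
    have h1 : f x = f (Function.update x i (y i)) := by
      by_contra hne
      apply hS i (Finset.mem_insert_self i S)
      refine ⟨x, x i, y i, ?_⟩
      rw [Function.update_eq_self]
      exact hne
    rw [h1]
    apply ih (fun j hj => hS j (Finset.mem_insert_of_mem hj))
    intro j hj
    by_cases hji : j = i
    · subst hji
      simp
    · rw [Function.update_of_ne hji]
      apply h
      simp only [Finset.mem_insert, not_or]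
      exact ⟨hji, hj⟩

/-- The shape of the polymorphisms. -/
theorem shape {I : Type} [Finite I] (F : Fam σ M) (hTP : TP F)
    (hno : ¬ ∃ (I : Type) (_ : Finite I) (f : (I → M) → M) (i j : I),
      F.Pol f ∧ i ≠ j ∧ Dep f i ∧ Dep f j) (m₀ : M) (f : (I → M) → M) (hf : F.Pol f) :
    (∃ c, ∀ t, f t = c) ∨ ∃ (i : I) (k : M → M), Function.Injective k ∧ ∀ t, f t = k (t i) := by
  haveI := Fintype.ofFinite I
  by_cases hd : ∃ i, Dep f i
  · right
    obtain ⟨i, hi⟩ := hd
    refine ⟨i, fun m => f (Function.update (fun _ => m₀) i m), ?_, ?_⟩
    · intro a b hab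
      exact hTP I f hf i hi _ a b hab
    · intro t
      apply agree f (Finset.univ.erase i)
      · intro j hj hDj
        apply hno
        refine ⟨I, inferInstance, f, i, j, hf, ?_, hi, hDj⟩
        exact (Finset.ne_of_mem_erase hj).symm
      · intro j hj
        have hji : j = i := by
          by_contra hne
          exact hj (Finset.mem_erase.mpr ⟨hne, Finset.mem_univ j⟩)
        subst hji
        simp
  · left
    refine ⟨f (fun _ => m₀), fun t => ?_⟩
    apply agree f Finset.univ
    · intro i _ hi
      exact hd ⟨i, hi⟩
    · intro i hi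
      exact absurd (Finset.mem_univ i) hi

theorem z2 (s : ZMod 2) : s = 0 ∨ s = 1 := by
  revert s; decide

/-- The gadget. -/
def gad (x₀ x₁ : M) : Gad M 2 (ZMod 2 × ZMod 2) where
  io s := if s = 0 then x₀ else x₁
  u s := fun _ => if s = 0 then x₀ else x₁
  x s := fun i => if s + i.1 = 0 then x₀ else x₁
  y s := fun i => if s + i.2 = 0 then x₀ else x₁
  z s := fun i => if s + i.1 + i.2 = 0 then x₀ else x₁

end XGU

open XGU in
theorem GU_pf (hI : S_INJ) : S_GU := by
  intro σ M _ F hM hTP hno
  obtain ⟨x₀, x₁, h01⟩ := hM
  refine ⟨gad x₀ x₁, ?_, ?_, ?_⟩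
  · simpa [gad] using h01
  · intro α β
    refine ⟨fun t => t (α, β), ?_, ?_⟩
    · intro R t ht
      exact ht (α, β)
    · intro s
      simp [gad]
  · intro G _ _ g h hG H f hpol heq
    have hsh := fun v α β => shape F hTP hno x₀ (f v α β) (hpol v α β)
    have hne : (1 : ZMod 2) ≠ 0 := by decide
    by_cases hH : H 1 0 = H 1 1
    · have hconst : ∀ v α β t, f v α β t = H 1 0 := by
        intro v α β t
        rcases hsh v α β with ⟨c, hc⟩ | ⟨i, k, hk, hkt⟩
        · rw [hc t, ← hc ((gad x₀ x₁).u 0)]
          exact (heq v α β 0).1
        · exfalso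
          have e0 := (heq v α β 0).1
          have e1 := (heq v α β 1).1
          rw [hkt] at e0 e1
          have : k ((gad x₀ x₁).u 0 i) = k ((gad x₀ x₁).u 1 i) := by
            rw [e0, e1, hH]
          have := hk this
          simp [gad] at this
          exact h01 this
      refine ⟨H 1 0, ?_, hconst⟩
      intro v s
      have := (heq v 0 0 s).2.1
      rw [add_zero] at this
      rw [← this]
      exact hconst v 0 0 _
    · exfalso
      have hinj : ∀ s s', H 1 s = H 1 s' → s = s' := by
        intro s s' hs
        rcases z2 s with rfl | rfl <;> rcases z2 s' with rfl | rfl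
        · rfl
        · exact absurd hs hH
        · exact absurd hs.symm hH
        · rfl
      -- for each `v` the shifts
      have hab : ∀ v, ∃ a b : ZMod 2, (∀ s, H v s = H 1 (s + a)) ∧
          (∀ s, H (v * g) s = H 1 (s + b)) ∧ ∀ s, H (v * h) (s - 1) = H 1 (s + a + b) := by
        intro v
        rcases hsh v 0 0 with ⟨c, hc⟩ | ⟨⟨a, b⟩, k, hk, hkt⟩
        · exfalso
          apply hH
          rw [← (heq v 0 0 0).1, ← (heq v 0 0 1).1, hc, hc]
        · refine ⟨a, b, ?_, ?_, ?_⟩
          · intro s
            have e1 := (heq v 0 0 s).2.1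
            have e2 := (heq v 0 0 (s + a)).1
            rw [add_zero] at e1
            rw [← e1, ← e2, hkt, hkt]
            rfl
          · intro s
            have e1 := (heq v 0 0 s).2.2.1
            have e2 := (heq v 0 0 (s + b)).1
            rw [add_zero] at e1
            rw [← e1, ← e2, hkt, hkt]
            rfl
          · intro s
            have e1 := (heq v 0 0 s).2.2.2
            have e2 := (heq v 0 0 (s + a + b)).1
            rw [add_zero, add_zero] at e1
            rw [← e1, ← e2, hkt, hkt]
            rfl
      choose a b ha hb hc using hab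
      have ha1 : a 1 = 0 := by
        have := ha 1 0
        rw [zero_add] at this
        exact (hinj _ _ this).symm
      have hg : ∀ v, a (v * g) = b v := by
        intro v
        have e1 := ha (v * g) 0
        have e2 := hb v 0
        rw [zero_add] at e1 e2
        rw [e1] at e2
        exact hinj _ _ e2
      have hh : ∀ v, a (v * h) - 1 = a v + b v := by
        intro v
        have e1 := ha (v * h) (0 - 1)
        have e2 := hc v 0
        rw [e1] at e2
        have := hinj _ _ e2
        rw [zero_add, zero_sub] at this
        rw [← this]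
        ring
      have key := hI 2 (ZMod 2) G g h (fun v => a v + 1) Nat.prime_two (by decide) hG (by
        intro v
        show a v + 1 + (a (v * g) + 1) = a (v * h) + 1
        have e := hh v
        have h11 : (1 : ZMod 2) + 1 = 0 := by decide
        rw [hg v]
        calc a v + 1 + (b v + 1) = (a v + b v) + (1 + 1) := by ring
          _ = a (v * h) - 1 + (1 + 1) := by rw [e]
          _ = a (v * h) + 1 := by ring) 1
      simp only [ha1, zero_add] at key
      exact hne key

end Pool.Agent.Work.MP_8dbde4_lc.Tree
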