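import Pool.Agent.Work.MP_8dbde4_lc.Tree.Stmts

set_option autoImplicit false
open Classical

namespace Pool.Agent.Work.MP_8dbde4_lc.Tree

namespace XINJ

variable {M G : Type} [AddCommGroup M] [Group G]

/-- The solutions of the homogeneous system. -/
def Sol (M : Type) [AddCommGroup M] (g h : G) : AddSubgroup (G → M) where
  carrier := {y | ∀ v, y v + y (v * g) = y (v * h)}
  zero_mem' := by intro v; simp
  add_mem' := by
    intro a b ha hb v
    have h1 := ha v
    have h2 := hb v
    simp only [Pi.add_apply]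
    rw [← h1, ← h2]
    abel
  neg_mem' := by
    intro a ha v
    have h1 := ha v
    simp only [Pi.neg_apply]
    rw [← h1]
    abel

/-- Left translations act on the solutions. -/
noncomputable instance act (g h : G) : MulAction G (Sol M g h) where
  smul a y := ⟨fun v => y.1 (a⁻¹ * v), by
    intro v
    have h0 : y.1 (a⁻¹ * v) + y.1 (a⁻¹ * v * g) = y.1 (a⁻¹ * v * h) := y.2 (a⁻¹ * v)
    show y.1 (a⁻¹ * v) + y.1 (a⁻¹ * (v * g)) = y.1 (a⁻¹ * (v * h))
    rw [← mul_assoc, ← mul_assoc]
    exact h0⟩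
  one_smul y := by
    apply Subtype.ext
    funext v
    show y.1 (1⁻¹ * v) = y.1 v
    rw [inv_one, one_mul]
  mul_smul a b y := by
    apply Subtype.ext
    funext v
    show y.1 ((a * b)⁻¹ * v) = y.1 (b⁻¹ * (a⁻¹ * v))
    rw [mul_inv_rev, mul_assoc]

theorem smul_apply (g h : G) (a : G) (y : Sol M g h) (v : G) :
    (a • y).1 v = y.1 (a⁻¹ * v) := rfl

end XINJ

open XINJ in
theorem INJ_pf : S_INJ := by
  intro p M G _ _ _ _ g h y hp hM hG hy
  by_contra hne
  push Not at hne
  obtain ⟨v0, hv0⟩ := hne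
  have : Fact p.Prime := ⟨hp⟩
  let y0 : Sol M g h := ⟨y, hy⟩
  have hy0 : y0 ≠ 0 := by
    intro h0
    apply hv0
    have h1 : y0.1 v0 = 0 := by rw [h0]; rfl
    exact h1
  have hord : addOrderOf y0 = p := by
    apply addOrderOf_eq_prime _ hy0
    apply Subtype.ext
    funext v
    show (p • y0.1) v = 0
    rw [Pi.smul_apply]
    exact hM _
  have : Finite (G → M) := inferInstance
  have : Finite (Sol M g h) := inferInstance
  have hdvd : p ∣ Nat.card (Sol M g h) := by
    rw [← hord]
    exact addOrderOf_dvd_natCard y0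
  have hfix : (0 : Sol M g h) ∈ MulAction.fixedPoints G (Sol M g h) := by
    intro a
    apply Subtype.ext
    funext v
    rfl
  obtain ⟨b, hb, hb0⟩ :=
    hG.exists_fixed_point_of_prime_dvd_card_of_fixed_point (Sol M g h) hdvd hfix
  have hconst : ∀ v, b.1 v = b.1 1 := by
    intro v
    have h1 := congrArg (fun z : Sol M g h => z.1 v) (hb v)
    simp only [XINJ.smul_apply] at h1
    rw [← h1, inv_mul_cancel]
  have hz : b.1 1 = 0 := by
    have h1 : b.1 1 + b.1 (1 * g) = b.1 (1 * h) := b.2 1
    rw [hconst (1 * g), hconst (1 * h)] at h1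
    simpa using h1
  apply hb0
  apply Subtype.ext
  funext v
  show (0 : G → M) v = b.1 v
  rw [hconst v, hz]
  rfl

end Pool.Agent.Work.MP_8dbde4_lc.Tree
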