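import Pool.Agent.Work.MP_8dbde4_lc.Tree.Stmts

/-!
# Tree block, item MALT
-/

set_option autoImplicit false

open Classical

namespace Pool.Agent.Work.MP_8dbde4_lc.Tree

open Pool.Agent.Work.MP_8dbde4_lc.TS

namespace XMALT

variable {σ : Sig} {M : Type}

/-- Binary polymorphisms. -/
def Pol2 (F : Fam σ M) (g : M → M → M) : Prop :=
  ∀ (R : σ.S) (p q : Fin (σ.ar R) → M), F.P R p → F.P R q → F.P R (fun j => g (p j) (q j))

lemma pol2_iter (F : Fam σ M) {g : M → M → M} (hg : Pol2 F g) (k : ℕ) :
    Pol2 F (fun x y => (fun z => g z y)^[k] x) := by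
  intro R p q hp hq
  induction k with
  | zero => simpa using hp
  | succ k ih =>
    have h := hg R _ _ ih hq
    have e : (fun j => (fun z => g z (q j))^[k + 1] (p j)) =
        fun j => g ((fun z => g z (q j))^[k] (p j)) (q j) := by
      funext j
      rw [Function.iterate_succ_apply']
    rw [e]
    exact h

lemma pol2_swap (F : Fam σ M) {g : M → M → M} (hg : Pol2 F g) : Pol2 F (fun x y => g y x) :=
  fun R p q hp hq => hg R q p hq hp

lemma iter_card [Finite M] (s : M → M) (hs : Function.Injective s) (x : M) :
    s ((s^[Nat.card (Equiv.Perm M) - 1]) x) = x := by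
  have hb : Function.Bijective s := Finite.injective_iff_bijective.1 hs
  let e : Equiv.Perm M := Equiv.ofBijective s hb
  have h1 : e ^ Nat.card (Equiv.Perm M) = 1 := pow_card_eq_one'
  have hpos : 0 < Nat.card (Equiv.Perm M) := Nat.card_pos
  obtain ⟨n, hn⟩ : ∃ n, Nat.card (Equiv.Perm M) = n + 1 := ⟨_, (Nat.succ_pred_eq_of_pos hpos).symm⟩
  rw [hn] at h1 ⊢
  rw [Nat.add_sub_cancel, ← Function.iterate_succ_apply' s n x]
  have h2 : ∀ k : ℕ, ⇑(e ^ k) = s^[k] := by
    intro k
    induction k with
    | zero => rfl
    | succ k ih =>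
      rw [pow_succ, Equiv.Perm.coe_mul, ih, Function.iterate_succ]
      rfl
  have h3 : (e ^ (n + 1)) x = x := by rw [h1]; rfl
  rw [h2] at h3
  exact h3

/-- Solving `g(·, y) = x`. -/
noncomputable def dv (g : M → M → M) (x y : M) : M :=
  (fun z => g z y)^[Nat.card (Equiv.Perm M) - 1] x

lemma dv_spec [Finite M] (g : M → M → M) (h : ∀ y, Function.Injective (fun z => g z y)) (x y : M) :
    g (dv g x y) y = x := iter_card (fun z => g z y) (h y) x

lemma dv_pol (F : Fam σ M) {g : M → M → M} (hg : Pol2 F g) : Pol2 F (dv g) :=
  pol2_iter F hg _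

end XMALT

open XMALT

theorem MALT_pf : S_MALT := by
  intro σ M _ F hTP ⟨I, _, f, i, j, hf, hij, hi, hj⟩
  obtain ⟨z0, -, -, -⟩ := id hi
  let g : M → M → M := fun x y => f (Function.update (Function.update z0 i x) j y)
  have hg : Pol2 F g := by
    intro R p q hp hq
    refine hf R (fun k => Function.update (Function.update z0 i (p k)) j (q k)) ?_
    intro l
    by_cases hl : l = j
    · subst hl
      simpa using hq
    · by_cases hl' : l = i
      · subst hl'
        have : (fun k => Function.update (Function.update z0 l (p k)) j (q k) l) = p := by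
          funext k
          rw [Function.update_of_ne hl, Function.update_self]
        rw [this]
        exact hp
      · have : (fun k => Function.update (Function.update z0 i (p k)) j (q k) l) =
            fun _ => z0 l := by
          funext k
          rw [Function.update_of_ne hl, Function.update_of_ne hl']
        rw [this]
        exact F.const R _
  have g1 : ∀ y, Function.Injective (fun z => g z y) := by
    intro y a b hab
    refine hTP I f hf i hi (Function.update z0 j y) a b ?_
    have e : ∀ a, Function.update (Function.update z0 j y) i a =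
        Function.update (Function.update z0 i a) j y := fun a =>
      Function.update_comm (Ne.symm hij) y a z0
    rw [e, e]
    exact hab
  have g2 : ∀ y, Function.Injective (fun z => g y z) := by
    intro y a b hab
    exact hTP I f hf j hj (Function.update z0 i y) a b hab
  let g' : M → M → M := fun x y => g y x
  have hg' : Pol2 F g' := pol2_swap F hg
  -- `dv g x y = x / y`, `dv g' x y = y \ x`
  refine ⟨fun x y z => g (dv g x (dv g' y y)) (dv g' z y), ?_, ?_, ?_⟩
  · intro R p q r hp hq hr
    exact hg R _ _ (dv_pol F hg R _ _ hp (dv_pol F hg' R _ _ hq hq)) (dv_pol F hg' R _ _ hr hq)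
  · intro x z
    have h1 : g (dv g x (dv g' x x)) (dv g' x x) = x := dv_spec g g1 _ _
    have h2 : g x (dv g' x x) = x := dv_spec g' g2 x x
    have h3 : dv g x (dv g' x x) = x := g1 (dv g' x x) (h1.trans h2.symm)
    show g (dv g x (dv g' x x)) (dv g' z x) = z
    rw [h3]
    exact dv_spec g' g2 z x
  · intro x z
    exact dv_spec g g1 _ _

end Pool.Agent.Work.MP_8dbde4_lc.Tree
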