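import Pool.Agent.Work.MP_8dbde4_lc.Tree.Stmts

/-!
# Item PGRP of the block [8dbde4 TR]: finite `p`-groups of large girth
-/

set_option autoImplicit false
open Classical

namespace Pool.Agent.Work.MP_8dbde4_lc.Tree

open Pool.Agent.Work.MP_8dbde4_lc.TS

namespace XPGRP

open Matrix

theorem sl_ext {R : Type} [CommRing R] (x y : SpecialLinearGroup (Fin 2) R)
    (h : ∀ i k, (x : Matrix (Fin 2) (Fin 2) R) i k = (y : Matrix (Fin 2) (Fin 2) R) i k) :
    x = y := Matrix.SpecialLinearGroup.ext x y h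

/-- powers of integer matrices `≡ 1 mod p` -/
theorem pow_cong (p : ℕ) (N : Matrix (Fin 2) (Fin 2) ℤ) (k : ℕ) :
    ∃ Q : Matrix (Fin 2) (Fin 2) ℤ,
      (1 + (p : Matrix (Fin 2) (Fin 2) ℤ) * N) ^ p ^ k =
        1 + (p : Matrix (Fin 2) (Fin 2) ℤ) ^ (k + 1) * Q := by
  have h1 : ((p : ℕ) : Polynomial ℤ) ∣ (1 + (p : Polynomial ℤ) * Polynomial.X) - 1 := by
    rw [add_sub_cancel_left]
    exact Dvd.intro _ rfl
  obtain ⟨q, hq⟩ := dvd_sub_pow_of_dvd_sub h1 k
  refine ⟨Polynomial.aeval N q, ?_⟩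
  have h2 := congrArg (Polynomial.aeval N) hq
  simp only [map_sub, map_pow, map_add, map_one, map_mul, map_natCast, Polynomial.aeval_X,
    one_pow] at h2
  rw [← h2]
  abel

/-- an element of the kernel of the reduction mod `p` is `1 + p N` -/
theorem ker_form (p : ℕ) (x : SpecialLinearGroup (Fin 2) ℤ)
    (hx : SpecialLinearGroup.map (Int.castRingHom (ZMod p)) x = 1) :
    ∃ N : Matrix (Fin 2) (Fin 2) ℤ, (x : Matrix (Fin 2) (Fin 2) ℤ) =
      1 + (p : Matrix (Fin 2) (Fin 2) ℤ) * N := by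
  have h1 : ∀ i j, (p : ℤ) ∣ (x : Matrix (Fin 2) (Fin 2) ℤ) i j -
      (1 : Matrix (Fin 2) (Fin 2) ℤ) i j := by
    intro i j
    rw [← ZMod.intCast_zmod_eq_zero_iff_dvd]
    have h2 := congrArg (fun y : SpecialLinearGroup (Fin 2) (ZMod p) =>
      (y : Matrix (Fin 2) (Fin 2) (ZMod p)) i j) hx
    simp only [Matrix.SpecialLinearGroup.map_apply_coe, RingHom.mapMatrix_apply, Matrix.map_apply,
      Matrix.SpecialLinearGroup.coe_one, Int.coe_castRingHom] at h2
    push_cast
    rw [h2]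
    by_cases hij : i = j
    · subst hij; simp
    · simp [hij]
  choose N hN using h1
  refine ⟨Matrix.of N, ?_⟩
  ext i j
  have h3 : ((p : Matrix (Fin 2) (Fin 2) ℤ) * Matrix.of N) i j = (p : ℤ) * N i j := by
    rw [← nsmul_eq_mul]
    simp
  have h4 := hN i j
  rw [Matrix.add_apply, h3, ← h4]
  ring

/-- kernel elements have `p`-power order in `SL(2, ZMod (p^j))` -/
theorem pow_eq_one (p j : ℕ) (x : SpecialLinearGroup (Fin 2) ℤ)
    (hx : SpecialLinearGroup.map (Int.castRingHom (ZMod p)) x = 1) :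
    (SpecialLinearGroup.map (Int.castRingHom (ZMod (p ^ j))) x) ^ p ^ j = 1 := by
  obtain ⟨N, hN⟩ := ker_form p x hx
  obtain ⟨Q, hQ⟩ := pow_cong p N j
  rw [← map_pow]
  apply sl_ext
  intro i k
  rw [Matrix.SpecialLinearGroup.map_apply_coe, RingHom.mapMatrix_apply, Matrix.map_apply,
    Matrix.SpecialLinearGroup.coe_pow, hN, hQ, Matrix.SpecialLinearGroup.coe_one, Matrix.add_apply, map_add]
  have h1 : ((p : Matrix (Fin 2) (Fin 2) ℤ) ^ (j + 1) * Q) i k = (p : ℤ) ^ (j + 1) * Q i k := by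
    have : (p : Matrix (Fin 2) (Fin 2) ℤ) ^ (j + 1) * Q = (p ^ (j + 1) : ℕ) • Q := by
      rw [nsmul_eq_mul]
      push_cast
      rfl
    rw [this]
    simp
  have h2 : ((p : ZMod (p ^ j)) ^ j) = 0 := by
    have := ZMod.natCast_self (p ^ j)
    push_cast at this
    exact this
  rw [h1]
  simp only [Int.coe_castRingHom, Int.cast_mul, Int.cast_pow, Int.cast_natCast]
  rw [pow_succ, h2, zero_mul, zero_mul, add_zero]
  by_cases hik : i = k
  · subst hik; simp
  · simp [hik]

end XPGRP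

open XPGRP Matrix in
/-- **Item PGRP.** -/
theorem PGRP_pf (h1 : S_PING) : S_PGRP := by
  intro p n hp
  have hp2 : 2 ≤ p := hp.two_le
  set m : ℤ := (p : ℤ) ^ 2 with hm
  have hm4 : 4 ≤ m := by
    have : (2 : ℤ) ≤ p := by exact_mod_cast hp2
    rw [hm]
    nlinarith
  set Φ : FreeGroup Bool →* SpecialLinearGroup (Fin 2) ℤ :=
    FreeGroup.lift (fun b : Bool => cond b (mA m) (mB m)) with hΦ
  have hinj : Function.Injective Φ := h1 m hm4
  -- the finitely many short words
  set S : Set (FreeGroup Bool) := {w | w.toWord.length ≤ n} with hS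
  have hSfin : S.Finite := by
    have h2 : ({l : List (Bool × Bool) | l.length ≤ n}).Finite := List.finite_length_le _ n
    exact h2.preimage (f := FreeGroup.toWord) (FreeGroup.toWord_injective.injOn)
  obtain ⟨B, hB⟩ : ∃ B : ℕ, ∀ w ∈ S, ∀ i k : Fin 2,
      ((Φ w : Matrix (Fin 2) (Fin 2) ℤ) i k - (1 : Matrix (Fin 2) (Fin 2) ℤ) i k).natAbs ≤ B := by
    have h3 : (⋃ i : Fin 2, ⋃ k : Fin 2, (fun w : FreeGroup Bool =>
        ((Φ w : Matrix (Fin 2) (Fin 2) ℤ) i k -
          (1 : Matrix (Fin 2) (Fin 2) ℤ) i k).natAbs) '' S).Finite :=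
      Set.finite_iUnion fun i => Set.finite_iUnion fun k => hSfin.image _
    obtain ⟨B, hB⟩ := h3.bddAbove
    refine ⟨B, fun w hw i k => hB ?_⟩
    simp only [Set.mem_iUnion, Set.mem_image]
    exact ⟨i, k, w, hw, rfl⟩
  set j := B with hj
  have hjB : B < p ^ j := Nat.lt_pow_self hp.one_lt
  have : NeZero (p ^ j) := ⟨(pow_pos hp.pos j).ne'⟩
  set red : SpecialLinearGroup (Fin 2) ℤ →* SpecialLinearGroup (Fin 2) (ZMod (p ^ j)) :=
    SpecialLinearGroup.map (Int.castRingHom (ZMod (p ^ j))) with hred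
  set φ : FreeGroup Bool →* SpecialLinearGroup (Fin 2) (ZMod (p ^ j)) := red.comp Φ with hφ
  have hker : ∀ w, SpecialLinearGroup.map (Int.castRingHom (ZMod p)) (Φ w) = 1 := by
    intro w
    have h5 : ((p : ZMod p)) = 0 := ZMod.natCast_self p
    have hA : SpecialLinearGroup.map (Int.castRingHom (ZMod p)) (mA m) = 1 := by
      apply sl_ext
      intro i k
      rw [Matrix.SpecialLinearGroup.map_apply_coe, RingHom.mapMatrix_apply, Matrix.map_apply,
        Matrix.SpecialLinearGroup.coe_one]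
      fin_cases i <;> fin_cases k <;> simp [mA, hm, h5]
    have hB' : SpecialLinearGroup.map (Int.castRingHom (ZMod p)) (mB m) = 1 := by
      apply sl_ext
      intro i k
      rw [Matrix.SpecialLinearGroup.map_apply_coe, RingHom.mapMatrix_apply, Matrix.map_apply,
        Matrix.SpecialLinearGroup.coe_one]
      fin_cases i <;> fin_cases k <;> simp [mB, hm, h5]
    have h4 : (SpecialLinearGroup.map (Int.castRingHom (ZMod p))).comp Φ = 1 := by
      apply FreeGroup.ext_hom
      intro b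
      rw [MonoidHom.comp_apply, hΦ, FreeGroup.lift_apply_of, MonoidHom.one_apply]
      cases b
      · exact hB'
      · exact hA
    exact DFunLike.congr_fun h4 w
  refine ⟨φ.range, inferInstance, inferInstance, ⟨φ (FreeGroup.of true), ⟨_, rfl⟩⟩,
    ⟨φ (FreeGroup.of false), ⟨_, rfl⟩⟩, ?_, ?_⟩
  · rintro ⟨x, w, rfl⟩
    refine ⟨j, ?_⟩
    apply Subtype.ext
    rw [Subgroup.coe_pow]
    exact pow_eq_one p j (Φ w) (hker w)
  · intro w hw hwn hone
    have h6 : φ w = 1 := by
      have h7 : (φ.range.subtype).comp (FreeGroup.lift (fun b : Bool => cond b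
          (⟨φ (FreeGroup.of true), ⟨_, rfl⟩⟩ : φ.range)
          (⟨φ (FreeGroup.of false), ⟨_, rfl⟩⟩ : φ.range))) = φ := by
        apply FreeGroup.ext_hom
        intro b
        rw [MonoidHom.comp_apply, FreeGroup.lift_apply_of]
        cases b <;> rfl
      rw [← h7, MonoidHom.comp_apply, hone, map_one]
    have h8 : Φ w ≠ 1 := fun h => hw (hinj (by rw [h, map_one]))
    apply h8
    apply sl_ext
    intro i k
    rw [Matrix.SpecialLinearGroup.coe_one]
    have h9 := congrArg (fun y : SpecialLinearGroup (Fin 2) (ZMod (p ^ j)) =>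
      (y : Matrix (Fin 2) (Fin 2) (ZMod (p ^ j))) i k) h6
    simp only [hφ, hred, MonoidHom.comp_apply, Matrix.SpecialLinearGroup.map_apply_coe,
      RingHom.mapMatrix_apply, Matrix.map_apply, Matrix.SpecialLinearGroup.coe_one,
      Int.coe_castRingHom] at h9
    have h10 : (((Φ w : Matrix (Fin 2) (Fin 2) ℤ) i k -
        (1 : Matrix (Fin 2) (Fin 2) ℤ) i k : ℤ) : ZMod (p ^ j)) = 0 := by
      push_cast
      rw [h9]
      by_cases hik : i = k
      · subst hik; simp
      · simp [hik]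
    rw [ZMod.intCast_zmod_eq_zero_iff_dvd] at h10
    have h11 := hB w hwn i k
    have h12 : (Φ w : Matrix (Fin 2) (Fin 2) ℤ) i k - (1 : Matrix (Fin 2) (Fin 2) ℤ) i k = 0 := by
      apply Int.eq_zero_of_abs_lt_dvd h10
      rw [Int.abs_eq_natAbs]
      exact_mod_cast lt_of_le_of_lt h11 hjB
    exact sub_eq_zero.1 h12

end Pool.Agent.Work.MP_8dbde4_lc.Tree
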