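import Pool.Agent.Work.MP_8dbde4_lc.Tree.Stmts

/-!
Item PING of the block Tree of MP_8dbde4_lc: ping-pong for `1 + m E_12`, `1 + m E_21`, `m ≥ 4`.
-/

set_option autoImplicit false
open Classical

namespace Pool.Agent.Work.MP_8dbde4_lc.Tree

open scoped Pointwise

namespace XPING

/-- Non-zero integral vectors. -/
def V : Type := {v : ℤ × ℤ // v ≠ 0}

/-- The action on vectors. -/
def act (g : Matrix.SpecialLinearGroup (Fin 2) ℤ) (v : ℤ × ℤ) : ℤ × ℤ :=
  (g.1 0 0 * v.1 + g.1 0 1 * v.2, g.1 1 0 * v.1 + g.1 1 1 * v.2)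

theorem det2 (g : Matrix.SpecialLinearGroup (Fin 2) ℤ) :
    g.1 0 0 * g.1 1 1 - g.1 0 1 * g.1 1 0 = 1 := by
  have := g.2
  rw [Matrix.det_fin_two] at this
  exact this

theorem act_ne (g : Matrix.SpecialLinearGroup (Fin 2) ℤ) (v : ℤ × ℤ) (hv : v ≠ 0) :
    act g v ≠ 0 := by
  intro h
  apply hv
  have h1 : g.1 0 0 * v.1 + g.1 0 1 * v.2 = 0 := congrArg Prod.fst h
  have h2 : g.1 1 0 * v.1 + g.1 1 1 * v.2 = 0 := congrArg Prod.snd h
  have hd := det2 g
  refine Prod.ext ?_ ?_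
  · show v.1 = 0
    linear_combination g.1 1 1 * h1 - g.1 0 1 * h2 - v.1 * hd
  · show v.2 = 0
    linear_combination g.1 0 0 * h2 - g.1 1 0 * h1 - v.2 * hd

theorem act_one (v : ℤ × ℤ) : act 1 v = v := by
  unfold act
  refine Prod.ext ?_ ?_
  · show (1 : Matrix (Fin 2) (Fin 2) ℤ) 0 0 * v.1 + (1 : Matrix (Fin 2) (Fin 2) ℤ) 0 1 * v.2 = v.1
    simp
  · show (1 : Matrix (Fin 2) (Fin 2) ℤ) 1 0 * v.1 + (1 : Matrix (Fin 2) (Fin 2) ℤ) 1 1 * v.2 = v.2
    simp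

theorem act_mul (g h : Matrix.SpecialLinearGroup (Fin 2) ℤ) (v : ℤ × ℤ) :
    act (g * h) v = act g (act h v) := by
  unfold act
  refine Prod.ext ?_ ?_
  · show (g.1 * h.1) 0 0 * v.1 + (g.1 * h.1) 0 1 * v.2 = _
    rw [Matrix.mul_apply, Matrix.mul_apply, Fin.sum_univ_two, Fin.sum_univ_two]
    ring
  · show (g.1 * h.1) 1 0 * v.1 + (g.1 * h.1) 1 1 * v.2 = _
    rw [Matrix.mul_apply, Matrix.mul_apply, Fin.sum_univ_two, Fin.sum_univ_two]
    ring

instance : MulAction (Matrix.SpecialLinearGroup (Fin 2) ℤ) V where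
  smul g v := ⟨act g v.1, act_ne g v.1 v.2⟩
  one_smul v := Subtype.ext (act_one v.1)
  mul_smul g h v := Subtype.ext (act_mul g h v.1)

theorem smul_val (g : Matrix.SpecialLinearGroup (Fin 2) ℤ) (v : V) : (g • v).1 = act g v.1 := rfl

/-- The ping-pong sets. -/
def X (b : Bool) : Set V :=
  cond b {v | |v.1.2| < |v.1.1| ∧ (0 < v.1.1 * v.1.2 ∨ v.1.2 = 0)}
    {v | |v.1.1| < |v.1.2| ∧ (0 < v.1.1 * v.1.2 ∨ v.1.1 = 0)}

/-- The ping-pong sets. -/
def Y (b : Bool) : Set V :=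
  cond b {v | |v.1.2| < |v.1.1| ∧ v.1.1 * v.1.2 < 0} {v | |v.1.1| < |v.1.2| ∧ v.1.1 * v.1.2 < 0}

theorem inv_mA (m : ℤ) : (mA m)⁻¹ = mA (-m) := by
  apply inv_eq_of_mul_eq_one_right
  apply Subtype.ext
  show (!![1, m; 0, 1] : Matrix (Fin 2) (Fin 2) ℤ) * !![1, -m; 0, 1] = 1
  rw [Matrix.mul_fin_two, Matrix.one_fin_two]
  norm_num

theorem inv_mB (m : ℤ) : (mB m)⁻¹ = mB (-m) := by
  apply inv_eq_of_mul_eq_one_right
  apply Subtype.ext
  show (!![1, 0; m, 1] : Matrix (Fin 2) (Fin 2) ℤ) * !![1, 0; -m, 1] = 1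
  rw [Matrix.mul_fin_two, Matrix.one_fin_two]
  norm_num

theorem act_A (m : ℤ) (v : ℤ × ℤ) : act (mA m) v = (v.1 + m * v.2, v.2) := by
  unfold act
  refine Prod.ext ?_ ?_
  · show (1 : ℤ) * v.1 + m * v.2 = v.1 + m * v.2
    ring
  · show (0 : ℤ) * v.1 + 1 * v.2 = v.2
    ring

theorem act_B (m : ℤ) (v : ℤ × ℤ) : act (mB m) v = (v.1, m * v.1 + v.2) := by
  unfold act
  refine Prod.ext ?_ ?_
  · show (1 : ℤ) * v.1 + 0 * v.2 = v.1
    ring
  · show m * v.1 + 1 * v.2 = m * v.1 + v.2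
    ring

/-- The basic inequality. -/
theorem key (m x y : ℤ) (hm : 4 ≤ m) (hxy : ¬ (x = 0 ∧ y = 0))
    (h : ¬ (|y| < |x| ∧ x * y < 0)) :
    |y| < |x + m * y| ∧ (0 < (x + m * y) * y ∨ y = 0) := by
  by_cases hy : y = 0
  · rw [hy] at h ⊢
    have hx : x ≠ 0 := fun h0 => hxy ⟨h0, hy⟩
    refine ⟨?_, Or.inr rfl⟩
    rw [mul_zero, add_zero, abs_zero]
    exact abs_pos.2 hx
  · have hy2 : 0 < y * y := mul_self_pos.2 hy
    by_cases hx : |y| < |x|
    · have h1 : 0 ≤ x * y := by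
        by_contra hneg
        exact h ⟨hx, not_le.1 hneg⟩
      have h2 : 0 < (x + m * y) * y := by nlinarith
      refine ⟨?_, Or.inl h2⟩
      rw [← sq_lt_sq]
      rw [← sq_lt_sq] at hx
      nlinarith
    · rw [not_lt] at hx
      have h3 : x * y ≤ y * y ∧ -(y * y) ≤ x * y := by
        have e1 : |x * y| ≤ y * y := by
          rw [abs_mul, ← abs_mul_abs_self y]
          exact mul_le_mul_of_nonneg_right hx (abs_nonneg _)
        exact ⟨(abs_le.1 e1).2, (abs_le.1 e1).1⟩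
      have h2 : 0 < (x + m * y) * y := by nlinarith
      refine ⟨?_, Or.inl h2⟩
      have h5 : y * y < (x + m * y) * y := by nlinarith
      have h6 : |y| * |y| < |x + m * y| * |y| := by
        rw [abs_mul_abs_self, ← abs_mul, abs_of_pos h2]
        exact h5
      exact lt_of_mul_lt_mul_right h6 (abs_nonneg _)

theorem key' (m x y : ℤ) (hm : 4 ≤ m) (hxy : ¬ (x = 0 ∧ y = 0))
    (h : ¬ (|y| < |x| ∧ (0 < x * y ∨ y = 0))) :
    |y| < |x + (-m) * y| ∧ (x + (-m) * y) * y < 0 := by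
  have hy : y ≠ 0 := by
    intro hy
    apply h
    rw [hy]
    have hx : x ≠ 0 := fun h0 => hxy ⟨h0, hy⟩
    refine ⟨?_, Or.inr rfl⟩
    rw [abs_zero]
    exact abs_pos.2 hx
  have h1 := key m (-x) y hm (fun hh => hy hh.2) (by
    rintro ⟨h2, h3⟩
    rw [abs_neg] at h2
    exact h ⟨h2, Or.inl (by nlinarith)⟩)
  have e1 : x + (-m) * y = -(-x + m * y) := by ring
  rw [e1, abs_neg]
  refine ⟨h1.1, ?_⟩
  rcases h1.2 with h2 | h2
  · nlinarith
  · exact absurd h2 hy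

theorem vne (v : V) : ¬ (v.1.1 = 0 ∧ v.1.2 = 0) := by
  rintro ⟨h1, h2⟩
  exact v.2 (Prod.ext h1 h2)

end XPING

open XPING in
theorem PING_pf : S_PING := by
  intro m hm
  refine FreeGroup.injective_lift_of_ping_pong (α := V) (fun b : Bool => cond b (mA m) (mB m))
    X Y ?_ ?_ ?_ ?_ ?_ ?_
  · intro b
    cases b
    · exact ⟨⟨(0, 1), by simp⟩, by
        show |(0 : ℤ)| < |(1 : ℤ)| ∧ (0 < (0 : ℤ) * 1 ∨ (0 : ℤ) = 0)
        norm_num⟩
    · exact ⟨⟨(1, 0), by simp⟩, by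
        show |(0 : ℤ)| < |(1 : ℤ)| ∧ (0 < (1 : ℤ) * 0 ∨ (0 : ℤ) = 0)
        norm_num⟩
  · intro b b' hbb
    show Disjoint (X b) (X b')
    rw [Set.disjoint_left]
    intro v hv hv'
    cases b <;> cases b'
    · exact hbb rfl
    · exact absurd (lt_trans hv.1 hv'.1) (lt_irrefl _)
    · exact absurd (lt_trans hv.1 hv'.1) (lt_irrefl _)
    · exact hbb rfl
  · intro b b' hbb
    show Disjoint (Y b) (Y b')
    rw [Set.disjoint_left]
    intro v hv hv'
    cases b <;> cases b'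
    · exact hbb rfl
    · exact absurd (lt_trans hv.1 hv'.1) (lt_irrefl _)
    · exact absurd (lt_trans hv.1 hv'.1) (lt_irrefl _)
    · exact hbb rfl
  · intro b b'
    rw [Set.disjoint_left]
    intro v hv hv'
    cases b <;> cases b'
    · rcases hv.2 with h | h
      · exact absurd (lt_trans h hv'.2) (lt_irrefl _)
      · have h2 := hv'.2
        rw [h, zero_mul] at h2
        exact absurd h2 (lt_irrefl _)
    · exact absurd (lt_trans hv.1 hv'.1) (lt_irrefl _)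
    · exact absurd (lt_trans hv.1 hv'.1) (lt_irrefl _)
    · rcases hv.2 with h | h
      · exact absurd (lt_trans h hv'.2) (lt_irrefl _)
      · have h2 := hv'.2
        rw [h, mul_zero] at h2
        exact absurd h2 (lt_irrefl _)
  · intro b
    rintro _ ⟨v, hv, rfl⟩
    cases b
    · have h1 := key m v.1.2 v.1.1 hm (fun hh => vne v ⟨hh.2, hh.1⟩) (by
        intro hh
        apply hv
        exact ⟨hh.1, by rw [mul_comm]; exact hh.2⟩)
      show |(act (mB m) v.1).1| < |(act (mB m) v.1).2| ∧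
        (0 < (act (mB m) v.1).1 * (act (mB m) v.1).2 ∨ (act (mB m) v.1).1 = 0)
      rw [act_B]
      show |v.1.1| < |m * v.1.1 + v.1.2| ∧ (0 < v.1.1 * (m * v.1.1 + v.1.2) ∨ v.1.1 = 0)
      rw [add_comm (m * v.1.1) v.1.2, mul_comm v.1.1 (v.1.2 + m * v.1.1)]
      exact h1
    · have h1 := key m v.1.1 v.1.2 hm (vne v) (by
        intro hh
        apply hv
        exact hh)
      show |(act (mA m) v.1).2| < |(act (mA m) v.1).1| ∧
        (0 < (act (mA m) v.1).1 * (act (mA m) v.1).2 ∨ (act (mA m) v.1).2 = 0)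
      rw [act_A]
      exact h1
  · intro b
    rintro _ ⟨v, hv, rfl⟩
    cases b
    · have h1 := key' m v.1.2 v.1.1 hm (fun hh => vne v ⟨hh.2, hh.1⟩) (by
        intro hh
        apply hv
        exact ⟨hh.1, by rw [mul_comm]; exact hh.2⟩)
      show |(act (mB m)⁻¹ v.1).1| < |(act (mB m)⁻¹ v.1).2| ∧
        (act (mB m)⁻¹ v.1).1 * (act (mB m)⁻¹ v.1).2 < 0
      rw [inv_mB, act_B]
      show |v.1.1| < |(-m) * v.1.1 + v.1.2| ∧ v.1.1 * ((-m) * v.1.1 + v.1.2) < 0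
      rw [add_comm ((-m) * v.1.1) v.1.2, mul_comm v.1.1 (v.1.2 + (-m) * v.1.1)]
      exact h1
    · have h1 := key' m v.1.1 v.1.2 hm (vne v) (by
        intro hh
        apply hv
        exact hh)
      show |(act (mA m)⁻¹ v.1).2| < |(act (mA m)⁻¹ v.1).1| ∧
        (act (mA m)⁻¹ v.1).1 * (act (mA m)⁻¹ v.1).2 < 0
      rw [inv_mA, act_A]
      exact h1

end Pool.Agent.Work.MP_8dbde4_lc.Tree
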