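import Pool.Agent.Work.MP_8dbde4_lc.Tree.Stmts

/-!
# Tree block, item TWIN

The twin lemma for minimal sets.
-/

set_option autoImplicit false

open Classical

namespace Pool.Agent.Work.MP_8dbde4_lc.Tree

open Pool.Agent.Work.MP_8dbde4_lc.TS

namespace XTWIN

variable {σ : Sig} {M : Type}

/-- Binary polymorphisms. -/
def Pol2 (F : Fam σ M) (g : M → M → M) : Prop :=
  ∀ (R : σ.S) (p q : Fin (σ.ar R) → M), F.P R p → F.P R q → F.P R (fun j => g (p j) (q j))

lemma pol2_iter (F : Fam σ M) {g : M → M → M} (hg : Pol2 F g) (k : ℕ) :
    Pol2 F (fun x y => (fun z => g z y)^[k] x) := by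
  intro R p q hp hq
  induction k with
  | zero => simpa using hp
  | succ k ih =>
    have h := hg R _ _ ih hq
    have e : (fun j => (fun z => g z (q j))^[k + 1] (p j)) =
        fun j => g ((fun z => g z (q j))^[k] (p j)) (q j) := by
      funext j
      rw [Function.iterate_succ_apply']
    rw [e]
    exact h

lemma iter_id [Finite M] (s : M → M) (hs : Function.Injective s) (x : M) :
    s^[Nat.card (Equiv.Perm M)] x = x := by
  have hb : Function.Bijective s := Finite.injective_iff_bijective.1 hs
  let e : Equiv.Perm M := Equiv.ofBijective s hb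
  have h1 : e ^ Nat.card (Equiv.Perm M) = 1 := pow_card_eq_one'
  have h2 : ∀ k : ℕ, ⇑(e ^ k) = s^[k] := by
    intro k
    induction k with
    | zero => rfl
    | succ k ih =>
      rw [pow_succ, Equiv.Perm.coe_mul, ih, Function.iterate_succ]
      rfl
  rw [← h2, h1]
  rfl

lemma iter_const (s : M → M) (c : M) (hs : ∀ x, s x = c) (n : ℕ) (hn : 0 < n) (x : M) :
    s^[n] x = c := by
  obtain ⟨m, rfl⟩ : ∃ m, n = m + 1 := ⟨n - 1, by omega⟩
  rw [Function.iterate_succ_apply']
  exact hs _

/-- A unary section of a polymorphism is injective or constant. -/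
lemma sec (F : Fam σ M) (hmin : F.Min) {I : Type} (f : (I → M) → M) (hf : F.Pol f) (i : I)
    (z : I → M) : Function.Injective (fun u => f (Function.update z i u)) ∨
      ∃ c, ∀ u, f (Function.update z i u) = c := by
  refine hmin.2 (fun u => f (Function.update z i u)) ?_
  intro R p hp
  refine hf R (fun j => Function.update z i (p j)) ?_
  intro k
  by_cases hk : k = i
  · subst hk
    simpa using hp
  · simpa [Function.update_of_ne hk] using F.const R (z k)

/-- There is a binary polymorphism with an injective and a constant section. -/
lemma bin (F : Fam σ M) (hmin : F.Min) {I : Type} [Finite I] (f : (I → M) → M) (hf : F.Pol f)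
    (i : I) (x x' : I → M) (hx : ∃ c, ∀ u, f (Function.update x i u) = c)
    (hx' : ¬ ∃ c, ∀ u, f (Function.update x' i u) = c) :
    ∃ (g : M → M → M) (a b c : M), Pol2 F g ∧ Function.Injective (fun u => g u a) ∧
      ∀ u, g u b = c := by
  have := Fintype.ofFinite I
  by_contra hno
  have key : ∀ s : Finset I, ∃ c, ∀ u, f (Function.update (s.piecewise x' x) i u) = c := by
    intro s
    induction s using Finset.induction_on with
    | empty => simpa using hx
    | insert j s hj ih =>
      rw [Finset.piecewise_insert]
      set z := s.piecewise x' x with hz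
      by_cases hji : j = i
      · subst hji
        simpa using ih
      · rcases sec F hmin f hf i (Function.update z j (x' j)) with h1 | h1
        · exfalso
          obtain ⟨c, hc⟩ := ih
          refine hno ⟨fun u v => f (Function.update (Function.update z j v) i u), x' j, z j, c,
            ?_, h1, fun u => ?_⟩
          · intro R p q hp hq
            refine hf R (fun k => Function.update (Function.update z j (q k)) i (p k)) ?_
            intro k
            by_cases hk : k = i
            · subst hk
              simpa using hp
            · by_cases hk2 : k = j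
              · subst hk2
                simpa [Function.update_of_ne hk] using hq
              · simpa [Function.update_of_ne hk, Function.update_of_ne hk2] using F.const R (z k)
          · show f (Function.update (Function.update z j (z j)) i u) = c
            rw [Function.update_eq_self]
            exact hc u
        · exact h1
  have := key Finset.univ
  rw [Finset.piecewise_univ] at this
  exact hx' this

end XTWIN

open XTWIN in
theorem TWIN_pf : S_TWIN := by
  intro σ M _ F hmin htp
  -- a binary polymorphism
  have h0 : ∃ (g : M → M → M) (a b c : M), Pol2 F g ∧ Function.Injective (fun u => g u a) ∧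
      ∀ u, g u b = c := by
    unfold TP at htp
    push Not at htp
    obtain ⟨I, _, f, hf, i, hdep, x, a, b, hab, hne⟩ := htp
    obtain ⟨x', a', b', hd⟩ := hdep
    refine bin F hmin f hf i x x' ?_ ?_
    · rcases sec F hmin f hf i x with h | h
      · exact absurd (h hab) hne
      · exact h
    · rintro ⟨c, hc⟩
      exact hd ((hc a').trans (hc b').symm)
  obtain ⟨g, a, b, c, hg, hga, hgb⟩ := h0
  set n := Nat.card (Equiv.Perm M) with hn
  have hnpos : 0 < n := Nat.card_pos
  set h : M → M → M := fun x y => (fun z => g z y)^[n] x with hh
  have hpol : Pol2 F h := pol2_iter F hg n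
  have hha : ∀ x, h x a = x := fun x => iter_id _ hga x
  have hhb : ∀ x, h x b = c := fun x => iter_const _ c hgb n hnpos x
  have hdich : ∀ y, (∀ x, h x y = x) ∨ ∃ k, ∀ x, h x y = k := by
    intro y
    rcases hmin.2 (fun x => g x y) (fun R p hp => hg R p (fun _ => y) hp (F.const R y)) with h1 | h1
    · exact Or.inl fun x => iter_id _ h1 x
    · obtain ⟨k, hk⟩ := h1
      exact Or.inr ⟨k, fun x => iter_const _ k hk n hnpos x⟩
  have hinj : ∀ x, x ≠ c → Function.Injective (h x) := by
    intro x hx
    rcases hmin.2 (fun y => h x y) (fun R p hp => hpol R (fun _ => x) p (F.const R x) hp) with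
      h1 | h1
    · exact h1
    · exfalso
      obtain ⟨k, hk⟩ := h1
      apply hx
      rw [← hha x, ← hhb x]
      exact (hk a).trans (hk b).symm
  obtain ⟨d, hd⟩ : ∃ d, d ≠ c := by
    obtain ⟨x, y, hxy⟩ := hmin.1
    by_cases hx : x = c
    · exact ⟨y, fun hy => hxy (hx.trans hy.symm)⟩
    · exact ⟨x, hx⟩
  have hcst : ∀ y, y ≠ a → ∃ k, ∀ x, h x y = k := by
    intro y hy
    rcases hdich y with h1 | h1
    · exact absurd (hinj d hd ((h1 d).trans (hha d).symm)) hy
    · exact h1
  have huniq : ∀ x, x = c ∨ x = d := by
    intro x
    by_contra hcon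
    push Not at hcon
    obtain ⟨hxc, hxd⟩ := hcon
    obtain ⟨y, hy⟩ := (Finite.injective_iff_surjective.1 (hinj d hd)) x
    have hya : y ≠ a := by
      rintro rfl
      exact hxd (hy.symm.trans (hha d))
    obtain ⟨k, hk⟩ := hcst y hya
    have h1 : k = x := (hk d).symm.trans hy
    have h2 : h x y = h x a := by rw [hk x, h1, hha x]
    exact hya (hinj x hxc h2)
  have hab : a ≠ b := by
    rintro rfl
    exact hd ((hha d).symm.trans (hhb d))
  refine ⟨c, d, hd.symm, huniq, ?_⟩
  rcases huniq b with hb | hb
  · -- b = c, a = d
    have ha : a = d := (huniq a).resolve_left (fun h1 => hab (h1.trans hb.symm))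
    have hmeet : ∀ x y, meet c d x y = h x y := by
      intro x y
      unfold meet
      rcases huniq y with hy | hy
      · rw [if_neg (fun h1 => hd (h1.2.symm.trans hy)), hy, ← hb, hhb, ← hb]
      · rw [hy, ← ha, hha]
        rcases huniq x with hx | hx
        · rw [if_neg (fun h1 => hab (h1.1.symm.trans (hx.trans hb.symm))), hx]
        · rw [if_pos ⟨hx.trans ha.symm, rfl⟩, hx, ha]
    intro R p p' hp hp'
    simp only [hmeet]
    exact hpol R p p' hp hp'
  · -- b = d, a = c
    have ha : a = c := (huniq a).resolve_right (fun h1 => hab (h1.trans hb.symm))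
    have hdc : h d c = d := by rw [← ha]; exact hha d
    have hdd : h d d = c := by
      have := hhb d
      rw [hb] at this
      exact this
    have hcc : h c c = c := by
      have := hha c
      rw [ha] at this
      exact this
    have hcd : h c d = c := by
      have := hhb c
      rw [hb] at this
      exact this
    have hmeet : ∀ x y, meet c d x y = h x (h d y) := by
      intro x y
      unfold meet
      rcases huniq x with hx | hx <;> rcases huniq y with hy | hy <;> subst hx <;> subst hy <;>
        simp_all
    intro R p p' hp hp'
    simp only [hmeet]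
    exact hpol R p _ hp (hpol R (fun _ => d) p' (F.const R d) hp')

end Pool.Agent.Work.MP_8dbde4_lc.Tree
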