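import Pool.Agent.Work.MP_8dbde4_lc.Tree.Stmts

/-!
The back-and-forth system between `J_0` and `J_1`: see the docstring of `S_JZ`.
-/

set_option autoImplicit false
open Classical

namespace Pool.Agent.Work.MP_8dbde4_lc.Tree

open Pool.Agent.Work.MP_8dbde4_lc.TS

namespace XJZ

variable {σ : Sig} {K U G : Type} [Group G] {p : ℕ} {I : Type}

/-- The action of the flips. -/
def act (g : G) (y : G → ZMod p) : El σ U G p I → El σ U G p I
  | .main v s => .main v (s + y v)
  | .site v α β t => .site v (α + y v) (β + y (v * g)) t
  | .fresh v α β R t j => .fresh v (α + y v) (β + y (v * g)) R t j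

/-- The base of an element. -/
def base : El σ U G p I → G ⊕ G
  | .main v _ => Sum.inl v
  | .site v _ _ _ => Sum.inr v
  | .fresh v _ _ _ _ _ => Sum.inr v

/-- The points touched by a base. -/
noncomputable def tb (g h : G) : G ⊕ G → Finset G
  | .inl v => {v}
  | .inr v => row g h v

theorem base_act (g : G) (y : G → ZMod p) (x : El σ U G p I) : base (act g y x) = base x := by
  cases x <;> rfl

theorem act_congr (g h : G) (y y' : G → ZMod p) (x : El σ U G p I)
    (hy : ∀ u ∈ tb g h (base x), y u = y' u) : act g y x = act g y' x := by
  cases x with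
  | main v s =>
    have h1 := hy v (by simp [base, tb])
    simp only [act, h1]
  | site v α β t =>
    have h1 := hy v (by simp [base, tb, row])
    have h2 := hy (v * g) (by simp [base, tb, row])
    simp only [act, h1, h2]
  | fresh v α β R t j =>
    have h1 := hy v (by simp [base, tb, row])
    have h2 := hy (v * g) (by simp [base, tb, row])
    simp only [act, h1, h2]

theorem act_neg (g : G) (y : G → ZMod p) (x : El σ U G p I) :
    act g (fun u => - y u) (act g y x) = x := by
  cases x <;> simp [act]

theorem act_neg' (g : G) (y : G → ZMod p) (x : El σ U G p I) :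
    act g y (act g (fun u => - y u) x) = x := by
  cases x <;> simp [act]

theorem act_inj (g : G) (y : G → ZMod p) : Function.Injective (act g y : El σ U G p I → _) := by
  intro x x' h
  rw [← act_neg g y x, ← act_neg g y x', h]

theorem tie_act {D : Gad U p I} {g h : G} {b b' : ZMod p} {y : G → ZMod p} (hy : y 1 = 0)
    {a w : El σ U G p I} (hT : Tie D g h b a w)
    (hrow : ∀ v, base a = Sum.inr v → y v + y (v * g) - y (v * h) = b' - b) :
    Tie D g h b' (act g y a) (act g y w) := by
  cases hT with
  | f v α β R t j => exact Tie.f _ _ _ _ _ _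
  | u v α β s =>
    have h1 : act g y (El.main 1 s : El σ U G p I) = El.main 1 s := by simp [act, hy]
    rw [h1]
    exact Tie.u _ _ _ _
  | x v α β s =>
    have h1 : act g y (El.main v (s + α) : El σ U G p I) = El.main v (s + (α + y v)) := by
      simp only [act, add_assoc]
    rw [h1]
    exact Tie.x _ _ _ _
  | y v α β s =>
    have h1 : act g y (El.main (v * g) (s + β) : El σ U G p I) =
        El.main (v * g) (s + (β + y (v * g))) := by
      simp only [act, add_assoc]
    rw [h1]
    exact Tie.y _ _ _ _
  | z v α β s =>
    have h2 := hrow v rfl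
    have h1 : act g y (El.main (v * h) (s + α + β - b) : El σ U G p I) =
        El.main (v * h) (s + (α + y v) + (β + y (v * g)) - b') := by
      simp only [act]
      congr 1
      have h3 : y v + y (v * g) = y (v * h) + (b' - b) := by rw [← h2]; ring
      calc s + α + β - b + y (v * h) = s + α + β + (y (v * h) + (b' - b)) - b' := by ring
        _ = _ := by rw [← h3]; ring
    rw [h1]
    exact Tie.z _ _ _ _

theorem anch_act (g : G) {y : G → ZMod p} (hy : y 1 = 0) (w : El σ U G p I) :
    act g y (anch w) = anch (act g y w) := by
  have h0 : act g y (El.main 1 0 : El σ U G p I) = El.main 1 0 := by simp [act, hy]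
  have h1 : act g y (El.main 1 1 : El σ U G p I) = El.main 1 1 := by simp [act, hy]
  unfold anch
  by_cases hw : w = El.main 1 0
  · rw [if_pos hw, hw, h0, if_pos rfl, h1]
  · have hw' : act g y w ≠ El.main 1 0 := by
      intro h
      rw [← h0] at h
      exact hw (act_inj g y h)
    rw [if_neg hw, if_neg hw', h0]

theorem trip_act {A B : Type} (f : A → B) {n : ℕ} (o a w : A) :
    (fun j : Fin n => f (trip o a w j)) = trip (f o) (f a) (f w) := by
  funext j
  unfold trip
  by_cases h0 : j.val = 0
  · simp [h0]
  · by_cases h1 : j.val = 1
    · simp [h1]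
    · simp [h0, h1]

theorem rel_act {L : Lang σ K} {C : σ.S} {U : Set K} {D : Gad U p I} {g h : G} {b b' : ZMod p}
    {y : G → ZMod p} (hC : σ.ar C = 3) (hy : y 1 = 0) {R : σ.S}
    {T : Fin (σ.ar R) → El σ U G p I}
    (hT : (JJ L C U g h D b).rel R T)
    (hrow : ∀ j v, base (T j) = Sum.inr v → y v + y (v * g) - y (v * h) = b' - b) :
    (JJ L C U g h D b').rel R (fun j => act g y (T j)) := by
  rcases hT with ⟨hL, v, α, β, t, ht, hTe⟩ | ⟨hRC, a, w, hTie, hTe⟩
  · left
    refine ⟨hL, v, α + y v, β + y (v * g), t, ht, ?_⟩
    rw [hTe]
    rfl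
  · right
    refine ⟨hRC, act g y a, act g y w, ?_, ?_⟩
    · refine tie_act hy hTie ?_
      intro v hv
      refine hrow ⟨1, by rw [hRC, hC]; omega⟩ v ?_
      rw [hTe]
      simpa [trip] using hv
    · rw [hTe, trip_act, anch_act g hy]

/-- The touched points of a tuple. -/
noncomputable def pts (g h : G) {k : ℕ} (v : Fin k → El σ U G p I) : Finset G :=
  insert 1 (Finset.univ.biUnion (fun i => tb g h (base (v i))))

omit [Group G] in
theorem cl_mono [Fintype G] (E : G → Finset G) {P Q : Finset G} (h : P ⊆ Q) :
    cl E P ⊆ cl E Q := by
  intro x hx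
  unfold cl at hx ⊢
  rw [Finset.mem_filter] at hx ⊢
  exact ⟨hx.1, fun T hT hc => hx.2 T (h.trans hT) hc⟩

omit [Group G] in
theorem sub_cl [Fintype G] (E : G → Finset G) (P : Finset G) : P ⊆ cl E P := by
  intro x hx
  unfold cl
  rw [Finset.mem_filter]
  exact ⟨Finset.mem_univ _, fun T hT _ => hT hx⟩

theorem tb_card (g h : G) (b : G ⊕ G) : (tb g h b).card ≤ 3 := by
  cases b with
  | inl v => simp [tb]
  | inr v => exact Finset.card_le_three

/-- The system. -/
def ZZ (σ : Sig) (U : Type) (I : Type) [Fintype G] (g h : G) (p k : ℕ)
    (v w : Fin k → El σ U G p I) : Prop :=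
  ∃ y : G → ZMod p, y 1 = 0 ∧ (∀ u, row g h u ⊆ cl (row g h) (pts g h v) → RowEq g h y u) ∧
    ∀ i, w i = act g y (v i)

end XJZ

open XJZ in
theorem JZ_pf (h2 : S_EXT) : S_JZ := by
  intro σ K L C U G _ _ g h p I D k hC hp hrow hDen
  have : Fintype G := Fintype.ofFinite G
  have hrel : ∀ (v w : Fin k → El σ U G p I), ZZ σ U I g h p k v w → ∀ (R : σ.S)
      (i : Fin (σ.ar R) → Fin k), (JJ L C U g h D 0).rel R (fun j => v (i j)) ↔
        (JJ L C U g h D 1).rel R (fun j => w (i j)) := by
    rintro v w ⟨y, hy1, hy2, hy3⟩ R i
    have hR : ∀ (j : Fin (σ.ar R)) u, base (v (i j)) = Sum.inr u →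
        y u + y (u * g) - y (u * h) = 1 := by
      intro j u hu
      apply hy2
      refine Finset.Subset.trans ?_ (sub_cl _ _)
      unfold pts
      refine Finset.Subset.trans ?_ (Finset.subset_insert _ _)
      intro z hz
      rw [Finset.mem_biUnion]
      exact ⟨i j, Finset.mem_univ _, by rw [hu]; exact hz⟩
    constructor
    · intro hT
      have h3 := rel_act (b' := 1) (y := y) hC hy1 hT (by
        intro j u hu
        rw [hR j u hu, sub_zero])
      simpa only [← hy3] using h3
    · intro hT
      have h3 := rel_act (b' := 0) (y := fun u => - y u) hC (by simp [hy1]) hT (by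
        intro j u hu
        rw [hy3, base_act] at hu
        have := hR j u hu
        rw [← this]
        ring)
      have h4 : (fun j => act g (fun u => - y u) (w (i j))) = fun j => v (i j) := by
        funext j
        rw [hy3, act_neg]
      rw [h4] at h3
      exact h3
  refine ⟨ZZ σ U I g h p k, ⟨hrel, ?_, ?_, ?_⟩, ?_⟩
  · rintro v w ⟨y, hy1, hy2, hy3⟩ i j
    rw [hy3, hy3]
    exact (act_inj g y).eq_iff.symm
  · rintro v w ⟨y, hy1, hy2, hy3⟩ ρ
    refine ⟨y, hy1, ?_, fun i => hy3 (ρ i)⟩
    intro u hu
    apply hy2
    refine hu.trans (cl_mono _ ?_)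
    unfold pts
    apply Finset.insert_subset_insert
    intro z hz
    rw [Finset.mem_biUnion] at hz ⊢
    obtain ⟨i, _, hi⟩ := hz
    exact ⟨ρ i, Finset.mem_univ _, hi⟩
  · rintro v w ⟨y, hy1, hy2, hy3⟩ x
    obtain ⟨P, hP⟩ : ∃ P : Finset G, P = insert 1 ((Finset.univ.erase x).biUnion
      (fun i => tb g h (base (v i)))) := ⟨_, rfl⟩
    have hPcard : P.card ≤ 3 * k + 1 := by
      rw [hP]
      refine (Finset.card_insert_le _ _).trans ?_
      have h3 : ((Finset.univ.erase x).biUnion (fun i => tb g h (base (v i)))).card ≤
          (Finset.univ.erase x).card * 3 := by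
        apply Finset.card_biUnion_le_card_mul
        intro i _
        exact tb_card g h _
      have h4 : (Finset.univ.erase x : Finset (Fin k)).card ≤ k := by
        refine (Finset.card_le_univ _).trans ?_
        simp
      omega
    have hPsub : P ⊆ pts g h v := by
      rw [hP]
      unfold pts
      apply Finset.insert_subset_insert
      apply Finset.biUnion_subset_biUnion_of_subset_left
      exact Finset.subset_univ _
    have hext : ∀ b : G ⊕ G, ∃ y' : G → ZMod p, (∀ u ∈ cl (row g h) P, y' u = y u) ∧
        ∀ u, row g h u ⊆ cl (row g h) (P ∪ tb g h b) → RowEq g h y' u := by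
      intro b
      apply h2 G g h (3 * k + 5) p P (P ∪ tb g h b) y hrow hDen Finset.subset_union_left
      · have h3 := Finset.card_union_le P (tb g h b)
        have h4 := tb_card g h b
        omega
      · intro u hu
        exact hy2 u (hu.trans (cl_mono _ hPsub))
    choose ys hys1 hys2 using hext
    refine ⟨⟨fun a => act g (ys (base a)) a, fun a => act g (fun u => - ys (base a) u) a, ?_, ?_⟩,
      ?_⟩
    · intro a
      simp only [base_act]
      exact act_neg g _ a
    · intro a
      simp only [base_act]
      exact act_neg' g _ a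
    · intro a
      refine ⟨ys (base a), ?_, ?_, ?_⟩
      · rw [hys1 (base a) 1, hy1]
        apply sub_cl
        rw [hP]
        exact Finset.mem_insert_self _ _
      · intro u hu
        apply hys2
        refine hu.trans (cl_mono _ ?_)
        intro z hz
        unfold pts at hz
        rw [Finset.mem_insert, Finset.mem_biUnion] at hz
        rw [Finset.mem_union]
        rcases hz with hz | ⟨i, _, hi⟩
        · left
          rw [hP, hz]
          exact Finset.mem_insert_self _ _
        · by_cases hix : i = x
          · right
            rw [hix, Function.update_self] at hi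
            exact hi
          · left
            rw [Function.update_of_ne hix] at hi
            rw [hP]
            apply Finset.mem_insert_of_mem
            rw [Finset.mem_biUnion]
            exact ⟨i, Finset.mem_erase.2 ⟨hix, Finset.mem_univ _⟩, hi⟩
      · intro i
        by_cases hix : i = x
        · rw [hix, Function.update_self, Function.update_self]
          rfl
        · rw [Function.update_of_ne hix, Function.update_of_ne hix, hy3]
          apply act_congr g h
          intro u hu
          rw [hys1 (base a) u]
          apply sub_cl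
          rw [hP]
          apply Finset.mem_insert_of_mem
          rw [Finset.mem_biUnion]
          exact ⟨i, Finset.mem_erase.2 ⟨hix, Finset.mem_univ _⟩, hu⟩
  · refine ⟨fun _ => El.main 1 0, fun _ => El.main 1 0, fun _ => 0, rfl, ?_, ?_⟩
    · intro u hu
      exfalso
      have h3 : cl (row g h) (pts g h (fun _ : Fin k => (El.main 1 0 : El σ U G p I))) ⊆ {1} := by
        intro z hz
        unfold cl at hz
        rw [Finset.mem_filter] at hz
        apply hz.2
        · unfold pts
          intro z' hz'
          rw [Finset.mem_insert, Finset.mem_biUnion] at hz'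
          rcases hz' with hz' | ⟨i, _, hi⟩
          · rw [hz']
            exact Finset.mem_singleton_self _
          · simpa [base, tb] using hi
        · intro u' hu'
          exfalso
          have h4 : (row g h u' ∩ {1}).card ≤ 1 := by
            refine (Finset.card_le_card Finset.inter_subset_right).trans ?_
            simp
          omega
      have h5 := Finset.card_le_card (hu.trans h3)
      rw [hrow u, Finset.card_singleton] at h5
      omega
    · intro i
      simp [act]

end Pool.Agent.Work.MP_8dbde4_lc.Tree
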