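import Pool.Agent.Work.MP_8dbde4_lc.Tree.Stmts

/-!
The assembly of the negative part: see the docstring of `S_NEG1`.
-/

set_option autoImplicit false
open Classical

namespace Pool.Agent.Work.MP_8dbde4_lc.Tree

open Pool.Agent.Work.MP_8dbde4_lc.TS

namespace XNEG1

variable {σ : Sig} {K : Type}

/-- A non-constant step into a good two-element set. -/
def GStep {A : Type} (L : Lang σ K) (𝔄 : Str σ A) : Prop :=
  ∃ a b : K, Good L a b ∧ ∃ h : A → K, IsStep L 𝔄 Set.univ h ∧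
    (∀ x, h x = a ∨ h x = b) ∧ ∃ x y, h x ≠ h y

/-- Solvable, with a strict constraint, without good step. -/
def Bad {A : Type} (L : Lang σ K) (𝔄 : Str σ A) : Prop :=
  Res L 𝔄 ∧ HasStrict L 𝔄 Set.univ ∧ ¬ GStep L 𝔄

/-- The minimal sets with non-constant steps. -/
def TT {A : Type} (L : Lang σ K) (𝔄 : Str σ A) : Set (Set K) := {U | MinSet L U ∧ NC L 𝔄 U}

instance finiteEl (U G : Type) [Finite U] [Finite G] (p : ℕ) [NeZero p] (I : Type) [Finite I] :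
    Finite (El σ U G p I) := by
  have h1 : Finite (Σ R : σ.S, (Fin (σ.ar R) → I → U) × Fin (σ.ar R)) := inferInstance
  refine Finite.of_injective
    (β := (G × ZMod p) ⊕ ((G × ZMod p × ZMod p × (I → U)) ⊕
      (G × ZMod p × ZMod p × (Σ R : σ.S, (Fin (σ.ar R) → I → U) × Fin (σ.ar R)))))
    (fun x => match x with
      | .main v s => Sum.inl (v, s)
      | .site v α β t => Sum.inr (Sum.inl (v, α, β, t))
      | .fresh v α β R t j => Sum.inr (Sum.inr (v, α, β, ⟨R, t, j⟩))) ?_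
  intro x y hxy
  cases x <;> cases y <;> simp at hxy ⊢
  · exact hxy
  · exact hxy
  · obtain ⟨h1, h2, h3, h4, h5⟩ := hxy
    subst h1; subst h2; subst h3; subst h4
    simp only [heq_eq_eq, Prod.mk.injEq] at h5
    obtain ⟨h5, h6⟩ := h5
    subst h5; subst h6
    simp

theorem comp_step {A : Type} {L : Lang σ K} {𝔄 : Str σ A} {U V : Set K}
    (hcl : ∀ (R : σ.S) (t : Fin (σ.ar R) → A), 𝔄.rel R t → Live L R)
    {h : A → K} (hs : IsStep L 𝔄 Set.univ h) (hU : ∀ x, h x ∈ U) (k : U → V)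
    (hk : ∀ (R : σ.S) (q : Fin (σ.ar R) → U), (fam L U).P R q →
      (fam L V).P R (fun j => k (q j))) :
    IsStep L 𝔄 Set.univ (fun x => (k ⟨h x, hU x⟩ : K)) := by
  intro R t hR _
  have h1 := hs R t hR (fun _ => Set.mem_univ _)
  exact hk R (fun j => ⟨h (t j), hU (t j)⟩) (fun _ => h1) (hcl R t hR)

theorem meet_coe {U : Set K} (a b x y : U) :
    ((meet a b x y : U) : K) = meet (a : K) (b : K) (x : K) (y : K) := by
  unfold meet
  by_cases h : x = b ∧ y = b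
  · have h' : (x : K) = b ∧ (y : K) = b := ⟨by rw [h.1], by rw [h.2]⟩
    rw [if_pos h, if_pos h']
  · have h' : ¬ ((x : K) = b ∧ (y : K) = b) := fun h1 =>
      h ⟨Subtype.ext h1.1, Subtype.ext h1.2⟩
    rw [if_neg h, if_neg h']

end XNEG1

open XNEG1 in
theorem NEG1_pf : S_NEG1 := by
  intro hGame hPG hDen hGad hTwin hJ0 hJ1 hJZ hClean hDesc hRes
  intro σ K _ L c C hC hGS
  -- the set of the sizes
  have hex : ∃ n : ℕ, ∃ (A : Type) (_ : Finite A) (𝔄 : Str σ A), Bad L 𝔄 ∧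
      (TT L 𝔄).ncard = n := by
    unfold GS at hGS
    push Not at hGS
    obtain ⟨A, hA, 𝔄, h1, h2, h3⟩ := hGS
    refine ⟨_, A, hA, 𝔄, ⟨h1, h2, ?_⟩, rfl⟩
    rintro ⟨a, b, hg, h, hs, hab, x, y, hxy⟩
    exact hxy (h3 a b hg h hs hab x y)
  obtain ⟨A, hA, 𝔄, ⟨hR, hS, hB⟩, hn⟩ := Nat.find_spec hex
  have hmin : ∀ (A' : Type) (_ : Finite A') (𝔄' : Str σ A'), Bad L 𝔄' →
      (TT L 𝔄).ncard ≤ (TT L 𝔄').ncard := by
    intro A' hA' 𝔄' hB'
    rw [hn]
    exact Nat.find_min' hex ⟨A', hA', 𝔄', hB', rfl⟩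
  have hcl := hClean σ K L A 𝔄 hR
  -- the set `U`
  have hNC : NC L 𝔄 Set.univ := by
    obtain ⟨h, hs, x, _, y, _, hxy⟩ := hR Set.univ hS
    exact ⟨h, hs, fun _ => Set.mem_univ _, x, y, hxy⟩
  obtain ⟨U₀, _, hU₀1, hU₀2⟩ := hDesc σ K L A 𝔄 Set.univ hcl hNC
  have hfin : (TT L 𝔄).Finite := Set.toFinite _
  obtain ⟨U, hU, hUmin⟩ := Set.exists_min_image (TT L 𝔄) (fun V => V.ncard) hfin
    ⟨U₀, hU₀1, hU₀2⟩
  obtain ⟨hM, h₀, hs₀, hv₀, x₀, y₀, hxy₀⟩ := hU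
  have honto : ∀ u ∈ U, ∃ x, h₀ x = u := by
    have h1 : NC L 𝔄 (Set.range h₀) := ⟨h₀, hs₀, fun x => ⟨x, rfl⟩, x₀, y₀, hxy₀⟩
    obtain ⟨U', hU'1, hU'2, hU'3⟩ := hDesc σ K L A 𝔄 _ hcl h1
    have h2 := hUmin U' ⟨hU'2, hU'3⟩
    have h3 : Set.range h₀ ⊆ U := by
      rintro _ ⟨x, rfl⟩
      exact hv₀ x
    have h4 : U'.ncard ≤ (Set.range h₀).ncard := Set.ncard_le_ncard hU'1 (Set.toFinite _)
    have h5 : Set.range h₀ = U := Set.eq_of_subset_of_ncard_le h3 (h2.trans h4) (Set.toFinite _)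
    intro u hu
    rw [← h5] at hu
    exact hu
  -- the twin property
  have hTP : TP (fam L U) := by
    by_contra hTP
    obtain ⟨a, b, hab, hall, hmeet⟩ := hTwin σ U (fam L U) hM hTP
    apply hB
    refine ⟨a, b, ⟨fun h => hab (Subtype.ext h), ?_⟩, h₀, hs₀, ?_, x₀, y₀, hxy₀⟩
    · intro R hL p p' hp hp' h1 h2
      have hmem : ∀ z : K, z ∈ ({(a : K), (b : K)} : Set K) → z ∈ U := by
        rintro z (h | h)
        · rw [h]; exact a.2
        · rw [Set.mem_singleton_iff] at h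
          rw [h]; exact b.2
      have h3 := hmeet R (fun j => ⟨p j, hmem _ (hp j)⟩) (fun j => ⟨p' j, hmem _ (hp' j)⟩)
        (fun _ => h1) (fun _ => h2) hL
      have h4 : (fun j => ((meet a b ⟨p j, hmem _ (hp j)⟩ ⟨p' j, hmem _ (hp' j)⟩ : U) : K)) =
          fun j => meet (a : K) (b : K) (p j) (p' j) := by
        funext j
        rw [meet_coe]
      rw [← h4]
      exact h3
    · intro x
      rcases hall ⟨h₀ x, hv₀ x⟩ with h | h
      · left
        rw [← h]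
      · right
        rw [← h]
  obtain ⟨p, I, D, hp, hI, hD⟩ := hGad σ U (fam L U) hM hTP
  have hpz : NeZero p := ⟨hp.ne_zero⟩
  have hCL : Live L C := by
    intro _
    obtain ⟨⟨a, b, hab⟩, _⟩ := hM
    refine ⟨fun j => if j.val = 0 then (a : K) else b, ?_, ⟨0, by rw [hC.1]; omega⟩,
      ⟨1, by rw [hC.1]; omega⟩, ?_⟩
    · rw [hC.2.2]
      intro i j hi hj
      simp [hi, hj]
    · simp only [if_true, one_ne_zero, if_false]
      exact fun h => hab (Subtype.ext h)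
  -- the game
  apply hGame σ (CSP (L.tree c))
  intro k
  obtain ⟨G, _, hGf, g, h, hG, hw⟩ := hPG p (2 * (3 * k + 5)) hp
  have hDn : Den (row g h) (3 * k + 5) := hDen G g h (3 * k + 5) hw
  have hrow : ∀ v : G, (row g h v).card = 3 := by
    intro v
    have h1 := hDn {v} (Finset.singleton_nonempty v) (by simp)
    rw [Finset.singleton_biUnion, Finset.card_singleton] at h1
    have h2 : (row g h v).card ≤ 3 := Finset.card_le_three
    omega
  obtain ⟨Z, hZ1, hZ2⟩ := hJZ σ K L C U G g h p I D k hC.1 hp hrow hDn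
  refine ⟨El σ U G p I, El σ U G p I, inferInstance, inferInstance, JJ L C U g h D 0,
    JJ L C U g h D 1, Z, hZ1, hZ2, ?_, ?_⟩
  · rw [hRes σ K L c]
    exact hJ0 σ K L C U G g h p I D hC hCL hD
  · rw [hRes σ K L c]
    intro hR1
    have hcl1 := hClean σ K L _ _ hR1
    have hstep : ∀ V : Set K, (V = U ∨ ∀ k : U → V, (∀ (R : σ.S) (q : Fin (σ.ar R) → U),
        (fam L U).P R q → (fam L V).P R (fun j => k (q j))) → ∃ c, ∀ x, k x = c) →
        ¬ NC L (JJ L C U g h D 1) V := by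
      rintro V hV ⟨F, hF1, hF2, x, y, hxy⟩
      obtain ⟨c', hc'⟩ := hJ1 σ K L C U V G g h p I D hC hCL hG hD F hF1 hF2 hV
      exact hxy (by rw [hc', hc'])
    have hhom : ∀ V : Set K, ¬ NC L 𝔄 V → ∀ k : U → V, (∀ (R : σ.S) (q : Fin (σ.ar R) → U),
        (fam L U).P R q → (fam L V).P R (fun j => k (q j))) → ∃ c, ∀ x, k x = c := by
      intro V hV k hk
      by_contra hcon
      push Not at hcon
      apply hV
      obtain ⟨⟨u₁, _, _⟩, _⟩ := hM
      obtain ⟨u₂, hu₂⟩ := hcon (k u₁)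
      obtain ⟨x₁, hx₁⟩ := honto u₁ u₁.2
      obtain ⟨x₂, hx₂⟩ := honto u₂ u₂.2
      refine ⟨_, comp_step hcl hs₀ hv₀ k hk, fun x => (k ⟨h₀ x, hv₀ x⟩).2, x₂, x₁, ?_⟩
      have e1 : (⟨h₀ x₁, hv₀ x₁⟩ : U) = u₁ := Subtype.ext hx₁
      have e2 : (⟨h₀ x₂, hv₀ x₂⟩ : U) = u₂ := Subtype.ext hx₂
      show ((k ⟨h₀ x₂, hv₀ x₂⟩ : V) : K) ≠ k ⟨h₀ x₁, hv₀ x₁⟩
      rw [e1, e2]
      exact fun h => hu₂ (Subtype.ext h)
    have hBad1 : Bad L (JJ L C U g h D 1) := by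
      refine ⟨hR1, ?_, ?_⟩
      · refine ⟨C, trip (anch (El.main 1 (0 : ZMod p))) (El.site 1 0 0 (D.u 0))
          (El.main 1 (0 : ZMod p)), hC.2.1, ?_, fun _ => Set.mem_univ _⟩
        right
        exact ⟨rfl, _, _, Tie.u 1 0 0 0, rfl⟩
      · rintro ⟨a, b, hg, F, hF, hab, x, y, hxy⟩
        refine hstep {a, b} (Or.inr (hhom {a, b} ?_)) ⟨F, hF, hab, x, y, hxy⟩
        rintro ⟨F', hF', hab', x', y', hxy'⟩
        exact hB ⟨a, b, hg, F', hF', hab', x', y', hxy'⟩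
    have hle := hmin _ inferInstance _ hBad1
    have hsub : TT L (JJ L C U g h D 1) ⊆ TT L 𝔄 \ {U} := by
      rintro V ⟨hV1, hV2⟩
      refine ⟨⟨hV1, ?_⟩, ?_⟩
      · by_contra hV3
        exact hstep V (Or.inr (hhom V hV3)) hV2
      · intro hVU
        rw [Set.mem_singleton_iff] at hVU
        exact hstep V (Or.inl hVU) hV2
    have hlt : (TT L (JJ L C U g h D 1)).ncard < (TT L 𝔄).ncard := by
      refine lt_of_le_of_lt (Set.ncard_le_ncard hsub (Set.toFinite _)) ?_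
      exact Set.ncard_sdiff_singleton_lt_of_mem ⟨hM, h₀, hs₀, hv₀, x₀, y₀, hxy₀⟩ (Set.toFinite _)
    omega

end Pool.Agent.Work.MP_8dbde4_lc.Tree
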