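import Pool.Agent.Work.MP_8dbde4_lc.TS.Defs

/-!
# First-split languages over branching trees

The domain is the set of the words `ℚ → K` which differ from a fixed word `c` in finitely many
places, `K` a finite set of letters. Two words split at the first place in which they differ. A
first-split relation is given by a set of patterns: a tuple belongs to it if the pattern of the
letters at the first place where its entries are not all equal is in the set.
-/

namespace Pool.Agent.Work.MP_8dbde4_lc.Tree

open Pool.Agent.Work.MP_8dbde4_lc.TS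

/-- The words which differ from `c` in finitely many places. -/
def Word {K : Type} (c : ℚ → K) : Type := {x : ℚ → K // {q | x q ≠ c q}.Finite}

/-- The words `v j` are all equal before the place `q`, but not at the place `q`. -/
def FirstSplit {K : Type} {c : ℚ → K} {r : ℕ} (v : Fin r → Word c) (q : ℚ) : Prop :=
  (∀ q' < q, ∀ i j, (v i).1 q' = (v j).1 q') ∧ ∃ i j, (v i).1 q ≠ (v j).1 q

/-- A first-split language: for each relation symbol a set of patterns, which contains the constant
patterns, and the information whether the symbol is strict (i.e. whether constant tuples are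
forbidden). -/
structure Lang (σ : Sig) (K : Type) where
  P : (R : σ.S) → (Fin (σ.ar R) → K) → Prop
  strict : σ.S → Prop
  const : ∀ (R : σ.S) (a : K), P R (fun _ => a)

variable {σ : Sig} {K : Type}

/-- The template: the relation `R` consists of the tuples whose first split pattern is in `P R`;
the constant tuples belong to it if and only if `R` is not strict. -/
def Lang.tree (L : Lang σ K) (c : ℚ → K) : Str σ (Word c) where
  rel R v := (∀ q, FirstSplit v q → L.P R (fun j => (v j).1 q)) ∧
    (L.strict R → ∃ i j, v i ≠ v j)

/-- `h` is a homomorphism from the part of `𝔄` inside `W` to the structure of the patterns. -/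
def IsStep {A : Type} (L : Lang σ K) (𝔄 : Str σ A) (W : Set A) (h : A → K) : Prop :=
  ∀ (R : σ.S) (t : Fin (σ.ar R) → A), 𝔄.rel R t → (∀ j, t j ∈ W) → L.P R (fun j => h (t j))

/-- There is a strict constraint inside `W`. -/
def HasStrict {A : Type} (L : Lang σ K) (𝔄 : Str σ A) (W : Set A) : Prop :=
  ∃ (R : σ.S) (t : Fin (σ.ar R) → A), L.strict R ∧ 𝔄.rel R t ∧ ∀ j, t j ∈ W

/-- The combinatorial form of the constraint satisfaction problem. -/
def Res {A : Type} (L : Lang σ K) (𝔄 : Str σ A) : Prop :=
  ∀ W : Set A, HasStrict L 𝔄 W →
    ∃ h : A → K, IsStep L 𝔄 W h ∧ ∃ x ∈ W, ∃ y ∈ W, h x ≠ h y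

/-- `C` is the split relation `C(z; x, y)`: `z` splits off from `x` and `y` first. -/
def IsSplit (L : Lang σ K) (C : σ.S) : Prop :=
  σ.ar C = 3 ∧ L.strict C ∧ ∀ p : Fin (σ.ar C) → K,
    L.P C p ↔ ∀ i j : Fin (σ.ar C), i.val = 1 → j.val = 2 → p i = p j

/-- `R` is live: not strict or with a non-constant pattern. -/
def Live (L : Lang σ K) (R : σ.S) : Prop :=
  L.strict R → ∃ p, L.P R p ∧ ∃ i j, p i ≠ p j

/-- All the entries of `p` are in `U`. -/
def In {r : ℕ} (U : Set K) (p : Fin r → K) : Prop := ∀ j, p j ∈ U

/-- The semilattice operation on `{a, b}` with absorbing element `a`. -/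
noncomputable def meet (a b x y : K) : K := by
  classical exact if x = b ∧ y = b then b else a

/-- The semilattice operation with absorbing element `a` on the two-element set `{a, b}` preserves
the patterns of the live relation symbols. -/
def Good (L : Lang σ K) (a b : K) : Prop :=
  a ≠ b ∧ ∀ R, Live L R → ∀ p p' : Fin (σ.ar R) → K, In {a, b} p → In {a, b} p' →
    L.P R p → L.P R p' → L.P R (fun j => meet a b (p j) (p' j))

/-- Good steps suffice: every solvable finite structure with a strict constraint has a non-constant
step into a good two-element set. -/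
def GS (L : Lang σ K) : Prop :=
  ∀ (A : Type) [Finite A] (𝔄 : Str σ A), Res L 𝔄 → HasStrict L 𝔄 Set.univ →
    ∃ a b : K, Good L a b ∧ ∃ h : A → K, IsStep L 𝔄 Set.univ h ∧
      (∀ x, h x = a ∨ h x = b) ∧ ∃ x y, h x ≠ h y

/-! ### The statements of the project -/

/-- The combinatorial form. (`→`: take the first place at which a solution splits `W`; `←`:
recursion, a non-constant step is written into a new place, before all the places used for the
classes.) -/
def S_RES : Prop := ∀ (σ : Sig) (K : Type) (L : Lang σ K) (c : ℚ → K) (A : Type) [Finite A]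
  (𝔄 : Str σ A), CSP (L.tree c) A 𝔄 ↔ Res L 𝔄

/-- The positive part. -/
def S_POS : Prop := ∀ (σ : Sig) (K : Type) [Finite K] (L : Lang σ K) (c : ℚ → K), GS L →
  InFP (CSP (L.tree c))

/-- The negative part. -/
def S_NEG : Prop := ∀ (σ : Sig) (K : Type) [Finite K] (L : Lang σ K) (c : ℚ → K) (C : σ.S),
  IsSplit L C → ¬ GS L → ¬ InFPC (CSP (L.tree c))

/-- The theorem. -/
theorem main_of (h1 : S_POS) (h2 : S_NEG) (σ : Sig) (K : Type) [Finite K] (L : Lang σ K)
    (c : ℚ → K) (C : σ.S) (hC : IsSplit L C) (h : InFPC (CSP (L.tree c))) :
    InFP (CSP (L.tree c)) := by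
  by_cases hg : GS L
  · exact h1 σ K L c hg
  · exact absurd h (h2 σ K L c C hC hg)

end Pool.Agent.Work.MP_8dbde4_lc.Tree
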