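import Pool.Agent.Work.MP_8dbde4_lc.Tree.Stmts

/-!
No dead constraints; descent to minimal sets.
-/

set_option autoImplicit false
open Classical

namespace Pool.Agent.Work.MP_8dbde4_lc.Tree

open Pool.Agent.Work.MP_8dbde4_lc.TS

theorem CLEAN_pf : S_CLEAN := by
  intro σ K L A 𝔄 hres R t ht hs
  obtain ⟨h, hstep, x, ⟨i, rfl⟩, y, ⟨j, rfl⟩, hxy⟩ :=
    hres (Set.range t) ⟨R, t, hs, ht, fun j => ⟨j, rfl⟩⟩
  exact ⟨fun j => h (t j), hstep R t ht (fun j => ⟨j, rfl⟩), i, j, hxy⟩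

theorem DESC_pf : S_DESC := by
  intro σ K _ L A 𝔄 V hlive
  induction hn : V.ncard using Nat.strong_induction_on generalizing V with
  | _ n ih =>
  intro hNC
  by_cases hmin : MinSet L V
  · exact ⟨V, subset_rfl, hmin, hNC⟩
  obtain ⟨h, hstep, hV, x, y, hxy⟩ := hNC
  have hfin : V.Finite := Set.toFinite V
  have h2 : ∃ x y : V, x ≠ y :=
    ⟨⟨h x, hV x⟩, ⟨h y, hV y⟩, fun e => hxy (congrArg Subtype.val e)⟩
  have h3 : ∃ f : V → V, (∀ (R : σ.S) (p : Fin (σ.ar R) → V), (fam L V).P R p →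
      (fam L V).P R (fun j => f (p j))) ∧ ¬ Function.Injective f ∧ ¬ ∃ c, ∀ x, f x = c := by
    by_contra hcon
    apply hmin
    refine ⟨h2, ?_⟩
    intro f hf
    by_contra hc
    rw [not_or] at hc
    exact hcon ⟨f, hf, hc.1, hc.2⟩
  obtain ⟨f, hf, hinj, hconst⟩ := h3
  by_cases hc : ∃ x y, f ⟨h x, hV x⟩ ≠ f ⟨h y, hV y⟩
  · -- the image
    obtain ⟨x', y', hxy'⟩ := hc
    set V' : Set K := Set.range (fun z : V => (f z : K)) with hV'
    have hsub : V' ⊆ V := by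
      rintro _ ⟨z, rfl⟩
      exact (f z).2
    have hne : V' ≠ V := by
      intro e
      apply hinj
      have hsurj : Function.Surjective f := by
        intro z
        have : (z : K) ∈ V' := by rw [e]; exact z.2
        obtain ⟨w, hw⟩ := this
        exact ⟨w, Subtype.ext hw⟩
      exact Finite.injective_iff_surjective.mpr hsurj
    have hlt : V'.ncard < n := by
      rw [← hn]
      exact Set.ncard_lt_ncard (lt_of_le_of_ne hsub hne) hfin
    obtain ⟨U, hU, hU1, hU2⟩ := ih V'.ncard hlt V' rfl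
      ⟨fun x => (f ⟨h x, hV x⟩ : K), by
        intro R t ht hW
        exact hf R (fun j => ⟨h (t j), hV (t j)⟩) (fun _ => hstep R t ht hW) (hlive R t ht),
        fun x => ⟨⟨h x, hV x⟩, rfl⟩, x', y', fun e => hxy' (Subtype.ext e)⟩
    exact ⟨U, hU.trans hsub, hU1, hU2⟩
  · -- a fibre
    have hc' : ∀ x', f ⟨h x', hV x'⟩ = f ⟨h x, hV x⟩ := by
      intro x'
      by_contra hne
      exact hc ⟨x', x, hne⟩
    set V' : Set K := {z | ∃ hz : z ∈ V, f ⟨z, hz⟩ = f ⟨h x, hV x⟩} with hV'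
    have hsub : V' ⊆ V := by
      rintro z ⟨hz, -⟩
      exact hz
    have hne : V' ≠ V := by
      intro e
      apply hconst
      refine ⟨f ⟨h x, hV x⟩, fun z => ?_⟩
      have : (z : K) ∈ V' := by rw [e]; exact z.2
      obtain ⟨hz, hz'⟩ := this
      exact hz'
    have hlt : V'.ncard < n := by
      rw [← hn]
      exact Set.ncard_lt_ncard (lt_of_le_of_ne hsub hne) hfin
    obtain ⟨U, hU, hU1, hU2⟩ := ih V'.ncard hlt V' rfl
      ⟨h, hstep, fun x' => ⟨hV x', hc' x'⟩, x, y, hxy⟩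
    exact ⟨U, hU.trans hsub, hU1, hU2⟩

end Pool.Agent.Work.MP_8dbde4_lc.Tree
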