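import Pool.Agent.Work.MP_8dbde4_lc.Tree.Stmts
import Pool.Agent.Work.MP_8dbde4_lc.TS.Form

/-!
# The fixed-point formula for the refinement
-/

set_option autoImplicit false

open Classical

namespace Pool.Agent.Work.MP_8dbde4_lc.Tree

open Pool.Agent.Work.MP_8dbde4_lc.TS

namespace XFORM

variable {σ : Sig} {K : Type}

lemma stage_mono {C : Type} (F : (List C → Prop) → List C → Prop) {n m : ℕ} (h : n ≤ m)
    (l : List C) (hl : stage F n l) : stage F m l := by
  induction h with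
  | refl => exact hl
  | step _ ih => exact Or.inl ih

/-- The data of a rule. -/
abbrev Rule (σ : Sig) : Type := Σ R : σ.S, Finset (Fin (σ.ar R)) × Fin (σ.ar R)

noncomputable def rules (L : Lang σ K) (a b : K) : List (Rule σ) :=
  (Finset.univ.filter (fun p : Rule σ => Forced L a b p.1 p.2.1 p.2.2)).toList

lemma mem_rules (L : Lang σ K) (a b : K) (p : Rule σ) :
    p ∈ rules L a b ↔ Forced L a b p.1 p.2.1 p.2.2 := by
  simp [rules]

noncomputable def ruleF (p : Rule σ) : FP σ :=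
  FP.exB tv (σ.ar p.1) (FP.and (FP.and (FP.rel p.1 (fun j => tv j))
    (FP.bigAnd ((List.finRange (σ.ar p.1)).map
      (fun i : Fin (σ.ar p.1) => FP.neg (FP.app 1 [sc 2, tv i])))))
    (FP.and (FP.bigAnd (p.2.1.toList.map (fun i : Fin (σ.ar p.1) => FP.app 2 [tv i])))
      (FP.eq (tv p.2.2) (sc 3))))

noncomputable def bodyF (L : Lang σ K) (a b : K) : FP σ :=
  FP.or (FP.eq (sc 3) (sc 2)) (FP.bigOr ((rules L a b).map ruleF))

/-- `x` is in the hull of the value of `sc 2`. -/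
noncomputable def hullF (L : Lang σ K) (a b : K) (x : ℕ) : FP σ :=
  FP.ifp 2 [sc 3] (bodyF L a b) [x]

variable {A : Type} (𝔄 : Str σ A) (v : ℕ → A) (β : ℕ → List A → Prop)

lemma eval_ruleF (p : Rule σ) : (ruleF p).eval 𝔄 v β ↔ ∃ t : Fin (σ.ar p.1) → A,
    (𝔄.rel p.1 t ∧ ∀ i, ¬ β 1 [v (sc 2), t i]) ∧ (∀ i ∈ p.2.1, β 2 [t i]) ∧
      t p.2.2 = v (sc 3) := by
  unfold ruleF
  rw [FP.eval_exB]
  refine exists_congr fun t => ?_
  simp only [FP.eval_and, FP.eval_rel, FP.eval_eq, FP.eval_bigAnd, List.mem_map,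
    List.mem_finRange, true_and, forall_exists_index, forall_apply_eq_imp_iff, FP.eval_neg,
    FP.eval_app, List.map_cons, List.map_nil, blk_apply v tv_inj,
    blk_of_ne v tv (sc 2) (fun j => tv_ne_sc j 2 (by norm_num)),
    blk_of_ne v tv (sc 3) (fun j => tv_ne_sc j 3 (by norm_num)), Finset.mem_toList, and_imp,
    forall_apply_eq_imp_iff₂]

lemma sc23 : sc 2 ≠ sc 3 := by rw [Ne, sc_inj]; omega

lemma eval_bodyF (L : Lang σ K) (a b : K) (z : A) (P : List A → Prop) :
    (bodyF L a b).eval 𝔄 (upd v [sc 3] [z]) (Function.update β 2 P) ↔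
      (z = v (sc 2) ∨ ∃ p : Rule σ, Forced L a b p.1 p.2.1 p.2.2 ∧ ∃ t : Fin (σ.ar p.1) → A,
        (𝔄.rel p.1 t ∧ ∀ i, ¬ β 1 [v (sc 2), t i]) ∧ (∀ i ∈ p.2.1, P [t i]) ∧ t p.2.2 = z) := by
  simp only [bodyF, FP.eval_or, FP.eval_eq, upd, Function.update_self,
    Function.update_of_ne sc23, FP.eval_bigOr, List.mem_map, exists_exists_and_eq_and,
    mem_rules, eval_ruleF, Function.update_of_ne (show (1 : ℕ) ≠ 2 by norm_num)]

lemma eval_hullF (L : Lang σ K) (a b : K) (x : ℕ) :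
    (hullF L a b x).eval 𝔄 v β ↔
      Hull L 𝔄 a b {z | ¬ β 1 [v (sc 2), z]} (v (sc 2)) (v x) := by
  show (∃ n, stage (fun P l => [sc 3].Nodup ∧ l.length = [sc 3].length ∧
    (bodyF L a b).eval 𝔄 (upd v [sc 3] l) (Function.update β 2 P)) n [v x]) ↔ _
  set F : (List A → Prop) → List A → Prop := fun P l => [sc 3].Nodup ∧ l.length = [sc 3].length ∧
    (bodyF L a b).eval 𝔄 (upd v [sc 3] l) (Function.update β 2 P) with hF
  have hstep : ∀ (P : List A → Prop) (z : A), F P [z] ↔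
      (z = v (sc 2) ∨ ∃ p : Rule σ, Forced L a b p.1 p.2.1 p.2.2 ∧ ∃ t : Fin (σ.ar p.1) → A,
        (𝔄.rel p.1 t ∧ ∀ i, ¬ β 1 [v (sc 2), t i]) ∧ (∀ i ∈ p.2.1, P [t i]) ∧
          t p.2.2 = z) := by
    intro P z
    rw [hF]
    simp only [List.length_cons, List.length_nil, true_and, List.nodup_cons, List.not_mem_nil,
      not_false_eq_true, List.nodup_nil, and_self]
    exact eval_bodyF 𝔄 v β L a b z P
  constructor
  · rintro ⟨n, hn⟩
    have key : ∀ (n : ℕ) (z : A), stage F n [z] →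
        Hull L 𝔄 a b {z | ¬ β 1 [v (sc 2), z]} (v (sc 2)) z := by
      intro n
      induction n with
      | zero => intro z h; exact h.elim
      | succ n ih =>
        intro z h
        rcases h with h | h
        · exact ih z h
        · rcases (hstep _ _).1 h with rfl | ⟨p, hp, t, ⟨ht, hW⟩, hI, rfl⟩
          · exact Hull.base
          · exact Hull.step p.1 t p.2.1 p.2.2 ht hW hp (fun i hi => ih _ (hI i hi))
    exact key n _ hn
  · generalize v x = z₀
    intro h
    induction h with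
    | base => exact ⟨1, Or.inr ((hstep _ _).2 (Or.inl rfl))⟩
    | step R t I j ht hW hp _ ih =>
      choose n hn using ih
      obtain ⟨N, hN⟩ : ∃ N : ℕ, ∀ i (hi : i ∈ I), n i hi ≤ N := by
        refine ⟨∑ i : I, n i.1 i.2, fun i hi => ?_⟩
        exact Finset.single_le_sum (f := fun i : I => n i.1 i.2) (fun _ _ => Nat.zero_le _)
          (Finset.mem_univ (⟨i, hi⟩ : I))
      refine ⟨N + 1, Or.inr ((hstep _ _).2 (Or.inr ⟨⟨R, I, j⟩, hp, t, ⟨ht, hW⟩, ?_, rfl⟩))⟩
      exact fun i hi => stage_mono F (hN i hi) _ (hn i hi)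

noncomputable def iffF (φ ψ : FP σ) : FP σ := FP.or (FP.and φ ψ) (FP.and (FP.neg φ) (FP.neg ψ))

lemma eval_iffF (φ ψ : FP σ) :
    (iffF φ ψ).eval 𝔄 v β ↔ (φ.eval 𝔄 v β ↔ ψ.eval 𝔄 v β) := by
  simp only [iffF, FP.eval_or, FP.eval_and, FP.eval_neg]
  tauto

noncomputable def goods (L : Lang σ K) [Fintype K] : List (K × K) :=
  (Finset.univ.filter (fun p : K × K => Good L p.1 p.2)).toList

lemma mem_goods (L : Lang σ K) [Fintype K] (p : K × K) : p ∈ goods L ↔ Good L p.1 p.2 := by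
  simp [goods]

noncomputable def roundF (L : Lang σ K) [Fintype K] : FP σ :=
  FP.and (FP.neg (FP.app 1 [sc 0, sc 1])) (FP.bigOr ((goods L).map (fun p =>
    FP.ex (sc 2) (FP.and (FP.neg (FP.app 1 [sc 2, sc 0]))
      (FP.neg (iffF (hullF L p.1 p.2 (sc 0)) (hullF L p.1 p.2 (sc 1))))))))

lemma sc02 : sc 0 ≠ sc 2 := by rw [Ne, sc_inj]; omega
lemma sc12 : sc 1 ≠ sc 2 := by rw [Ne, sc_inj]; omega

lemma eval_roundF (L : Lang σ K) [Fintype K] :
    (roundF L).eval 𝔄 v β ↔ refine L 𝔄 (fun x y => β 1 [x, y]) (v (sc 0)) (v (sc 1)) := by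
  simp only [roundF, refine, FP.eval_and, FP.eval_neg, FP.eval_app, List.map_cons, List.map_nil,
    FP.eval_bigOr, List.mem_map, exists_exists_and_eq_and, mem_goods, FP.eval_ex, eval_iffF,
    eval_hullF, Function.update_self, Function.update_of_ne sc02, Function.update_of_ne sc12]
  refine and_congr_right fun _ => ?_
  constructor
  · rintro ⟨p, hp, y, h⟩
    exact ⟨p.1, p.2, y, hp, h⟩
  · rintro ⟨a, b, y, hp, h⟩
    exact ⟨(a, b), hp, y, h⟩

/-- `x`, `y` are separated at some stage. -/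
noncomputable def sepF (L : Lang σ K) [Fintype K] (x y : ℕ) : FP σ :=
  FP.ifp 1 [sc 0, sc 1] (roundF L) [x, y]

lemma eval_sepF (L : Lang σ K) [Fintype K] (x y : ℕ) :
    (sepF L x y).eval 𝔄 v β ↔ ∃ n, Sep L 𝔄 n (v x) (v y) := by
  have key : ∀ (n : ℕ) (a b : A),
      stage (fun P l => [sc 0, sc 1].Nodup ∧ l.length = [sc 0, sc 1].length ∧
        (roundF L).eval 𝔄 (upd v [sc 0, sc 1] l) (Function.update β 1 P)) n [a, b] ↔
      Sep L 𝔄 n a b := by
    intro n
    induction n with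
    | zero => intro a b; simp [stage, Sep]
    | succ n ih =>
      intro a b
      show (stage _ n [a, b] ∨ (_ ∧ _ ∧ _)) ↔ (Sep L 𝔄 n a b ∨ refine L 𝔄 (Sep L 𝔄 n) a b)
      refine or_congr (ih a b) ?_
      generalize stage (fun P l => [sc 0, sc 1].Nodup ∧ l.length = [sc 0, sc 1].length ∧
        (roundF L).eval 𝔄 (upd v [sc 0, sc 1] l) (Function.update β 1 P)) n = S at ih ⊢
      have h10 : sc 1 ≠ sc 0 := by rw [Ne, sc_inj]; omega
      have hnd : [sc 0, sc 1].Nodup := by simp [h10.symm]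
      have hfun : (fun a b => S [a, b]) = Sep L 𝔄 n := by
        funext a b
        exact propext (ih a b)
      simp only [eval_roundF, upd, Function.update_self, Function.update_of_ne h10.symm,
        List.length_cons, List.length_nil, true_and, hfun, hnd]
  show (∃ n, stage _ n [v x, v y]) ↔ _
  exact exists_congr fun n => key n _ _

noncomputable def liveF (L : Lang σ K) : FP σ :=
  FP.bigAnd ((Finset.univ.filter (fun R : σ.S => ¬ Live L R)).toList.map
    (fun R => FP.neg (FP.exB tv (σ.ar R) (FP.rel R (fun j => tv j)))))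

lemma eval_liveF (L : Lang σ K) : (liveF L).eval 𝔄 v β ↔
    ∀ (R : σ.S) (t : Fin (σ.ar R) → A), 𝔄.rel R t → Live L R := by
  simp only [liveF, FP.eval_bigAnd, List.mem_map, Finset.mem_toList, Finset.mem_filter,
    Finset.mem_univ, true_and, forall_exists_index, and_imp, forall_apply_eq_imp_iff₂,
    FP.eval_neg, FP.eval_exB, FP.eval_rel, blk_apply v tv_inj]
  constructor
  · intro h R t ht
    by_contra hR
    exact h R hR ⟨t, ht⟩
  · rintro h R hR ⟨t, ht⟩
    exact hR (h R t ht)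

noncomputable def strictF (L : Lang σ K) [Fintype K] : FP σ :=
  FP.bigAnd ((Finset.univ.filter (fun R : σ.S => L.strict R)).toList.map
    (fun R => FP.neg (FP.exB tv (σ.ar R) (FP.and (FP.rel R (fun j => tv j))
      (FP.neg (FP.bigOr ((Finset.univ : Finset (Fin (σ.ar R) × Fin (σ.ar R))).toList.map
        (fun p => sepF L (tv p.1) (tv p.2)))))))))

lemma eval_strictF (L : Lang σ K) [Fintype K] : (strictF L).eval 𝔄 v β ↔
    ∀ (R : σ.S) (t : Fin (σ.ar R) → A), L.strict R → 𝔄.rel R t →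
      ∃ i j, ∃ n, Sep L 𝔄 n (t i) (t j) := by
  simp only [strictF, FP.eval_bigAnd, List.mem_map, Finset.mem_toList, Finset.mem_filter,
    Finset.mem_univ, true_and, forall_exists_index, and_imp, forall_apply_eq_imp_iff₂,
    FP.eval_neg, FP.eval_exB, FP.eval_and, FP.eval_rel, blk_apply v tv_inj, FP.eval_bigOr,
    exists_exists_eq_and, eval_sepF]
  constructor
  · intro h R t hR ht
    by_contra hcon
    refine h R hR ⟨t, ht, ?_⟩
    rintro ⟨p, n, hn⟩
    exact hcon ⟨p.1, p.2, n, hn⟩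
  · rintro h R hR ⟨t, ht, hcon⟩
    obtain ⟨i, j, n, hn⟩ := h R t hR ht
    exact hcon ⟨(i, j), n, hn⟩

end XFORM

open XFORM in
theorem FORM_pf : S_FORM := by
  intro σ K _ L
  have _ : Fintype K := Fintype.ofFinite K
  refine ⟨FP.and (liveF L) (strictF L), fun A _ _ 𝔄 v => ?_⟩
  rw [FP.eval_and, eval_liveF, eval_strictF]
  rfl

end Pool.Agent.Work.MP_8dbde4_lc.Tree
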