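import Pool.Agent.Work.MP_8dbde4_lc.Tree.Stmts

/-!
Gadgets exist: the statement S_GAD from S_AFF, S_GA and S_GU.
-/

set_option autoImplicit false
open Classical

namespace Pool.Agent.Work.MP_8dbde4_lc.Tree

open Pool.Agent.Work.MP_8dbde4_lc.TS

theorem GAD_pf (hAff : S_AFF) (hA : S_GA) (hU : S_GU) : S_GAD := by
  intro σ M _ F hmin htp
  obtain ⟨a, b, hab⟩ := hmin.1
  by_cases hc : ∃ (I : Type) (_ : Finite I) (f : (I → M) → M) (i j : I),
      F.Pol f ∧ i ≠ j ∧ Dep f i ∧ Dep f j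
  · obtain ⟨inst, p, hp, hpx, h3, hcomm⟩ := hAff σ M F hmin htp hc
    have hne : ∃ x : M, x ≠ 0 := by
      by_contra hcon
      push Not at hcon
      exact hab ((hcon a).trans (hcon b).symm)
    obtain ⟨D, hD⟩ := hA σ M F p hne hp hpx htp h3 hcomm
    exact ⟨p, Fin 3, D, hp, inferInstance, hD⟩
  · obtain ⟨D, hD⟩ := hU σ M F ⟨a, b, hab⟩ htp hc
    have hfin : Finite (ZMod 2 × ZMod 2) := inferInstance
    exact ⟨2, ZMod 2 × ZMod 2, D, Nat.prime_two, hfin, hD⟩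

end Pool.Agent.Work.MP_8dbde4_lc.Tree
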