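import Pool.Agent.Work.MP_8dbde4_lc.Tree.Stmts

/-!
Item HORN of the block Tree of MP_8dbde4_lc: the Horn step and its minimality.
-/

set_option autoImplicit false
open Classical

namespace Pool.Agent.Work.MP_8dbde4_lc.Tree

open Pool.Agent.Work.MP_8dbde4_lc.TS

namespace XHORN

variable {σ : Sig} {K : Type}

/-- The meet of finitely many patterns. -/
theorem exists_meet (L : Lang σ K) (a b : K) (hG : Good L a b) (R : σ.S) (hR : Live L R)
    (I : Set (Fin (σ.ar R)))
    (J : Finset (Fin (σ.ar R)))
    (hJ : ∀ j ∈ J, ∃ p, L.P R p ∧ In {a, b} p ∧ (∀ i ∈ I, p i = b) ∧ p j = a) :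
    ∃ q, L.P R q ∧ In {a, b} q ∧ (∀ i ∈ I, q i = b) ∧ ∀ j ∈ J, q j = a := by
  induction J using Finset.induction_on with
  | empty =>
    refine ⟨fun _ => b, L.const R b, fun j => by simp, fun i _ => rfl, fun j hj => ?_⟩
    exact absurd hj (Finset.notMem_empty j)
  | insert k J hk ih =>
    obtain ⟨q, hq1, hq2, hq3, hq4⟩ := ih (fun j hj => hJ j (Finset.mem_insert_of_mem hj))
    obtain ⟨p, hp1, hp2, hp3, hp4⟩ := hJ k (Finset.mem_insert_self k J)
    refine ⟨fun j => meet a b (p j) (q j), hG.2 R hR p q hp2 hq2 hp1 hq1, ?_, ?_, ?_⟩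
    · intro j
      by_cases hc : p j = b ∧ q j = b
      · simp [meet, hc]
      · simp [meet, hc]
    · intro i hi
      simp [meet, hp3 i hi, hq3 i hi]
    · intro j hj
      rcases Finset.mem_insert.1 hj with h | h
      · subst h
        have : ¬ (a = b) := hG.1
        simp [meet, hp4, this]
      · have : ¬ (a = b) := hG.1
        simp [meet, hq4 j h, this]

end XHORN

theorem HORN_pf : S_HORN := by
  intro σ K L A 𝔄 a b W y hG
  refine ⟨?_, ?_⟩
  · intro hL R t ht hW
    have hR := hL R t ht hW
    -- the places in the hull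
    let I : Finset (Fin (σ.ar R)) := Finset.univ.filter (fun i => Hull L 𝔄 a b W y (t i))
    have hI : ∀ i, i ∈ I ↔ Hull L 𝔄 a b W y (t i) := fun i => by simp [I]
    have key : ∀ j ∈ (Finset.univ.filter (fun j => j ∉ I)),
        ∃ p, L.P R p ∧ In {a, b} p ∧ (∀ i ∈ (I : Set (Fin (σ.ar R))), p i = b) ∧ p j = a := by
      intro j hj
      have hj' : j ∉ I := (Finset.mem_filter.1 hj).2
      by_contra hcon
      apply hj'
      rw [hI]
      refine Hull.step R t I j ht hW ?_ (fun i hi => (hI i).1 hi)
      intro p hp hpin hpI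
      by_contra hpj
      apply hcon
      refine ⟨p, hp, hpin, fun i hi => hpI i (Finset.mem_coe.1 hi), ?_⟩
      rcases hpin j with h | h
      · exact h
      · exact absurd h hpj
    obtain ⟨q, hq1, hq2, hq3, hq4⟩ := XHORN.exists_meet L a b hG R hR I _ key
    have hqe : q = fun j => (fun x => if Hull L 𝔄 a b W y x then b else a) (t j) := by
      funext j
      by_cases hj : Hull L 𝔄 a b W y (t j)
      · have : j ∈ I := (hI j).2 hj
        simp only [hj, if_true]
        exact hq3 j (Finset.mem_coe.2 this)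
      · have hjI : j ∉ I := fun h => hj ((hI j).1 h)
        simp only [hj, if_false]
        exact hq4 j (Finset.mem_filter.2 ⟨Finset.mem_univ _, hjI⟩)
    rw [← hqe]
    exact hq1
  · intro h hs hv hy x hx
    induction hx with
    | base => exact hy
    | step R t I j ht hW hF _ ih =>
      exact hF (fun i => h (t i)) (hs R t ht hW) (fun i => hv (t i) (hW i)) ih

end Pool.Agent.Work.MP_8dbde4_lc.Tree
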