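import Pool.Agent.Work.MP_8dbde4_lc.Tree.Stmts

/-!
Item J0 of the block Tree of MP_8dbde4_lc: the instance `J_0` is solvable.
-/

set_option autoImplicit false
open Classical

namespace Pool.Agent.Work.MP_8dbde4_lc.Tree

open Pool.Agent.Work.MP_8dbde4_lc.TS

namespace XJ0

variable {σ : Sig} {K : Type}

/-- The solution of the local equations. -/
noncomputable def Phi {U : Set K} {G : Type} {p : ℕ} {I : Type} (D : Gad U p I)
    (f : ZMod p → ZMod p → (I → U) → U) : El σ U G p I → K
  | .main _ s => (D.io s : K)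
  | .site _ α β t => (f α β t : K)
  | .fresh _ α β _ t j => (f α β (t j) : K)

/-- The left element of a tie is not a main element. -/
theorem tie_left {U : Set K} {G : Type} [Group G] {p : ℕ} {I : Type} (D : Gad U p I) (g h : G)
    (b : ZMod p) {a w : El σ U G p I} (hT : Tie D g h b a w) (v : G) (s : ZMod p) :
    a ≠ El.main v s := by
  cases hT <;> exact fun e => by cases e

/-- The map `Phi` respects the ties of the first instance. -/
theorem tie_Phi {U : Set K} {G : Type} [Group G] {p : ℕ} {I : Type} (D : Gad U p I) (g h : G)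
    (f : ZMod p → ZMod p → (I → U) → U)
    (hf : ∀ α β s, f α β (D.u s) = D.io s ∧ f α β (D.x s) = D.io (s + α) ∧
      f α β (D.y s) = D.io (s + β) ∧ f α β (D.z s) = D.io (s + α + β))
    {a w : El σ U G p I} (hT : Tie D g h 0 a w) : Phi D f a = Phi D f w := by
  cases hT with
  | f v α β R t j => rfl
  | u v α β s =>
    simp only [Phi]
    rw [(hf α β s).1]
  | x v α β s =>
    simp only [Phi]
    rw [(hf α β s).2.1]
  | y v α β s =>
    simp only [Phi]
    rw [(hf α β s).2.2.1]
  | z v α β s =>
    simp only [Phi]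
    rw [(hf α β s).2.2.2, sub_zero]

/-- The strict constraint of the other kind gives an element different from a main element. -/
theorem split_iff (L : Lang σ K) (C : σ.S) (hC : IsSplit L C) {A : Type} (o a w : A) (H : A → K) :
    L.P C (fun j => H ((trip o a w : Fin (σ.ar C) → A) j)) ↔ H a = H w := by
  obtain ⟨h3, _, hp⟩ := hC
  rw [hp]
  constructor
  · intro hh
    have := hh ⟨1, by omega⟩ ⟨2, by omega⟩ rfl rfl
    simpa [trip] using this
  · intro hh i j hi hj
    simp only [trip, hi, hj]
    simpa using hh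

theorem main_thm (L : Lang σ K) (C : σ.S) (U : Set K) (G : Type) [Group G]
    (g h : G) (p : ℕ) (I : Type) (D : Gad U p I) (hC : IsSplit L C)
    (hD : D.OK (fam L U)) : Res L (JJ L C U g h D 0) := by
  have h3 : σ.ar C = 3 := hC.1
  choose f hpol hf using hD.sol
  have hstep : IsStep L (JJ L C U g h D 0) Set.univ (Phi D f) := by
    intro R T hT _
    rcases hT with ⟨hR, v, α, β, t, ht, rfl⟩ | ⟨rfl, a, w, hTie, rfl⟩
    · exact hpol α β R (fun j => t j) (fun i _ => ht i) hR
    · rw [split_iff L _ hC]
      exact tie_Phi D g h f hf hTie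
  intro W hW
  by_cases hcon : ∃ x ∈ W, ∃ y ∈ W, Phi D f x ≠ Phi D f y
  · exact ⟨Phi D f, fun R t ht _ => hstep R t ht (fun j => Set.mem_univ _), hcon⟩
  have hcon' : ∀ x ∈ W, ∀ y ∈ W, Phi D f x = Phi D f y := by
    intro x hx y hy
    by_contra hne
    exact hcon ⟨x, hx, y, hy, hne⟩
  have hio : (D.io 0 : K) ≠ (D.io 1 : K) := fun e => hD.inj (Subtype.ext e)
  by_cases ho : (El.main 1 0 : El σ U G p I) ∈ W
  · have hi : (El.main 1 1 : El σ U G p I) ∉ W := by
      intro hi
      exact hio (hcon' _ ho _ hi)
    have h01 : (D.io 0 : K) ≠ (D.io 1 : K) := hio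
    refine ⟨fun x => if x = El.main 1 0 then (D.io 0 : K) else (D.io 1 : K), ?_, ?_⟩
    · intro R T hT hTW
      rcases hT with ⟨hR, v, α, β, t, ht, rfl⟩ | ⟨rfl, a, w, hTie, rfl⟩
      · have : (fun j => if (El.fresh v α β R t j : El σ U G p I) = El.main 1 0
            then (D.io 0 : K) else (D.io 1 : K)) = fun _ => (D.io 1 : K) := by
          funext j
          rw [if_neg (by intro e; cases e)]
        rw [this]
        exact L.const R _
      · refine (split_iff L _ hC (anch w) a w
          (fun x => if x = El.main 1 0 then (D.io 0 : K) else (D.io 1 : K))).mpr ?_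
        have hw : w ≠ El.main 1 0 := by
          intro e
          have h0 := hTW ⟨0, by omega⟩
          simp only [trip, if_true, anch, e] at h0
          exact hi h0
        show (if a = El.main 1 0 then (D.io 0 : K) else (D.io 1 : K)) =
          (if w = El.main 1 0 then (D.io 0 : K) else (D.io 1 : K))
        rw [if_neg hw, if_neg (tie_left D g h 0 hTie 1 0)]
    · obtain ⟨R, T, hRs, hT, hTW⟩ := hW
      have hex : ∃ y ∈ W, y ≠ El.main 1 0 := by
        rcases hT with ⟨hR, v, α, β, t, ht, rfl⟩ | ⟨rfl, a, w, hTie, rfl⟩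
        · obtain ⟨q, _, i, _, _⟩ := hR hRs
          exact ⟨_, hTW i, by intro e; cases e⟩
        · refine ⟨a, ?_, tie_left D g h 0 hTie 1 0⟩
          have h1 := hTW ⟨1, by omega⟩
          simpa [trip] using h1
      obtain ⟨y, hy, hyo⟩ := hex
      refine ⟨_, ho, y, hy, ?_⟩
      simp only [if_true, if_neg hyo]
      exact h01
  · have hno : ∀ a w : El σ U G p I, ¬ ∀ j : Fin (σ.ar C),
        (trip (anch w) a w : Fin (σ.ar C) → El σ U G p I) j ∈ W := by
      intro a w hh
      have h0 := hh ⟨0, by omega⟩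
      have h2 := hh ⟨2, by omega⟩
      have h2' : w ∈ W := by simpa [trip] using h2
      have hw : w ≠ El.main 1 0 := by
        intro e
        exact ho (e ▸ h2')
      simp only [trip, if_true, anch, if_neg hw] at h0
      exact ho h0
    obtain ⟨R₀, T₀, hRs, hT₀, hTW₀⟩ := hW
    rcases hT₀ with ⟨hR₀, v₀, α₀, β₀, t₀, ht₀, rfl⟩ | ⟨rfl, a, w, hTie, rfl⟩
    · obtain ⟨q, hq, i₀, j₀, hij⟩ := hR₀ hRs
      let H : El σ U G p I → K := fun x =>
        if hx : ∃ j, x = El.fresh v₀ α₀ β₀ R₀ t₀ j then q hx.choose else q i₀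
      have hH : ∀ j, H (El.fresh v₀ α₀ β₀ R₀ t₀ j) = q j := by
        intro j
        have hx : ∃ j', (El.fresh v₀ α₀ β₀ R₀ t₀ j : El σ U G p I) =
            El.fresh v₀ α₀ β₀ R₀ t₀ j' := ⟨j, rfl⟩
        have h1 : H (El.fresh v₀ α₀ β₀ R₀ t₀ j) = q hx.choose := dif_pos hx
        rw [h1]
        have h2 := hx.choose_spec
        injection h2 with _ _ _ _ _ h7
        rw [← h7]
      refine ⟨H, ?_, ?_⟩
      · intro R T hT hTW
        rcases hT with ⟨hR, v, α, β, t, ht, rfl⟩ | ⟨rfl, a, w, hTie, rfl⟩
        · by_cases hsame : ∃ j j', (El.fresh v α β R t j : El σ U G p I) =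
              El.fresh v₀ α₀ β₀ R₀ t₀ j'
          · obtain ⟨j, j', e⟩ := hsame
            injection e with e1 e2 e3 e4 e5 e6
            subst e1 e2 e3 e4
            have e5' := eq_of_heq e5
            subst e5'
            have : (fun j => H (El.fresh v α β R t j)) = q := funext hH
            rw [this]
            exact hq
          · have : (fun j => H (El.fresh v α β R t j)) = fun _ => q i₀ := by
              funext j
              apply dif_neg
              rintro ⟨j', e⟩
              exact hsame ⟨j, j', e⟩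
            rw [this]
            exact L.const R _
        · exact absurd hTW (hno a w)
      · refine ⟨_, hTW₀ i₀, _, hTW₀ j₀, ?_⟩
        rw [hH, hH]
        exact hij
    · exact absurd hTW₀ (hno a w)

end XJ0

theorem J0_pf : S_J0 := by
  intro σ K L C U G _ g h p I D hC _ hD
  exact XJ0.main_thm L C U G g h p I D hC hD

end Pool.Agent.Work.MP_8dbde4_lc.Tree
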