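import Pool.Agent.Work.MP_8dbde4_lc.Tree.Stmts

set_option autoImplicit false

open Classical

namespace Pool.Agent.Work.MP_8dbde4_lc.Tree

namespace XRED

/-- The list of the letters of a pair. -/
def w (x : Option Bool × Option Bool) : List (Bool × Bool) :=
  (x.1.toList.map fun b => (b, true)) ++ (x.2.toList.map fun b => (b, false))

theorem mk_w (x : Option Bool × Option Bool) :
    ltr x.1 * (ltr x.2)⁻¹ = FreeGroup.mk (w x) := by
  obtain ⟨a, b⟩ := x
  cases a <;> cases b <;> simp [ltr, w, FreeGroup.of, FreeGroup.invRev, FreeGroup.one_eq_mk]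

theorem prod_mk (l : List (Option Bool × Option Bool)) :
    (l.map (fun x => ltr x.1 * (ltr x.2)⁻¹)).prod = FreeGroup.mk (l.flatMap w) := by
  induction l with
  | nil => simp [FreeGroup.one_eq_mk]
  | cons x t ih =>
    rw [List.map_cons, List.prod_cons, ih, mk_w, FreeGroup.mul_mk, List.flatMap_cons]

theorem red : ∀ l : List (Option Bool × Option Bool), (∀ x ∈ l, x.1 ≠ x.2) →
    l.IsChain (fun x y => x.2 ≠ y.1) → FreeGroup.IsReduced (l.flatMap w) := by
  intro l
  induction l with
  | nil => intro _ _; simp [FreeGroup.IsReduced]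
  | cons x t ih =>
    intro h1 h2
    cases t with
    | nil =>
      have hx := h1 x (by simp)
      obtain ⟨a, b⟩ := x
      cases a <;> cases b <;> simp_all [FreeGroup.IsReduced, w]
    | cons y s =>
      rw [List.isChain_cons_cons] at h2
      have h3 := ih (fun z hz => h1 z (List.mem_cons_of_mem _ hz)) h2.2
      have hx := h1 x (by simp)
      have hy := h1 y (by simp)
      have hxy := h2.1
      rw [List.flatMap_cons] at h3 ⊢
      rw [List.flatMap_cons]
      obtain ⟨a, b⟩ := x
      obtain ⟨c, d⟩ := y
      cases a <;> cases b <;> cases c <;> cases d <;>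
        simp_all [FreeGroup.IsReduced, w]

end XRED

theorem RED_pf : S_RED := by
  intro l hl h1 h2
  rw [XRED.prod_mk]
  have hr := XRED.red l h1 h2
  have hlen : ∀ l : List (Option Bool × Option Bool), (l.flatMap XRED.w).length ≤ 2 * l.length := by
    intro l
    induction l with
    | nil => simp
    | cons x t ih =>
      have hx : (XRED.w x).length ≤ 2 := by
        obtain ⟨a, b⟩ := x
        cases a <;> cases b <;> simp [XRED.w]
      rw [List.flatMap_cons, List.length_append, List.length_cons]
      omega
  have hw : (FreeGroup.mk (l.flatMap XRED.w)).toWord = l.flatMap XRED.w := by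
    rw [FreeGroup.toWord_mk]
    exact hr.reduce_eq
  refine ⟨?_, by rw [hw]; exact hlen l⟩
  intro h
  rw [← FreeGroup.toWord_eq_nil_iff, hw] at h
  cases l with
  | nil => exact hl rfl
  | cons x t =>
    have hx := h1 x (by simp)
    rw [List.flatMap_cons, List.append_eq_nil_iff] at h
    obtain ⟨a, b⟩ := x
    cases a <;> cases b <;> simp_all [XRED.w]

end Pool.Agent.Work.MP_8dbde4_lc.Tree
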