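import Pool.Agent.Work.MP_8dbde4_lc.Tree.Stmts

/-! Correctness of the refinement. -/

set_option autoImplicit false
open Classical

namespace Pool.Agent.Work.MP_8dbde4_lc.Tree

open Pool.Agent.Work.MP_8dbde4_lc.TS

namespace XREF

variable {σ : Sig} {K A : Type}

/-- `¬ Sep n` is an equivalence relation. -/
theorem eqv (L : Lang σ K) (𝔄 : Str σ A) (n : ℕ) :
    (∀ x, ¬ Sep L 𝔄 n x x) ∧ (∀ x y, ¬ Sep L 𝔄 n x y → ¬ Sep L 𝔄 n y x) ∧
      ∀ x y z, ¬ Sep L 𝔄 n x y → ¬ Sep L 𝔄 n y z → ¬ Sep L 𝔄 n x z := by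
  induction n with
  | zero => exact ⟨fun _ h => h, fun _ _ _ h => h, fun _ _ _ _ _ h => h⟩
  | succ n ih =>
    obtain ⟨hr, hs, ht⟩ := ih
    refine ⟨?_, ?_, ?_⟩
    · rintro x (h | ⟨_, a, b, y, _, _, h⟩)
      · exact hr x h
      · exact h Iff.rfl
    · rintro x y hxy (h | ⟨h0, a, b, w, hg, hw, h⟩)
      · exact hs x y (fun h' => hxy (Or.inl h')) h
      · exact hxy (Or.inr ⟨hs y x h0, a, b, w, hg, ht w y x hw h0, fun h' => h h'.symm⟩)
    · rintro x y z hxy hyz (h | ⟨h0, a, b, w, hg, hw, h⟩)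
      · exact ht x y z (fun h' => hxy (Or.inl h')) (fun h' => hyz (Or.inl h')) h
      · have hxy0 : ¬ Sep L 𝔄 n x y := fun h' => hxy (Or.inl h')
        have hyz0 : ¬ Sep L 𝔄 n y z := fun h' => hyz (Or.inl h')
        have h1 : Hull L 𝔄 a b {z | ¬ Sep L 𝔄 n w z} w x ↔
            Hull L 𝔄 a b {z | ¬ Sep L 𝔄 n w z} w y := by
          by_contra hne
          exact hxy (Or.inr ⟨hxy0, a, b, w, hg, hw, hne⟩)
        have h2 : Hull L 𝔄 a b {z | ¬ Sep L 𝔄 n w z} w y ↔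
            Hull L 𝔄 a b {z | ¬ Sep L 𝔄 n w z} w z := by
          by_contra hne
          exact hyz (Or.inr ⟨hyz0, a, b, w, hg, ht w x y hw hxy0, hne⟩)
        exact h (h1.trans h2)

theorem mono (L : Lang σ K) (𝔄 : Str σ A) (n : ℕ) (x y : A) (h : Sep L 𝔄 n x y) :
    Sep L 𝔄 (n + 1) x y := Or.inl h

/-- The stages become stable. -/
theorem stable [Finite A] (L : Lang σ K) (𝔄 : Str σ A) :
    ∃ n, ∀ x y, Sep L 𝔄 (n + 1) x y → Sep L 𝔄 n x y := by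
  have hm : Monotone (fun n => {q : A × A | Sep L 𝔄 n q.1 q.2}) :=
    monotone_nat_of_le_succ (fun n q hq => mono L 𝔄 n _ _ hq)
  obtain ⟨n, hn⟩ := WellFoundedGT.monotone_chain_condition
    (⟨fun n => {q : A × A | Sep L 𝔄 n q.1 q.2}, hm⟩ : ℕ →o Set (A × A))
  refine ⟨n, fun x y h => ?_⟩
  have h1 : {q : A × A | Sep L 𝔄 n q.1 q.2} = {q : A × A | Sep L 𝔄 (n + 1) q.1 q.2} :=
    hn (n + 1) (by omega)
  have h2 : (x, y) ∈ {q : A × A | Sep L 𝔄 (n + 1) q.1 q.2} := h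
  rw [← h1] at h2
  exact h2

theorem forw (hC : S_CLEAN) (hH : S_HORN) (L : Lang σ K) (hG : GS L) [Finite A] (𝔄 : Str σ A)
    (hR : Res L 𝔄) : Acc L 𝔄 := by
  refine ⟨hC σ K L A 𝔄 hR, ?_⟩
  intro R t hst hrel
  by_contra hcon
  push Not at hcon
  obtain ⟨n, hn⟩ := stable L 𝔄
  obtain ⟨hr, hs, ht⟩ := eqv L 𝔄 n
  -- the tuple is not empty
  obtain ⟨_, _, x, ⟨i0, _⟩, _⟩ := hR (Set.range t) ⟨R, t, hst, hrel, fun j => ⟨j, rfl⟩⟩
  set W : Set A := {z | ¬ Sep L 𝔄 n (t i0) z} with hW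
  have hcls : ∀ y ∈ W, {z | ¬ Sep L 𝔄 n y z} = W := by
    intro y hy
    ext z
    constructor
    · intro hz
      exact ht _ _ _ hy hz
    · intro hz
      exact ht _ _ _ (hs _ _ hy) hz
  let 𝔚 : Str σ W := ⟨fun R s => 𝔄.rel R (fun j => (s j : A))⟩
  have hRW : Res L 𝔚 := by
    intro W' hW'
    obtain ⟨R', t', hst', hrel', hin'⟩ := hW'
    obtain ⟨h, hstep, x, hx, y, hy, hxy⟩ := hR (Subtype.val '' W')
      ⟨R', fun j => (t' j : A), hst', hrel', fun j => ⟨t' j, hin' j, rfl⟩⟩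
    refine ⟨fun z => h z, ?_, ?_⟩
    · intro R'' t'' hrel'' hin''
      exact hstep R'' (fun j => (t'' j : A)) hrel'' (fun j => ⟨t'' j, hin'' j, rfl⟩)
    · obtain ⟨x', hx', rfl⟩ := hx
      obtain ⟨y', hy', rfl⟩ := hy
      exact ⟨x', hx', y', hy', hxy⟩
  obtain ⟨a, b, hgood, h, hstep, hab, x1, x2, hne⟩ := hG W 𝔚 hRW
    ⟨R, fun j => ⟨t j, hcon i0 j n⟩, hst, hrel, fun j => trivial⟩
  have hxy : ∃ x0 y1 : W, h x0 = a ∧ h y1 = b := by
    rcases hab x1 with h1 | h1 <;> rcases hab x2 with h2 | h2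
    · exact absurd (h1.trans h2.symm) hne
    · exact ⟨x1, x2, h1, h2⟩
    · exact ⟨x2, x1, h2, h1⟩
    · exact absurd (h1.trans h2.symm) hne
  obtain ⟨x0, y1, hx0, hy1⟩ := hxy
  set h' : A → K := fun z => if hz : z ∈ W then h ⟨z, hz⟩ else a with hh'
  have hval : ∀ z : W, h' z = h z := by
    intro z
    simp only [hh']
    rw [dif_pos z.2]
  have hst' : IsStep L 𝔄 W h' := by
    intro R' t' hrel' hin'
    have := hstep R' (fun j => ⟨t' j, hin' j⟩) hrel' (fun j => trivial)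
    have he : (fun j => h' (t' j)) = fun j => h ⟨t' j, hin' j⟩ := by
      funext j
      exact hval ⟨t' j, hin' j⟩
    rw [he]
    exact this
  have hull := (hH σ K L A 𝔄 a b W y1 hgood).2 h' hst'
    (fun x hx => by rw [hval ⟨x, hx⟩]; exact hab _) (by rw [hval]; exact hy1)
  have hnx : ¬ Hull L 𝔄 a b W y1 x0 := by
    intro hx
    have := hull x0 hx
    rw [hval, hx0] at this
    exact hgood.1 this
  have hyx : ¬ Sep L 𝔄 n (y1 : A) x0 := by
    have h1 : (x0 : A) ∈ {z | ¬ Sep L 𝔄 n (y1 : A) z} := by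
      rw [hcls y1 y1.2]; exact x0.2
    exact h1
  apply hyx
  apply hn
  refine Or.inr ⟨hyx, a, b, y1, hgood, hr _, ?_⟩
  rw [hcls y1 y1.2]
  intro hiff
  exact hnx (hiff.1 Hull.base)

theorem back (hH : S_HORN) (L : Lang σ K) (𝔄 : Str σ A) (hA : Acc L 𝔄) : Res L 𝔄 := by
  intro W hW
  obtain ⟨R, t, hst, hrel, hin⟩ := hW
  obtain ⟨i, j, n0, hsep⟩ := hA.2 R t hst hrel
  have hex : ∃ n, ∃ x ∈ W, ∃ y ∈ W, Sep L 𝔄 n x y := ⟨n0, t i, hin i, t j, hin j, hsep⟩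
  obtain ⟨x, hx, y, hy, hxy⟩ := Nat.find_spec hex
  have hmin : ∀ m < Nat.find hex, ∀ x ∈ W, ∀ y ∈ W, ¬ Sep L 𝔄 m x y := by
    intro m hm x hx y hy h
    exact Nat.find_min hex hm ⟨x, hx, y, hy, h⟩
  rcases hn : Nat.find hex with _ | m
  · rw [hn] at hxy
    exact absurd hxy id
  · rw [hn] at hxy hmin
    have hm := hmin m (by omega)
    obtain ⟨hr, hs, ht⟩ := eqv L 𝔄 m
    rcases hxy with hxy | ⟨h0, a, b, w, hg, hwx, hne⟩
    · exact absurd hxy (hm x hx y hy)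
    · have hsub : ∀ z ∈ W, z ∈ {z | ¬ Sep L 𝔄 m w z} := by
        intro z hz
        exact ht w x z hwx (hm x hx z hz)
      have hstep := (hH σ K L A 𝔄 a b {z | ¬ Sep L 𝔄 m w z} w hg).1
        (fun R t hrel _ => hA.1 R t hrel)
      refine ⟨fun x => if Hull L 𝔄 a b {z | ¬ Sep L 𝔄 m w z} w x then b else a,
        fun R' t' hrel' hin' => hstep R' t' hrel' (fun j => hsub _ (hin' j)), ?_⟩
      refine ⟨x, hx, y, hy, ?_⟩
      have hab : a ≠ b := hg.1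
      by_cases h1 : Hull L 𝔄 a b {z | ¬ Sep L 𝔄 m w z} w x
      · have h2 : ¬ Hull L 𝔄 a b {z | ¬ Sep L 𝔄 m w z} w y := fun h => hne ⟨fun _ => h, fun _ => h1⟩
        simp only [if_pos h1, if_neg h2]
        exact hab.symm
      · have h2 : Hull L 𝔄 a b {z | ¬ Sep L 𝔄 m w z} w y := by
          by_contra h
          exact hne ⟨fun h' => absurd h' h1, fun h' => absurd h' h⟩
        simp only [if_neg h1, if_pos h2]
        exact hab

end XREF

theorem REF_pf (h1 : S_CLEAN) (h2 : S_HORN) : S_REF := by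
  intro σ K _ L hG A _ 𝔄
  exact ⟨XREF.forw h1 h2 L hG 𝔄, XREF.back h2 L 𝔄⟩

end Pool.Agent.Work.MP_8dbde4_lc.Tree
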