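import Pool.Agent.Work.MP_8dbde4_lc.Tree.Stmts

/-!
The combinatorial form gives a solution (recursion over classes): see the docstring of `S_RES2`.
-/

set_option autoImplicit false
open Classical

namespace Pool.Agent.Work.MP_8dbde4_lc.Tree

open Pool.Agent.Work.MP_8dbde4_lc.TS

namespace XRES2

variable {σ : Sig} {K : Type}

/-- Change the letter at the place `q₀`. -/
noncomputable def chg {c : ℚ → K} (q₀ : ℚ) (a : K) (x : Word c) : Word c :=
  ⟨Function.update x.1 q₀ a, by
    refine (x.2.union (Set.finite_singleton q₀)).subset ?_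
    intro q hq
    by_cases h : q = q₀
    · exact Or.inr h
    · left
      simpa [Function.update_of_ne h] using hq⟩

theorem chg_self {c : ℚ → K} (q₀ : ℚ) (a : K) (x : Word c) : (chg q₀ a x).1 q₀ = a :=
  Function.update_self _ _ _

theorem chg_ne {c : ℚ → K} {q₀ q : ℚ} (a : K) (x : Word c) (h : q ≠ q₀) :
    (chg q₀ a x).1 q = x.1 q := Function.update_of_ne h _ _

theorem main (L : Lang σ K) (c : ℚ → K) {A : Type} [Finite A] (𝔄 : Str σ A) (hR : Res L 𝔄) :
    ∀ (n : ℕ) (W : Set A), W.ncard = n → ∀ q₀ : ℚ, ∃ f : A → Word c,
      (∀ x, ∀ q < q₀, (f x).1 q = c q) ∧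
      ∀ (R : σ.S) (t : Fin (σ.ar R) → A), 𝔄.rel R t → (∀ j, t j ∈ W) →
        (L.tree c).rel R (fun j => f (t j)) := by
  intro n
  induction n using Nat.strong_induction_on with
  | _ n ih =>
  intro W hW q₀
  by_cases hs : HasStrict L 𝔄 W
  · obtain ⟨h, hst, x₀, hx₀, y₀, hy₀, hne⟩ := hR W hs
    have hcls : ∀ a : K, ∃ f : A → Word c, (∀ x, ∀ q < q₀ + 1, (f x).1 q = c q) ∧
        ∀ (R : σ.S) (t : Fin (σ.ar R) → A), 𝔄.rel R t → (∀ j, t j ∈ {x ∈ W | h x = a}) →
          (L.tree c).rel R (fun j => f (t j)) := by
      intro a
      refine ih _ ?_ {x ∈ W | h x = a} rfl (q₀ + 1)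
      rw [← hW]
      refine Set.ncard_lt_ncard ?_ (Set.toFinite _)
      refine ⟨fun x hx => hx.1, fun hsub => ?_⟩
      exact hne ((hsub hx₀).2.trans (hsub hy₀).2.symm)
    choose F hF1 hF2 using hcls
    refine ⟨fun x => chg q₀ (h x) (F (h x) x), ?_, ?_⟩
    · intro x q hq
      rw [chg_ne _ _ hq.ne]
      exact hF1 _ _ _ (by linarith)
    · intro R t hRt hW'
      by_cases hc : ∃ a, ∀ j, h (t j) = a
      · obtain ⟨a, ha⟩ := hc
        obtain ⟨h1, h2⟩ := hF2 a R t hRt (fun j => ⟨hW' j, ha j⟩)
        have key : ∀ j q, q ≠ q₀ →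
            (chg q₀ (h (t j)) (F (h (t j)) (t j))).1 q = (F a (t j)).1 q := by
          intro j q hq
          rw [chg_ne _ _ hq, ha j]
        have key0 : ∀ j, (F a (t j)).1 q₀ = c q₀ := fun j => hF1 a _ _ (by linarith)
        refine ⟨?_, ?_⟩
        · intro q hq
          have hqne : q ≠ q₀ := by
            rintro rfl
            obtain ⟨i, j, hij⟩ := hq.2
            refine hij ?_
            change (chg q (h (t i)) (F (h (t i)) (t i))).1 q =
              (chg q (h (t j)) (F (h (t j)) (t j))).1 q
            rw [chg_self, chg_self, ha i, ha j]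
          have hsp : FirstSplit (fun j => F a (t j)) q := by
            refine ⟨?_, ?_⟩
            · intro q' hq' i j
              by_cases hqq : q' = q₀
              · subst hqq
                exact (key0 i).trans (key0 j).symm
              · have := hq.1 q' hq' i j
                change (chg q₀ (h (t i)) (F (h (t i)) (t i))).1 q' =
                  (chg q₀ (h (t j)) (F (h (t j)) (t j))).1 q' at this
                rw [key i q' hqq, key j q' hqq] at this
                exact this
            · obtain ⟨i, j, hij⟩ := hq.2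
              refine ⟨i, j, fun he => hij ?_⟩
              change (chg q₀ (h (t i)) (F (h (t i)) (t i))).1 q =
                  (chg q₀ (h (t j)) (F (h (t j)) (t j))).1 q
              rw [key i q hqne, key j q hqne]
              exact he
          have h3 := h1 q hsp
          have e : (fun j => (chg q₀ (h (t j)) (F (h (t j)) (t j))).1 q) =
              fun j => (F a (t j)).1 q := funext fun j => key j q hqne
          change L.P R (fun j => (chg q₀ (h (t j)) (F (h (t j)) (t j))).1 q)
          rw [e]
          exact h3
        · intro hstr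
          obtain ⟨i, j, hij⟩ := h2 hstr
          refine ⟨i, j, fun he => hij ?_⟩
          apply Subtype.ext
          funext q
          by_cases hq : q = q₀
          · subst hq
            exact (key0 i).trans (key0 j).symm
          · have h4 : (chg q₀ (h (t i)) (F (h (t i)) (t i))).1 q =
                (chg q₀ (h (t j)) (F (h (t j)) (t j))).1 q := by
              have := congrArg (fun z : Word c => z.1 q) he
              exact this
            rw [key i q hq, key j q hq] at h4
            exact h4
      · have hne' : ∃ i j, h (t i) ≠ h (t j) := by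
          by_contra hcon
          push Not at hcon
          apply hc
          by_cases hem : Nonempty (Fin (σ.ar R))
          · obtain ⟨j₀⟩ := hem
            exact ⟨h (t j₀), fun j => hcon j j₀⟩
          · exact ⟨h x₀, fun j => absurd ⟨j⟩ hem⟩
        obtain ⟨i₀, j₀, hij₀⟩ := hne'
        refine ⟨?_, ?_⟩
        · intro q hq
          have hqq : q = q₀ := by
            rcases lt_trichotomy q q₀ with hlt | heq | hgt
            · exfalso
              obtain ⟨i, j, hij⟩ := hq.2
              refine hij ?_
              change (chg q₀ (h (t i)) (F (h (t i)) (t i))).1 q =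
                  (chg q₀ (h (t j)) (F (h (t j)) (t j))).1 q
              rw [chg_ne _ _ hlt.ne, chg_ne _ _ hlt.ne, hF1 _ _ _ (by linarith),
                hF1 _ _ _ (by linarith)]
            · exact heq
            · exfalso
              have := hq.1 q₀ hgt i₀ j₀
              change (chg q₀ (h (t i₀)) (F (h (t i₀)) (t i₀))).1 q₀ =
                  (chg q₀ (h (t j₀)) (F (h (t j₀)) (t j₀))).1 q₀ at this
              rw [chg_self, chg_self] at this
              exact hij₀ this
          subst hqq
          have e : (fun j => (chg q (h (t j)) (F (h (t j)) (t j))).1 q) =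
              fun j => h (t j) := funext fun j => chg_self _ _ _
          change L.P R (fun j => (chg q (h (t j)) (F (h (t j)) (t j))).1 q)
          rw [e]
          exact hst R t hRt hW'
        · intro _
          refine ⟨i₀, j₀, fun he => hij₀ ?_⟩
          have h4 : (chg q₀ (h (t i₀)) (F (h (t i₀)) (t i₀))).1 q₀ =
              (chg q₀ (h (t j₀)) (F (h (t j₀)) (t j₀))).1 q₀ :=
            congrArg (fun z : Word c => z.1 q₀) he
          rw [chg_self, chg_self] at h4
          exact h4
  · refine ⟨fun _ => ⟨c, by simp⟩, fun _ _ _ => rfl, ?_⟩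
    intro R t hRt hW'
    refine ⟨?_, ?_⟩
    · intro q hq
      obtain ⟨i, j, hij⟩ := hq.2
      exact absurd rfl hij
    · intro hstr
      exact absurd ⟨R, t, hstr, hRt, hW'⟩ hs

end XRES2

theorem RES2_pf : S_RES2 := by
  intro σ K L c A _ 𝔄 hR
  obtain ⟨f, _, hf⟩ := XRES2.main L c 𝔄 hR _ Set.univ rfl 0
  exact ⟨f, fun R t hRt => hf R t hRt (fun _ => Set.mem_univ _)⟩

end Pool.Agent.Work.MP_8dbde4_lc.Tree
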