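import Pool.Agent.Work.MP_8dbde4_lc.Tree.I_GAME
import Pool.Agent.Work.MP_8dbde4_lc.Tree.I_PGRP
import Pool.Agent.Work.MP_8dbde4_lc.Tree.I_PING
import Pool.Agent.Work.MP_8dbde4_lc.Tree.I_RED
import Pool.Agent.Work.MP_8dbde4_lc.Tree.I_DEN
import Pool.Agent.Work.MP_8dbde4_lc.Tree.I_CLO
import Pool.Agent.Work.MP_8dbde4_lc.Tree.I_EXT
import Pool.Agent.Work.MP_8dbde4_lc.Tree.I_INJ
import Pool.Agent.Work.MP_8dbde4_lc.Tree.I_TWIN
import Pool.Agent.Work.MP_8dbde4_lc.Tree.I_MALT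
import Pool.Agent.Work.MP_8dbde4_lc.Tree.I_COMM
import Pool.Agent.Work.MP_8dbde4_lc.Tree.I_AFF
import Pool.Agent.Work.MP_8dbde4_lc.Tree.I_GA
import Pool.Agent.Work.MP_8dbde4_lc.Tree.I_GU
import Pool.Agent.Work.MP_8dbde4_lc.Tree.I_GAD
import Pool.Agent.Work.MP_8dbde4_lc.Tree.I_J0
import Pool.Agent.Work.MP_8dbde4_lc.Tree.I_J1
import Pool.Agent.Work.MP_8dbde4_lc.Tree.I_JZ
import Pool.Agent.Work.MP_8dbde4_lc.Tree.I_CLEAN
import Pool.Agent.Work.MP_8dbde4_lc.Tree.I_RES1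
import Pool.Agent.Work.MP_8dbde4_lc.Tree.I_RES2
import Pool.Agent.Work.MP_8dbde4_lc.Tree.I_HORN
import Pool.Agent.Work.MP_8dbde4_lc.Tree.I_REF
import Pool.Agent.Work.MP_8dbde4_lc.Tree.I_FORM
import Pool.Agent.Work.MP_8dbde4_lc.Tree.I_NEG1
import Pool.Agent.Work.MP_8dbde4_lc.Tree.I_TYP
import Pool.Agent.Work.MP_8dbde4_lc.Tree.I_OPE
import Pool.Agent.Work.MP_8dbde4_lc.Tree.I_CTB
import Pool.Agent.Work.MP_8dbde4_lc.Tree.I_HOM
import Pool.Agent.Work.MP_8dbde4_lc.Tree.I_FB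

/-!
# The theorem on first-split languages
-/

set_option autoImplicit false
open Classical

namespace Pool.Agent.Work.MP_8dbde4_lc.Tree

open Pool.Agent.Work.MP_8dbde4_lc.TS

theorem PGRP_ok : S_PGRP := PGRP_pf PING_pf
theorem DEN_ok : S_DEN := DEN_pf RED_pf
theorem EXT_ok : S_EXT := EXT_pf CLO_pf
theorem AFF_ok : S_AFF := AFF_pf MALT_pf COMM_pf
theorem GAD_ok : S_GAD := GAD_pf AFF_ok (GA_pf INJ_pf) (GU_pf INJ_pf)
theorem JZ_ok : S_JZ := JZ_pf EXT_ok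
theorem RES_ok : S_RES := S_RES_of RES1_pf RES2_pf

theorem NEG_ok : S_NEG :=
  NEG1_pf GAME_pf PGRP_ok DEN_ok GAD_ok TWIN_pf J0_pf J1_pf JZ_ok CLEAN_pf DESC_pf RES_ok

theorem POS_ok : S_POS := S_POS_of RES_ok (REF_pf CLEAN_pf HORN_pf) FORM_pf

theorem RFBH_ok (σ : Sig) (K : Type) [Finite K] (L : Lang σ K) (c : ℚ → K) (hc : DenseW c) :
    RFBH (L.tree c) :=
  S_RFBH_of (HOM_pf TYP_pf OPE_pf CTB_pf) (FB_pf TYP_pf) CTB_pf σ K L c hc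

theorem tree_main (σ : Sig) (K : Type) [Finite K] (L : Lang σ K) (c : ℚ → K) (C : σ.S)
    (hC : IsSplit L C) (h : InFPC (CSP (L.tree c))) : InFP (CSP (L.tree c)) :=
  main_of POS_ok NEG_ok σ K L c C hC h

end Pool.Agent.Work.MP_8dbde4_lc.Tree
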