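import Pool.Agent.Work.MP_8dbde4_lc.Tree.Defs

/-!
Statements of the block Tree of MP_8dbde4_lc (paper proof: the note 'HOME LOG 1' of helper90). Every
docstring contains the proof. The final theorem is `main_of` in `Tree/Defs.lean`:
FPC-definable implies FP-definable for all first-split languages with the split relation.
-/

set_option autoImplicit false
open Classical

namespace Pool.Agent.Work.MP_8dbde4_lc.Tree

open Pool.Agent.Work.MP_8dbde4_lc.TS

/-! ### Part G: back-and-forth systems with bijections and FPC -/

/-- A back-and-forth system with `k` pebbles and bijections. -/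
structure BFSys {σ : Sig} {A B : Type} (𝔄 : Str σ A) (𝔅 : Str σ B) (k : ℕ)
    (Z : (Fin k → A) → (Fin k → B) → Prop) : Prop where
  atomRel : ∀ v w, Z v w → ∀ (R : σ.S) (i : Fin (σ.ar R) → Fin k),
    𝔄.rel R (fun j => v (i j)) ↔ 𝔅.rel R (fun j => w (i j))
  atomEq : ∀ v w, Z v w → ∀ i j, v i = v j ↔ w i = w j
  subst : ∀ v w, Z v w → ∀ ρ : Fin k → Fin k, Z (fun i => v (ρ i)) (fun i => w (ρ i))
  forth : ∀ v w, Z v w → ∀ x : Fin k, ∃ f : A ≃ B,
    ∀ a, Z (Function.update v x a) (Function.update w x (f a))

/-- FPC cannot separate structures related by back-and-forth systems. Proof: for a formula `φ`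
choose `k ≥ 1` above all its element variables (bound ones, arguments, parameters). By induction on
`φ` show: if `β, β'` are compatible, i.e. for all `X`, all lists `ts` whose element variables are
`< k`, all `(v, w)` with `Z (v ∘ val) (w ∘ val)` and all `ν`:
`β X (sorts ts) (ts.map (Sum.map v ν)) ↔ β' X (sorts ts) (ts.map (Sum.map w ν))`, then `φ` has the
same truth value under `v, ν, β` and `w, ν, β'`. Atoms: `atomRel`, `atomEq`, compatibility.
`exE`, `cnt`: the bijection `f` (`forth`) for `update v x a` (`x < k`); `exN`: `Nat.card A =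
Nat.card B` (a bijection exists). `ifp X ys φ ts`: by induction on `n` the stages `n` are compatible:
for `l = ts.map (Sum.map v ν)` the assignment `updE v ys l` is `v ∘ ρ` for a substitution `ρ` of
variables `< k` (the variable `y` is sent to the corresponding entry of `ts`), also for `w`: use
`subst`; `updN` is the same on both sides; the new relation variable `P` (the stage) is compatible
by the induction hypothesis of `n`. -/
def S_GAME : Prop := ∀ (σ : Sig) (𝒦 : Class σ),
  (∀ k : ℕ, ∃ (A B : Type) (_ : Finite A) (_ : Finite B) (𝔄 : Str σ A) (𝔅 : Str σ B)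
    (Z : (Fin k → A) → (Fin k → B) → Prop), BFSys 𝔄 𝔅 k Z ∧ (∃ v w, Z v w) ∧
      𝒦 A 𝔄 ∧ ¬ 𝒦 B 𝔅) → ¬ InFPC 𝒦

/-! ### Part X: groups of large girth, closures -/

/-- `g = 1 + m E_12`. -/
def mA (m : ℤ) : Matrix.SpecialLinearGroup (Fin 2) ℤ := ⟨!![1, m; 0, 1], by simp⟩
/-- `h = 1 + m E_21`. -/
def mB (m : ℤ) : Matrix.SpecialLinearGroup (Fin 2) ℤ := ⟨!![1, 0; m, 1], by simp⟩

/-- Ping-pong (`FreeGroup.injective_lift_of_ping_pong`) for the action on `ℤ × ℤ` (or on the non-zero
vectors): `X_g = {|x| > |y|, (x y > 0 or y = 0)}`, `Y_g = {|x| > |y|, x y < 0}`, `X_h`, `Y_h` the same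
with `x, y` exchanged. -/
def S_PING : Prop := ∀ m : ℤ, 4 ≤ m → Function.Injective
  (FreeGroup.lift (fun b : Bool => cond b (mA m) (mB m)))

/-- Finite `p`-groups of large girth. Proof: `m = p^2 ≥ 4`, S_PING; for each of the finitely many
non-trivial reduced words of length `≤ n` some entry of `w(g, h) - 1` is a non-zero integer; choose
`j ≥ 1` such that `p^j` divides none of these entries. `G` = the group of the matrices in
`SL(2, ZMod (p^j))` of the form `1 + p N`. It is a `p`-group: `(1 + p X)^(p^j) - 1` is divisible by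
`p^(j+1)` in `ℤ[X]` (`dvd_sub_pow_of_dvd_sub`). -/
def S_PGRP : Prop := ∀ p n : ℕ, p.Prime → ∃ (G : Type) (_ : Group G) (_ : Finite G) (g h : G),
  IsPGroup p G ∧ ∀ w : FreeGroup Bool, w ≠ 1 → w.toWord.length ≤ n →
    FreeGroup.lift (fun b : Bool => cond b g h) w ≠ 1

/-- The word `1`, `g` or `h`. -/
def ltr : Option Bool → FreeGroup Bool
  | none => 1
  | some b => FreeGroup.of b

/-- Words without backtracking are not trivial: `s₁ s₁'⁻¹ s₂ s₂'⁻¹ ⋯` with neighbours different.
The letters at the first places of the pairs occur with exponent `1`, those at the second places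
with exponent `-1`; after deletion of the `none` neighbours are different letters of adjacent places
or come from places at distance two (equal exponents), so the word is reduced, and not empty. -/
def S_RED : Prop := ∀ (l : List (Option Bool × Option Bool)), l ≠ [] →
  (∀ x ∈ l, x.1 ≠ x.2) → l.IsChain (fun x y => x.2 ≠ y.1) →
  (l.map (fun x => ltr x.1 * (ltr x.2)⁻¹)).prod ≠ 1 ∧
    ((l.map (fun x => ltr x.1 * (ltr x.2)⁻¹)).prod).toWord.length ≤ 2 * l.length

/-- The row of `v`. -/
noncomputable def row {G : Type} [Group G] (g h v : G) : Finset G := {v, v * g, v * h}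

/-- Every nonempty set `Y` of at most `N` rows covers at least `2 |Y| + 1` points. -/
def Den {V : Type} (E : V → Finset V) (N : ℕ) : Prop :=
  ∀ Y : Finset V, Y.Nonempty → Y.card ≤ N → 2 * Y.card + 1 ≤ (Y.biUnion E).card

/-- Large girth gives density. The rows have three points (words of length `≤ 2`). Take `Y`
violating the claim with `|Y|` minimal: `|⋃ Y| ≤ 2 |Y|`. Each row in `Y` shares at least two of its
points with other rows of `Y` (otherwise remove it). So there is an infinite walk: rows `c₀, c₁, …` in
`Y` with `c_i s_i = c_(i+1) s'_i`, `s_i ≠ s'_i`, `s'_i ≠ s_(i+1)`, where `s, s' ∈ {1, g, h}`. Among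
`c_0, …, c_N` two are equal; the product of the `s_i s'_i⁻¹` between them is `1` in `G`,
contradiction to S_RED. -/
def S_DEN : Prop := ∀ (G : Type) [Group G] (g h : G) (N : ℕ),
  (∀ w : FreeGroup Bool, w ≠ 1 → w.toWord.length ≤ 2 * N →
    FreeGroup.lift (fun b : Bool => cond b g h) w ≠ 1) → Den (row g h) N

/-- Rows with two points inside are inside. -/
def Closed {V : Type} (E : V → Finset V) (T : Finset V) : Prop :=
  ∀ v, 2 ≤ (E v ∩ T).card → E v ⊆ T

/-- The closure. -/
noncomputable def cl {V : Type} [Fintype V] (E : V → Finset V) (P : Finset V) : Finset V :=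
  Finset.univ.filter (fun x => ∀ T, P ⊆ T → Closed E T → x ∈ T)

/-- Closures of small sets are small. For the bound: among the sets `T ⊇ P` with
`|T| ≤ |P| + #{rows inside T}` and `|T| ≤ 2 |P|` take one with `|T|` maximal. If it is not closed
there is a row with exactly two points inside; adding the third point gives a larger set `T'` with
`|T'| ≤ |P| + #{rows inside T'}`; if `|T'| > 2 |P|` then `|T'| = 2 |P| + 1` has at least `|P| + 1`
rows inside, which cover at least `2 |P| + 3` points. The same argument bounds the rows. -/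
def S_CLO : Prop := ∀ (V : Type) [Fintype V] (E : V → Finset V) (N : ℕ) (P : Finset V),
  (∀ v, (E v).card = 3) → Den E N → P.card + 1 ≤ N →
  P ⊆ cl E P ∧ Closed E (cl E P) ∧ (cl E P).card ≤ 2 * P.card ∧
    (Finset.univ.filter (fun v => E v ⊆ cl E P)).card ≤ P.card

/-- The row equation. -/
def RowEq {G : Type} [Group G] {p : ℕ} (g h : G) (y : G → ZMod p) (v : G) : Prop :=
  y v + y (v * g) - y (v * h) = 1

/-- Extension of partial solutions. `T = cl P` is closed and has at most `2 |P|` points; the rows
inside `cl Q` are at most `|Q|` many (S_CLO). Claim by induction on `Y`: for every finite set `Y` of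
rows with `|Y| ≤ N`, none of them inside `T`, there is `y'` equal to `y` on `T` which satisfies the
rows in `Y`. By counting with `Den` some row `v ∈ Y` has two points which are in no other row of `Y`
(otherwise `3 |Y| ≥ 2 |⋃ Y| - |Y| ≥ 3 |Y| + 2`); as `T` is closed and the row is not inside `T`, at
most one point of it is in `T`, so one of the two points is free: use `Y \ {v}` and change the value
in this point. -/
def S_EXT : Prop := ∀ (G : Type) [Group G] [Fintype G] (g h : G) (N p : ℕ) (P Q : Finset G)
  (y : G → ZMod p), (∀ v : G, (row g h v).card = 3) → Den (row g h) N → P ⊆ Q → Q.card + 1 ≤ N →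
  (∀ v, row g h v ⊆ cl (row g h) P → RowEq g h y v) →
  ∃ y' : G → ZMod p, (∀ x ∈ cl (row g h) P, y' x = y x) ∧
    ∀ v, row g h v ⊆ cl (row g h) Q → RowEq g h y' v

/-- The linear system has only the trivial solution. The set of the solutions is a finite `p`-group
on which `G` acts by left translations `(a • y) v = y (a⁻¹ * v)`; if it is not trivial there is a
non-zero fixed solution (`IsPGroup.exists_fixed_point_of_prime_dvd_card_of_fixed_point`); it is a
constant `c` with `c + c = c`. -/
def S_INJ : Prop := ∀ (p : ℕ) (M G : Type) [AddCommGroup M] [Finite M] [Group G] [Finite G]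
  (g h : G) (y : G → M), p.Prime → (∀ x : M, p • x = 0) → IsPGroup p G →
  (∀ v, y v + y (v * g) = y (v * h)) → ∀ v, y v = 0

/-! ### Part A: algebra of minimal sets -/

/-- A family of relations on `M` which contain the constant tuples. -/
structure Fam (σ : Sig) (M : Type) where
  P : (R : σ.S) → (Fin (σ.ar R) → M) → Prop
  const : ∀ (R : σ.S) (a : M), P R (fun _ => a)

variable {σ : Sig} {K M : Type}

/-- Polymorphisms with the index set `I`. -/
def Fam.Pol (F : Fam σ M) {I : Type} (f : (I → M) → M) : Prop :=
  ∀ (R : σ.S) (t : Fin (σ.ar R) → I → M), (∀ i, F.P R (fun j => t j i)) →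
    F.P R (fun j => f (t j))

/-- Minimal: at least two elements, and every endomorphism is injective or constant. -/
def Fam.Min (F : Fam σ M) : Prop := (∃ x y : M, x ≠ y) ∧
  ∀ f : M → M, (∀ (R : σ.S) (p : Fin (σ.ar R) → M), F.P R p → F.P R (fun j => f (p j))) →
    Function.Injective f ∨ ∃ c, ∀ x, f x = c

/-- `f` depends on the coordinate `i`. -/
def Dep {I : Type} (f : (I → M) → M) (i : I) : Prop :=
  ∃ (x : I → M) (a b : M), f (Function.update x i a) ≠ f (Function.update x i b)

/-- The twin property: a polymorphism is injective in each coordinate on which it depends. -/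
def TP (F : Fam σ M) : Prop := ∀ (I : Type) [Finite I] (f : (I → M) → M), F.Pol f → ∀ i : I,
  Dep f i → ∀ (x : I → M) (a b : M), f (Function.update x i a) = f (Function.update x i b) → a = b

/-- Twin lemma. If TP fails there are a polymorphism `f`, `i`, and `x`, `y` such that
`f (update x i ·)` is injective and `f (update y i ·)` is constant (both are endomorphisms, by
minimality). Change the other coordinates one at a time: there is a binary polymorphism `g` with
`g(·, a)` injective, `g(·, b)` constant. Replace `g(x, y)` by its iterates in `x` (`(card M)!` times):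
`g(x, a) = x`, `g(x, b) = c`, and for each `y` the map `g(·, y)` is the identity or a constant `k y`.
For `x ≠ c` the map `g(x, ·)` is not constant, so injective, so only `y = a` gives the identity. If
`x, x' ≠ c` are different: by surjectivity `x' = g(x, y)` for some `y ≠ a`, so `k y = x'` and
`g(x', y) = x' = g(x', a)`, contradiction. So `M = {c, d}`. If `b = c` then `g` is the operation
`meet c d`; if `b = d` then `n y = g(d, y)` exchanges `c` and `d` and `g(x, n y)` is `meet c d`. -/
def S_TWIN : Prop := ∀ (σ : Sig) (M : Type) [Finite M] (F : Fam σ M), F.Min → ¬ TP F →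
  ∃ a b : M, a ≠ b ∧ (∀ x, x = a ∨ x = b) ∧ ∀ (R : σ.S) (p p' : Fin (σ.ar R) → M),
    F.P R p → F.P R p' → F.P R (fun j => meet a b (p j) (p' j))

/-- A ternary polymorphism. -/
def Pol3 (F : Fam σ M) (m : M → M → M → M) : Prop :=
  ∀ (R : σ.S) (p q r : Fin (σ.ar R) → M), F.P R p → F.P R q → F.P R r →
    F.P R (fun j => m (p j) (q j) (r j))

/-- Maltsev operation from a polymorphism which depends on two coordinates. By TP (fix the other
coordinates) there is a binary polymorphism `g` which is injective in both coordinates. With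
`n = (card M)!` the `n`-fold iterate of `g(·, y)` is the identity, so `x / y := ` the
`(n - 1)`-fold iterate of `g(·, y)` at `x` is a polymorphism with `g(x / y, y) = x`; similarly
`y \ x` with `g(y, y \ x) = x`. `m x y z = g(x / (y \ y), y \ z)`. -/
def S_MALT : Prop := ∀ (σ : Sig) (M : Type) [Finite M] (F : Fam σ M), TP F →
  (∃ (I : Type) (_ : Finite I) (f : (I → M) → M) (i j : I), F.Pol f ∧ i ≠ j ∧ Dep f i ∧ Dep f j) →
  ∃ m : M → M → M → M, Pol3 F m ∧ (∀ x z, m x x z = z) ∧ ∀ x z, m x z z = x

/-- All polymorphisms commute with `m`. For fixed `y` and `w` the polymorphism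
`t(x, z) = m(f(m(x,y,z)), m(f x, f y, f z), w)` (index set `I ⊕ I`) has the value `w` if `x = y` or
`z = y`; if it depended on a coordinate of the block `x` it would be injective in it for `z = y`; so
it does not depend on the block `x` (change the coordinates one at a time) and `t(x, z) = t(y, z) =
w`. Take `w = m(f x, f y, f z)`. (If `M` has at most one element everything is trivial.) -/
def S_COMM : Prop := ∀ (σ : Sig) (M : Type) [Finite M] (F : Fam σ M) (m : M → M → M → M), TP F →
  Pol3 F m → (∀ x z, m x x z = z) → (∀ x z, m x z z = x) →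
  ∀ (I : Type) [Finite I] (f : (I → M) → M), F.Pol f → ∀ x y z : I → M,
    f (fun i => m (x i) (y i) (z i)) = m (f x) (f y) (f z)

/-- The affine case. S_MALT, S_COMM (also for `f = m`). Fix `0`; `x + y = m x 0 y`. Associativity:
`m (m x 0 y) 0 z = m (m x 0 y) (m 0 0 0) (m 0 0 z) = m (m x 0 0) (m 0 0 0) (m y 0 z)`, commutativity:
`m x 0 y = m (m 0 0 x) (m 0 0 0) (m y 0 0) = m (m 0 0 y) (m 0 0 0) (m x 0 0)`, `-x = m 0 x 0`:
`m x 0 (m 0 x 0) = m (m 0 0 x) (m 0 0 0) (m 0 x 0) = m (m 0 0 0) (m 0 0 x) (m x 0 0) = m 0 x x = 0`;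
`m x y z = x - y + z` in the same way. Let `p` be a prime divisor of `card M` and `y ≠ 0` with
`p • y = 0` (Cauchy, `exists_prime_addOrderOf_dvd_card`); `x ↦ p • x` is an endomorphism, not
injective, so constant. -/
def S_AFF : Prop := ∀ (σ : Sig) (M : Type) [Finite M] (F : Fam σ M), F.Min → TP F →
  (∃ (I : Type) (_ : Finite I) (f : (I → M) → M) (i j : I), F.Pol f ∧ i ≠ j ∧ Dep f i ∧ Dep f j) →
  ∃ (_ : AddCommGroup M) (p : ℕ), p.Prime ∧ (∀ x : M, p • x = 0) ∧
    Pol3 F (fun x y z => x - y + z) ∧
    ∀ (I : Type) [Finite I] (f : (I → M) → M), F.Pol f → ∀ x y z : I → M,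
      f (x - y + z) = f x - f y + f z

/-! ### Part H: the gadgets -/

/-- The data of a gadget: marked elements of the power `I → M`. -/
structure Gad (M : Type) (p : ℕ) (I : Type) where
  io : ZMod p → M
  u : ZMod p → I → M
  x : ZMod p → I → M
  y : ZMod p → I → M
  z : ZMod p → I → M

/-- The properties of a gadget. (1) the local solutions; (2) the global system over a finite
`p`-group has only constant solutions. -/
structure Gad.OK {p : ℕ} {I : Type} (D : Gad M p I) (F : Fam σ M) : Prop where
  inj : D.io 0 ≠ D.io 1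
  sol : ∀ α β : ZMod p, ∃ f : (I → M) → M, F.Pol f ∧ ∀ s, f (D.u s) = D.io s ∧
    f (D.x s) = D.io (s + α) ∧ f (D.y s) = D.io (s + β) ∧ f (D.z s) = D.io (s + α + β)
  uns : ∀ (G : Type) [Group G] [Finite G] (g h : G), IsPGroup p G →
    ∀ (H : G → ZMod p → M) (f : G → ZMod p → ZMod p → (I → M) → M),
    (∀ v α β, F.Pol (f v α β)) →
    (∀ v α β s, f v α β (D.u s) = H 1 s ∧ f v α β (D.x s) = H v (s + α) ∧
      f v α β (D.y s) = H (v * g) (s + β) ∧ f v α β (D.z s) = H (v * h) (s + α + β - 1)) →
    ∃ c, (∀ v s, H v s = c) ∧ ∀ v α β t, f v α β t = c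

/-- The affine gadget: `I = Fin 3`, `δ ≠ 0`, `io s = s.val • δ`, `u s = (0, 0, io s)`,
`x s = (δ, 0, io s)`, `y s = (0, δ, io s)`, `z s = (δ, δ, io s)`. (sol): `f(x) = α.val • x 0 +
β.val • x 1 + x 2`. (uns): each `f` satisfies `f (a - b + c) = f a - f b + f c`, so
`f (x s) = f (x 0) - f (u 0) + f (u s)`, `f (z s) = f (x s) - f (u s) + f (y s)`,
`f (u (s+1)) = f (u s) - f (u 0) + f (u 1)`. Put `Δ = H 1 1 - H 1 0`: `H 1 s = H 1 0 + s.val • Δ`,
`H v s = H v 0 + s.val • Δ` (from `f v 0 0`), and with `Y v = H v 0 - H 1 0`: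
`Y v + Y (v g) = H (v h) (-1) - H 1 0 = Y (v h) - Δ`. So `Y + Δ` solves the homogeneous system and is
`0` by S_INJ; `Y 1 = 0` gives `Δ = 0` and `Y = 0`. Then `f (u 0) = f (u 1)`, `f (x 0) = f (u 0)`,
`f (y 0) = f (u 0)`: by TP `f` does not depend on the coordinates 2, 0, 1, so it is constant. -/
def S_GA : Prop := ∀ (σ : Sig) (M : Type) [Finite M] [AddCommGroup M] (F : Fam σ M) (p : ℕ),
  (∃ x : M, x ≠ 0) → p.Prime → (∀ x : M, p • x = 0) → TP F → Pol3 F (fun x y z => x - y + z) →
  (∀ (I : Type) [Finite I] (f : (I → M) → M), F.Pol f → ∀ x y z : I → M,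
      f (x - y + z) = f x - f y + f z) →
  ∃ D : Gad M p (Fin 3), D.OK F

/-- The unary gadget: `p = 2`, `I = ZMod 2 × ZMod 2`, `io` injective, `u s = const (io s)`,
`x s (α, β) = io (s + α)`, `y s (α, β) = io (s + β)`, `z s (α, β) = io (s + α + β)`. (sol):
projections. (uns): each `f` is constant or `f t = k (t i)` with `k` injective (TP and no two
coordinates). If `H 1 0 = H 1 1` then `f (u 0) = f (u 1)`, so all `f` are constant. Otherwise
`f = k (t (a, b))`, so `f (x s) = f (u (s + a))`, `f (y s) = f (u (s + b))`,
`f (z s) = f (u (s + a + b))`. So for each `v` there is a unique `Y v ∈ ZMod 2` with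
`H v s = H 1 (s + Y v)` for all `s`, and `Y v + Y (v g) = Y (v h) - 1` (from `f v 0 0`), `Y 1 = 0`.
`Y + 1` solves the homogeneous system: `Y = -1` by S_INJ, contradiction to `Y 1 = 0`. -/
def S_GU : Prop := ∀ (σ : Sig) (M : Type) [Finite M] (F : Fam σ M),
  (∃ x y : M, x ≠ y) → TP F →
  (¬ ∃ (I : Type) (_ : Finite I) (f : (I → M) → M) (i j : I),
    F.Pol f ∧ i ≠ j ∧ Dep f i ∧ Dep f j) →
  ∃ D : Gad M 2 (ZMod 2 × ZMod 2), D.OK F

/-- Gadgets exist. S_AFF, S_GA or S_GU. -/
def S_GAD : Prop := ∀ (σ : Sig) (M : Type) [Finite M] (F : Fam σ M), F.Min → TP F →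
  ∃ (p : ℕ) (I : Type) (D : Gad M p I), p.Prime ∧ Finite I ∧ D.OK F

/-! ### Part J: the instances -/

/-- The patterns of the live symbols on `U` (all tuples for the dead ones). -/
def fam (L : Lang σ K) (U : Set K) : Fam σ U where
  P R q := Live L R → L.P R (fun j => (q j : K))
  const R a := fun _ => L.const R (a : K)

/-- The elements of the instances: main elements `(v, s)`; for each `v, α, β` a copy of the power
`I → U`; for each constraint of the copy fresh elements. -/
inductive El (σ : Sig) (U : Type) (G : Type) (p : ℕ) (I : Type) : Type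
  | main (v : G) (s : ZMod p)
  | site (v : G) (α β : ZMod p) (t : I → U)
  | fresh (v : G) (α β : ZMod p) (R : σ.S) (t : Fin (σ.ar R) → I → U) (j : Fin (σ.ar R))

/-- The pairs which are tied. -/
inductive Tie {U G : Type} [Group G] {p : ℕ} {I : Type} (D : Gad U p I) (g h : G) (b : ZMod p) :
    El σ U G p I → El σ U G p I → Prop
  | f (v α β R t j) : Tie D g h b (.fresh v α β R t j) (.site v α β (t j))
  | u (v α β s) : Tie D g h b (.site v α β (D.u s)) (.main 1 s)
  | x (v α β s) : Tie D g h b (.site v α β (D.x s)) (.main v (s + α))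
  | y (v α β s) : Tie D g h b (.site v α β (D.y s)) (.main (v * g) (s + β))
  | z (v α β s) : Tie D g h b (.site v α β (D.z s)) (.main (v * h) (s + α + β - b))

/-- The anchor used to tie something to `w`. -/
noncomputable def anch {U G : Type} [Group G] {p : ℕ} {I : Type} (w : El σ U G p I) :
    El σ U G p I := if w = .main 1 0 then .main 1 1 else .main 1 0

/-- The triple `(o, a, w)`, as a tuple of any length. -/
def trip {A : Type} {n : ℕ} (o a w : A) : Fin n → A :=
  fun j => if j.val = 0 then o else if j.val = 1 then a else w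

/-- The instances `J_b`. -/
noncomputable def JJ (L : Lang σ K) (C : σ.S) (U : Set K) {G : Type} [Group G] (g h : G) {p : ℕ}
    {I : Type} (D : Gad U p I) (b : ZMod p) : Str σ (El σ U G p I) where
  rel R T := (Live L R ∧ ∃ (v : G) (α β : ZMod p) (t : Fin (σ.ar R) → I → U),
      (∀ i, L.P R (fun j => (t j i : K))) ∧ T = fun j => El.fresh v α β R t j) ∨
    (R = C ∧ ∃ a w, Tie D g h b a w ∧ T = trip (anch w) a w)

/-- `J_0` is solvable. Let `Φ (main v s) = io s`, `Φ (site v α β t) = f_(α,β) t`,
`Φ (fresh v α β R t j) = f_(α,β) (t j)` (`Gad.OK.sol`); it is a step on everything. Let `W` be a set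
with a strict constraint inside. If `Φ` is not constant on `W` take it. Otherwise, if
`o = main 1 0 ∈ W`, then `i = main 1 1 ∉ W`; take `o ↦ k`, everything else `↦ k' ≠ k` (the only
constraints with `o` inside `W` are `(o, a, w)` with `a, w ≠ o`; `W ≠ {o}` because of the strict
constraint). If `o ∉ W` the only constraints inside `W` are on the fresh elements of one
`(v, α, β, R, t)`; the given strict one has a live symbol `R` with a non-constant pattern `q` in
`L.P R`: take `fresh v α β R t j ↦ q j` and everything else constant. -/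
def S_J0 : Prop := ∀ (σ : Sig) (K : Type) (L : Lang σ K) (C : σ.S) (U : Set K) (G : Type) [Group G]
  (g h : G) (p : ℕ) (I : Type) (D : Gad U p I), IsSplit L C → Live L C → D.OK (fam L U) →
  Res L (JJ L C U g h D 0)

/-- All steps of `J_1` are constant. A step `F` on everything with values in `V` satisfies
`F a = F w` for all ties, so on each copy it is a homomorphism from the power of `U`. (1) for
`V = U`: `Gad.OK.uns`. (2) if all the homomorphisms from `U` to `V` are constant: they are constant on
the powers (fix all coordinates but one), so `F` is constant on each copy, and all the copies contain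
elements tied to `main 1 0`. -/
def S_J1 : Prop := ∀ (σ : Sig) (K : Type) (L : Lang σ K) (C : σ.S) (U V : Set K) (G : Type)
  [Group G] [Finite G] (g h : G) (p : ℕ) (I : Type) [Finite I] (D : Gad U p I), IsSplit L C →
  Live L C → IsPGroup p G → D.OK (fam L U) → ∀ F : El σ U G p I → K,
  IsStep L (JJ L C U g h D 1) Set.univ F → (∀ x, F x ∈ V) →
  (V = U ∨ ∀ k : U → V, (∀ (R : σ.S) (q : Fin (σ.ar R) → U), (fam L U).P R q →
    (fam L V).P R (fun j => k (q j))) → ∃ c, ∀ x, k x = c) → ∃ c, ∀ x, F x = c

/-- The two instances are equivalent for `k` pebbles. `touch (main v s) = {v}`, `touch` of the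
others is the row of `v`. `Z v w` iff there is `y : G → ZMod p` with `y 1 = 0`, with `RowEq` for all
rows inside the closure of `{1} ∪ ⋃ touch (v i)`, and `w i = y · v i` for all `i`, where
`y · main v s = main v (s + y v)`, `y · site v α β t = site v (α + y v) (β + y (v g)) t`, the same for
`fresh`. Relations: `z s` of `(v, α, β)` is tied to `main (v h) (s + α + β)` in `J_0` and
`s + (α + y v) + (β + y (v g)) - 1 = (s + α + β) + y (v h)` by `RowEq`. Forth: choose for every vertex
and for every row one extension (S_EXT), the map is a bijection on the elements over it. -/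
def S_JZ : Prop := ∀ (σ : Sig) (K : Type) (L : Lang σ K) (C : σ.S) (U : Set K) (G : Type) [Group G]
  [Finite G] (g h : G) (p : ℕ) (I : Type) (D : Gad U p I) (k : ℕ), σ.ar C = 3 → p.Prime →
  (∀ v : G, (row g h v).card = 3) → Den (row g h) (3 * k + 5) →
  ∃ Z : (Fin k → El σ U G p I) → (Fin k → El σ U G p I) → Prop,
    BFSys (JJ L C U g h D 0) (JJ L C U g h D 1) k Z ∧ ∃ v w, Z v w

/-! ### Part N: the negative part -/

/-- `U` is a minimal set. -/
def MinSet (L : Lang σ K) (U : Set K) : Prop := (fam L U).Min

/-- There is a non-constant step on all of `𝔄` with values in `U`. -/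
def NC {A : Type} (L : Lang σ K) (𝔄 : Str σ A) (U : Set K) : Prop :=
  ∃ h : A → K, IsStep L 𝔄 Set.univ h ∧ (∀ x, h x ∈ U) ∧ ∃ x y, h x ≠ h y

/-- Solvable structures have no dead constraints: a dead constraint `t` would be a strict constraint
inside `W = range t`. -/
def S_CLEAN : Prop := ∀ (σ : Sig) (K : Type) (L : Lang σ K) (A : Type) (𝔄 : Str σ A), Res L 𝔄 →
  ∀ (R : σ.S) (t : Fin (σ.ar R) → A), 𝔄.rel R t → Live L R

/-- Descent to minimal sets, by induction on the size of `V`. If `V` is not minimal there is an
endomorphism `f` of `fam L V`, not injective and not constant. If `f ∘ h` is not constant it has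
values in `f '' V`, otherwise `h` has values in a set `{x ∈ V : f x = c}`; both are smaller. -/
def S_DESC : Prop := ∀ (σ : Sig) (K : Type) [Finite K] (L : Lang σ K) (A : Type) (𝔄 : Str σ A)
  (V : Set K), (∀ (R : σ.S) (t : Fin (σ.ar R) → A), 𝔄.rel R t → Live L R) → NC L 𝔄 V →
  ∃ U ⊆ V, MinSet L U ∧ NC L 𝔄 U

/-- The negative part. Assume not GS. Let `TT 𝔄` be the set of the minimal `U` with `NC L 𝔄 U`. Among
the solvable finite `𝔄` with a strict constraint and no non-constant step into a good two-element set
take one with `(TT 𝔄).ncard` minimal. It is not empty (Res for `W = univ`, S_DESC). Let `U ∈ TT 𝔄` be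
of minimal size. A non-constant step `h₀ : 𝔄 → U` is onto `U` (S_DESC for the image). `fam L U` has
the twin property: otherwise S_TWIN gives `U = {a, b}` with `Good L a b`. By S_GAD take a gadget, by
S_PGRP, S_DEN a group for `3 k + 5`, and `J_0`, `J_1`. `J_0` is solvable (S_J0). If `J_1` were
solvable: it has a strict constraint (ties) and no dead constraints; no non-constant step into a good
set `{a, b}` and into a minimal set `V ∉ TT 𝔄` (S_J1: a non-constant homomorphism `U → V` composed
with `h₀` would be a non-constant step of `𝔄`, as `h₀` is onto); and none into `U`; so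
`TT J_1 ⊆ TT 𝔄 \ {U}` is smaller, contradiction. So with S_JZ, S_GAME and S_RES the class is not in
FPC. (`C` is live because `K` has two elements.) -/
def S_NEG1 : Prop := S_GAME → S_PGRP → S_DEN → S_GAD → S_TWIN → S_J0 → S_J1 → S_JZ → S_CLEAN →
  S_DESC → S_RES → S_NEG

/-! ### Part P: the positive part -/

/-- One direction of S_RES. Given a solution `f : A → Word c` and `W` with a strict constraint `t`
inside: the words `f x`, `x ∈ W`, are not all equal (strictness), so (finitely many words, finitely
many differences) there is a first place `q` where they are not all equal; `h x = f x q`. For a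
constraint inside `W` either `q` is its first split or its pattern at `q` is constant. -/
def S_RES1 : Prop := ∀ (σ : Sig) (K : Type) (L : Lang σ K) (c : ℚ → K) (A : Type) [Finite A]
  (𝔄 : Str σ A), CSP (L.tree c) A 𝔄 → Res L 𝔄

/-- The other direction. Claim by strong induction on the size of `W`: for every rational `q₀` there
is `f : A → Word c` such that all `f x`, `x ∈ W`, agree with `c` below `q₀`, and the constraints
inside `W` are satisfied. If there is no strict constraint inside `W` take `f = c`. Otherwise take a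
non-constant step `h`, the classes `{x ∈ W : h x = a}` are smaller; take solutions `f_a` for them
with `q₀ + 1` in place of `q₀` and change the letter at the place `q₀` to `h x`. -/
def S_RES2 : Prop := ∀ (σ : Sig) (K : Type) (L : Lang σ K) (c : ℚ → K) (A : Type) [Finite A]
  (𝔄 : Str σ A), Res L 𝔄 → CSP (L.tree c) A 𝔄

/-- If the entries in `I` are `b` then the entry `j` is `b`, in all the patterns on `{a, b}`. -/
def Forced (L : Lang σ K) (a b : K) (R : σ.S) (I : Finset (Fin (σ.ar R))) (j : Fin (σ.ar R)) :
    Prop := ∀ p, L.P R p → In {a, b} p → (∀ i ∈ I, p i = b) → p j = b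

/-- The Horn closure of `y` inside `W`. -/
inductive Hull {A : Type} (L : Lang σ K) (𝔄 : Str σ A) (a b : K) (W : Set A) (y : A) : A → Prop
  | base : Hull L 𝔄 a b W y y
  | step (R : σ.S) (t : Fin (σ.ar R) → A) (I : Finset (Fin (σ.ar R))) (j : Fin (σ.ar R)) :
      𝔄.rel R t → (∀ i, t i ∈ W) → Forced L a b R I j → (∀ i ∈ I, Hull L 𝔄 a b W y (t i)) →
      Hull L 𝔄 a b W y (t j)

/-- The Horn step and its minimality. (1) For a constraint `t` inside `W` let `I` be the set of the
`i` with `t i` in the hull; the meet of all the patterns on `{a, b}` which are `b` on `I` is a pattern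
(`Good`, `R` is live; the constant `b` is one of them) and is `b` exactly in the forced places, i.e.
on `I`. (2) Induction on the hull. -/
def S_HORN : Prop := ∀ (σ : Sig) (K : Type) (L : Lang σ K) (A : Type) (𝔄 : Str σ A) (a b : K)
  (W : Set A) (y : A), Good L a b →
  ((∀ (R : σ.S) (t : Fin (σ.ar R) → A), 𝔄.rel R t → (∀ j, t j ∈ W) → Live L R) →
    IsStep L 𝔄 W (fun x => if Hull L 𝔄 a b W y x then b else a)) ∧
  ∀ h : A → K, IsStep L 𝔄 W h → (∀ x ∈ W, h x = a ∨ h x = b) → h y = b →
    ∀ x, Hull L 𝔄 a b W y x → h x = b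

/-- One round of the refinement: `S x x'` means that `x, x'` are separated. -/
def refine {A : Type} (L : Lang σ K) (𝔄 : Str σ A) (S : A → A → Prop) (x x' : A) : Prop :=
  ¬ S x x' ∧ ∃ (a b : K) (y : A), Good L a b ∧ ¬ S y x ∧
    ¬ (Hull L 𝔄 a b {z | ¬ S y z} y x ↔ Hull L 𝔄 a b {z | ¬ S y z} y x')

/-- The stages. -/
def Sep {A : Type} (L : Lang σ K) (𝔄 : Str σ A) : ℕ → A → A → Prop
  | 0 => fun _ _ => False
  | n + 1 => fun x x' => Sep L 𝔄 n x x' ∨ refine L 𝔄 (Sep L 𝔄 n) x x'

/-- No dead constraints, and every strict constraint is separated at some stage. -/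
def Acc {A : Type} (L : Lang σ K) (𝔄 : Str σ A) : Prop :=
  (∀ (R : σ.S) (t : Fin (σ.ar R) → A), 𝔄.rel R t → Live L R) ∧
  ∀ (R : σ.S) (t : Fin (σ.ar R) → A), L.strict R → 𝔄.rel R t →
    ∃ i j, ∃ n, Sep L 𝔄 n (t i) (t j)

/-- Correctness of the refinement. All `¬ Sep n` are equivalence relations (induction). (→) S_CLEAN;
the stages are stable from some `n` on (finite); a class `W` at this stage is solvable
(`Res` for the induced structure on `W`); if it has a strict constraint, GS gives a non-constant step
`h` on `W` with values in a good `{a, b}`; take `y ∈ W` with `h y = b` and `x ∈ W` with `h x = a`: `x` is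
not in the hull of `y` (S_HORN) and `y` is: they are separated in the next round. (←) Let `W` have a
strict constraint `t` inside. Take the first stage `n + 1` at which two elements `x, x'` of `W` are
separated: `W` is contained in the class `{z | ¬ Sep n y z}` and the Horn step of the round (S_HORN)
is a non-constant step on it, so on `W`. -/
def S_REF : Prop := ∀ (σ : Sig) (K : Type) [Finite K] (L : Lang σ K), GS L →
  ∀ (A : Type) [Finite A] (𝔄 : Str σ A), Res L 𝔄 ↔ Acc L 𝔄

/-- The formula. `Hull` is the fixed point (relation variable 2) of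
`z = y ∨ ⋁_(R, I, j forced) ∃ t (R t ∧ ⋀ ¬ S y (t i) ∧ ⋀_(i ∈ I) Hull (t i) ∧ t j = z)`, `Sep` the
fixed point (relation variable 1) of `refine`; the disjunctions over `R`, `I`, `j`, `a`, `b` are finite
(`K`, `σ.S` finite). See `FP.lt`, `FP.eval_lt` in TS/Form.lean for a similar formula. (The stages of
the inner fixed point are increasing, so their union is closed under the rules.) -/
def S_FORM : Prop := ∀ (σ : Sig) (K : Type) [Finite K] (L : Lang σ K), ∃ φ : FP σ,
  ∀ (A : Type) [Finite A] [Nonempty A] (𝔄 : Str σ A) (v : ℕ → A),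
    φ.eval 𝔄 v (fun _ _ => False) ↔ Acc L 𝔄

theorem S_RES_of (h1 : S_RES1) (h2 : S_RES2) : S_RES := fun σ K L c A _ 𝔄 =>
  ⟨h1 σ K L c A 𝔄, h2 σ K L c A 𝔄⟩

theorem S_POS_of (h1 : S_RES) (h2 : S_REF) (h3 : S_FORM) : S_POS := by
  intro σ K _ L c hG
  obtain ⟨φ, hφ⟩ := h3 σ K L
  refine ⟨φ, ?_⟩
  intro A _ _ 𝔄 v
  rw [hφ A 𝔄 v, h1 σ K L c A 𝔄, h2 σ K L hG A 𝔄]

end Pool.Agent.Work.MP_8dbde4_lc.Tree
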