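import Pool.Agent.Work.MP_8dbde4_lc.Tree.Stmts

/-!
Block Tree of MP_8dbde4_lc, Part R: the templates are reducts of finitely bounded homogeneous
structures. Every docstring contains the proof.
-/

set_option autoImplicit false
open Classical

namespace Pool.Agent.Work.MP_8dbde4_lc.Tree

open Pool.Agent.Work.MP_8dbde4_lc.TS

variable {σ : Sig}

/-- Embeddings. -/
def Emb {A B : Type} (𝔄 : Str σ A) (𝔅 : Str σ B) (e : A → B) : Prop :=
  Function.Injective e ∧ ∀ (R : σ.S) (t : Fin (σ.ar R) → A),
    𝔄.rel R t ↔ 𝔅.rel R (fun j => e (t j))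

/-- Homogeneous: every isomorphism between finite substructures extends to an automorphism. -/
def Homog {A : Type} (𝔄 : Str σ A) : Prop :=
  ∀ (S : Finset A) (f : A → A), Set.InjOn f S →
    (∀ (R : σ.S) (t : Fin (σ.ar R) → A), (∀ j, t j ∈ S) →
      (𝔄.rel R t ↔ 𝔄.rel R (fun j => f (t j)))) →
    ∃ g : A ≃ A, (∀ (R : σ.S) (t : Fin (σ.ar R) → A), 𝔄.rel R t ↔ 𝔄.rel R (fun j => g (t j))) ∧
      ∀ x ∈ S, g x = f x

/-- Finitely bounded: the finite structures which embed are those into which no member of a finite
set of finite structures embeds. -/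
def FinBdd {A : Type} (𝔄 : Str σ A) : Prop :=
  ∃ F : Set (Σ m : ℕ, Str σ (Fin m)), F.Finite ∧ ∀ (B : Type) [Finite B] (𝔅 : Str σ B),
    (∃ e, Emb 𝔅 𝔄 e) ↔ ∀ X ∈ F, ¬ ∃ e, Emb X.2 𝔅 e

/-- `𝔅` is a reduct of `𝔄`: the relations of `𝔅` are relations of `𝔄`. -/
def IsReduct {τ : Sig} {A : Type} (𝔅 : Str τ A) (𝔄 : Str σ A) : Prop :=
  ∀ R : τ.S, ∃ (R' : σ.S) (h : σ.ar R' = τ.ar R), ∀ t : Fin (τ.ar R) → A,
    𝔅.rel R t ↔ 𝔄.rel R' (fun j => t (Fin.cast h j))

/-- `𝔅` is a countable reduct of a finitely bounded homogeneous structure. -/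
def RFBH {τ : Sig} {A : Type} (𝔅 : Str τ A) : Prop :=
  Countable A ∧ ∃ (σ : Sig) (𝔄 : Str σ A), Homog 𝔄 ∧ FinBdd 𝔄 ∧ IsReduct 𝔅 𝔄

variable {K : Type} {c : ℚ → K}

/-- `x` and `y` agree below `q`. -/
def Agr (x y : Word c) (q : ℚ) : Prop := ∀ q' < q, x.1 q' = y.1 q'

/-- `x` and `y` split with the letters `a` and `b`. -/
def Sp (a b : K) (x y : Word c) : Prop := ∃ q, Agr x y q ∧ x.1 q = a ∧ y.1 q = b ∧ a ≠ b

/-- `z` splits off from `x` and `y` first. -/
def Cc (z x y : Word c) : Prop := ∃ q, Agr z x q ∧ Agr z y q ∧ x.1 q = y.1 q ∧ z.1 q ≠ x.1 q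

/-- Every letter occurs in every interval of the default word. -/
def DenseW (c : ℚ → K) : Prop := ∀ (a : K) (q q' : ℚ), q < q' → ∃ r, q < r ∧ r < q' ∧ c r = a

/-- The signature with labelled split relations. -/
noncomputable def Sig.plus (σ : Sig) (K : Type) [Finite K] : Sig where
  S := σ.S ⊕ ((K × K) ⊕ Unit)
  fin := by
    haveI := Fintype.ofFinite K
    infer_instance
  ar := Sum.elim σ.ar (Sum.elim (fun _ => 2) (fun _ => 3))

/-- The expansion of the template by the labelled split relations. -/
noncomputable def Lang.plus [Finite K] (L : Lang σ K) (c : ℚ → K) :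
    Str (Sig.plus σ K) (Word c) where
  rel
    | .inl R => fun t => (L.tree c).rel R t
    | .inr (.inl p) => fun t => Sp p.1 p.2 (t (0 : Fin 2)) (t (1 : Fin 2))
    | .inr (.inr _) => fun t => Cc (t (0 : Fin 3)) (t (1 : Fin 3)) (t (2 : Fin 3))

/-- The tuples `v` and `w` have the same splits. -/
def SameT {r : ℕ} (v w : Fin r → Word c) : Prop :=
  (∀ i j, v i = v j ↔ w i = w j) ∧ (∀ i j a b, Sp a b (v i) (v j) ↔ Sp a b (w i) (w j)) ∧
    ∀ i j k, Cc (v i) (v j) (v k) ↔ Cc (w i) (w j) (w k)

/-- First-split relations depend only on the splits. Different words split exactly once (the set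
of the places where they differ is finite). Suppose the entries of `v` are not all equal, let `q` be
the first split of `v` and `i, j` with `v i q ≠ v j q`. Then `w i`, `w j` split with the same
letters at some `q'`; for each `k`: if `v k q = v i q` then `v k = v i` or `Cc (v j) (v i) (v k)`, so
the same for `w`, so `w k` agrees with `w i` below `q'` and at `q'`; if `v k q = v j q` in the same
way; otherwise `v i, v k` split at `q` with letters `v i q`, `v k q` and `v j, v k` split with
letters `v j q`, `v k q`; `w i, w k` split with letters `v i q, v k q`, `w j, w k` with letters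
`v j q, v k q`; the place cannot be before or after `q'` (compare the letters), so it is `q'`. So `q'`
is the first split of `w`, with the same pattern. -/
def S_TYP : Prop := ∀ (σ : Sig) (K : Type) (L : Lang σ K) (c : ℚ → K) (R : σ.S)
  (v w : Fin (σ.ar R) → Word c), SameT v w → (L.tree c).rel R v → (L.tree c).rel R w

/-- Finite partial isomorphisms for the splits. -/
def PI (c : ℚ → K) (F : Finset (Word c × Word c)) : Prop :=
  (∀ p ∈ F, ∀ q ∈ F, (p.1 = q.1 ↔ p.2 = q.2)) ∧
  (∀ p ∈ F, ∀ q ∈ F, ∀ a b, Sp a b p.1 q.1 ↔ Sp a b p.2 q.2) ∧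
  ∀ p ∈ F, ∀ q ∈ F, ∀ r ∈ F, Cc p.1 q.1 r.1 ↔ Cc p.2 q.2 r.2

/-- One-point extension. If `F` is empty take `y = x`, if `x` is a first coordinate take its
partner. Otherwise let `δ` be the first split of two words, `q` the largest `δ(x, s)` for the first
coordinates `s` of `F`, `S'` the set of the `s` with `δ(x, s) = q`, `a = x q` (so `a ≠ s q` for
`s ∈ S'`). Case 1: two elements `s₁, s₂` of `S'` have different letters at `q`. Let `q'` be the first
split of their partners `s₁*`, `s₂*`; take `y = s₁*` below `q'`, `y q' = a`, `y = c` above. The partners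
of `S'` agree with `s₁*` below `q'` and have the letters `s q` at `q'`; the partners of the other `s`
split from `s₁*` below `q'` (`Cc s s₁ s₂`), with the same letters. Case 2: all the letters `s q`,
`s ∈ S'`, are equal to `b`. Let `s₀ ∈ S'`, `lo` the largest `δ(s*, s₀*)` for `s ∉ S'` (if any), `hi`
the smallest `δ(s*, s'*)` for different `s, s' ∈ S'` (if any); `lo < hi` by the relations `Cc`. By
`DenseW` there are infinitely many places between `lo` and `hi` at which `c` is `b`, take one, `q'`,
at which `s₀*` is `b`. Take `y = s₀*` below `q'`, `y q' = a`, `y = c` above. -/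
def S_OPE : Prop := ∀ (K : Type) (c : ℚ → K), DenseW c → ∀ F : Finset (Word c × Word c), PI c F →
  ∀ x : Word c, ∃ y : Word c, PI c (insert (x, y) F)

/-- Words over a finite alphabet are countably many. -/
def S_CTB : Prop := ∀ (K : Type) [Finite K] (c : ℚ → K), Countable (Word c)

/-- Dense default words exist: for `K = Fin n`, `c q = (padicValNat 2 q.den) mod n` (the odd
multiples of `1 / 2^k` are dense). -/
def S_DNS : Prop := ∀ (K : Type) [Finite K] [Nonempty K], ∃ c : ℚ → K, DenseW c

/-- Homogeneity: back and forth with S_OPE (also for the inverse, `PI` is symmetric) on the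
countable set `Word c`, for example with `Order.idealOfCofinals` as in the proof of Cantor's theorem
in Mathlib (Order/CountableDenseLinearOrder). The resulting bijection preserves `Sp` and `Cc` in both
directions, so by S_TYP also the relations of `L.tree c`. -/
def S_HOM : Prop := ∀ (σ : Sig) (K : Type) [Finite K] (L : Lang σ K) (c : ℚ → K), DenseW c →
  Homog (L.plus c)

/-- Finite boundedness. Let `n = 5 + ∑ R, ar R` and let `F` be the set of the structures on `Fin m`,
`m ≤ n`, which do not embed into `L.plus c`. One direction is clear. Let `𝔅` be a finite structure into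
which no member of `F` embeds, so that all substructures with at most `n` elements embed. Claim by
induction on `|W|`: for all `W ⊆ B` and all `q₀` there is `e : B → Word c`, injective on `W`, which
preserves `Sp` and `Cc` on `W` in both directions, with `e x = c` below `q₀` for `x ∈ W`. For `|W| ≤ 1`
take `e = c`. Otherwise fix `x ∈ W` and `y ∈ W \ {x}` such that `Cc y' x y` (in `𝔅`) holds for no
`y' ∈ W \ {x}` (possible: for an embedding `g` of `{x, y, y'}` it says `δ(g x, g y') < δ(g x, g y)`, a
strict weak order by the embeddings of four elements). For `z ∈ W` let `h z` be the letter of `x` in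
the split of `x` and `y` if `z = x` or `Cc y x z`, and the letter of `z` in the split of `x` and `z`
otherwise. For every embedding `g` of `{x, y, z, w, u}`: `h z = (g z) q*`, where
`q* = δ(g x, g y)`, and all the five words agree below `q*`. The classes of `h` are smaller than `W`;
take `e_a` for the classes with `q₀ + 1` and put the letter `h z` at `q₀`. For `z, w, u` in one class
the relations are those of `e_a`, otherwise they are read off at `q₀` in `Word c` and at `q*` in the
embedding `g`. Finally the relations `R` of `L`: for a tuple `t` of `B` take an embedding `g` of its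
entries: `e t` and `g t` have the same splits, S_TYP. -/
def S_FB : Prop := ∀ (σ : Sig) (K : Type) [Finite K] (L : Lang σ K) (c : ℚ → K),
  FinBdd (L.plus c)

theorem S_RFBH_of (h1 : S_HOM) (h2 : S_FB) (h3 : S_CTB) (σ : Sig) (K : Type) [Finite K]
    (L : Lang σ K) (c : ℚ → K) (hc : DenseW c) : RFBH (L.tree c) := by
  refine ⟨h3 K c, Sig.plus σ K, L.plus c, h1 σ K L c hc, h2 σ K L c, ?_⟩
  intro R
  exact ⟨Sum.inl R, rfl, fun t => Iff.rfl⟩

end Pool.Agent.Work.MP_8dbde4_lc.Tree
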